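import Pool.Agent.MP_4d0c14_nt.Loc

/-! Local field facts and the final recursion. -/

namespace Pool.Agent.MP_4d0c14_nt

open Filter Topology

theorem norm_emb (p : ℕ) [Fact p.Prime] {F E : Type*} [NontriviallyNormedField F]
    [NormedAlgebra ℚ_[p] F] [FiniteDimensional ℚ_[p] F] [NormedField E] [NormedAlgebra ℚ_[p] E]
    (κ : F →ₐ[ℚ_[p]] E) (x : F) : ‖κ x‖ = ‖x‖ := by
  let f : AbsoluteValue F ℝ :=
    { toFun := fun y => ‖κ y‖
      map_mul' := fun a b => by simp
      nonneg' := fun a => norm_nonneg _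
      eq_zero' := fun a => by simp
      add_le' := fun a b => by simpa using norm_add_le (κ a) (κ b) }
  let g : AbsoluteValue F ℝ :=
    { toFun := fun y => ‖y‖
      map_mul' := fun a b => by simp
      nonneg' := fun a => norm_nonneg _
      eq_zero' := fun a => by simp
      add_le' := fun a b => norm_add_le a b }
  have h1 : f x = spectralNorm ℚ_[p] F x :=
    spectralNorm_unique_field_norm_ext (f := f) (fun y => by
      show ‖κ (algebraMap ℚ_[p] F y)‖ = ‖y‖
      rw [κ.commutes, norm_algebraMap']) x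
  have h2 : g x = spectralNorm ℚ_[p] F x :=
    spectralNorm_unique_field_norm_ext (f := g) (fun y => by
      show ‖algebraMap ℚ_[p] F y‖ = ‖y‖
      rw [norm_algebraMap']) x
  exact h1.trans h2.symm

theorem norm_char_unit {F E : Type*} [NormedField F] [ProperSpace F] [NormedField E]
    (χ : Fˣ →* Eˣ) (hχ : IsSmoothChar χ) (u : Fˣ) (hu : ‖(u : F)‖ = 1) :
    ‖((χ u : Eˣ) : E)‖ = 1 := by
  obtain ⟨r, hr, hχ⟩ := hχ
  have hmem : ∀ k : ℕ, (u : F) ^ k ∈ Metric.closedBall (0 : F) 1 := fun k => by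
    simp [hu]
  obtain ⟨a, -, φ, hφ, hlim⟩ := (isCompact_closedBall (0 : F) 1).tendsto_subseq hmem
  obtain ⟨N, hN⟩ := Metric.cauchySeq_iff'.1 hlim.cauchySeq r hr
  have h1 := hN (N + 1) (Nat.le_succ N)
  have hlt : φ N < φ (N + 1) := hφ (Nat.lt_succ_self N)
  obtain ⟨m, hm⟩ : ∃ m, φ (N + 1) = φ N + (m + 1) := ⟨φ (N + 1) - φ N - 1, by omega⟩
  simp only [Function.comp_apply, dist_eq_norm, hm] at h1
  have h2 : (u : F) ^ (φ N + (m + 1)) - (u : F) ^ φ N = (u : F) ^ φ N * ((u : F) ^ (m + 1) - 1) := by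
    ring
  rw [h2, norm_mul, norm_pow, hu, one_pow, one_mul] at h1
  have h3 := hχ (u ^ (m + 1)) (by simpa using h1)
  rw [map_pow] at h3
  have h4 : ‖((χ u : Eˣ) : E)‖ ^ (m + 1) = 1 := by
    rw [← norm_pow, ← Units.val_pow_eq_pow_val, h3]
    simp
  exact (pow_eq_one_iff_of_nonneg (norm_nonneg _) (Nat.succ_ne_zero m)).1 h4

theorem SA_ch_one {F E : Type*} [NormedField F] [Field E] (χ : Fˣ →* Eˣ) {r : ℝ}
    (hχ : ∀ x : Fˣ, ‖(x : F) - 1‖ < r → χ x = 1) {y : F} (h1 : ‖y‖ < 1) (hr : ‖y‖ < r) :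
    ch χ (1 + y) = 1 := by
  have h0 : (1 + y : F) ≠ 0 := by
    intro h
    have : y = -1 := by linear_combination h
    rw [this] at h1
    simp at h1
  have := ch_units χ (Units.mk0 (1 + y) h0)
  rw [hχ _ (by simpa using hr)] at this
  simpa using this

theorem SA_mem {F : Type*} [NormedField F] [IsUltrametricDist F] (x : F) :
    x ∈ (NormedField.valuation (K := F)).valuationSubring ↔ ‖x‖ ≤ 1 := by
  rw [Valuation.mem_valuationSubring_iff, NormedField.valuation_apply, ← NNReal.coe_le_coe]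
  simp

theorem SA_res_eq {F : Type*} [NormedField F] [IsUltrametricDist F]
    (x y : (NormedField.valuation (K := F)).valuationSubring) :
    IsLocalRing.residue _ x = IsLocalRing.residue _ y ↔ ‖(x : F) - y‖ < 1 := by
  rw [← sub_eq_zero, ← map_sub, IsLocalRing.residue_eq_zero_iff,
    Valuation.mem_maximalIdeal_iff, NormedField.valuation_apply, ← NNReal.coe_lt_coe]
  simp

theorem SA_finite {F : Type*} [NormedField F] [IsUltrametricDist F] [ProperSpace F] :
    Finite (IsLocalRing.ResidueField (NormedField.valuation (K := F)).valuationSubring) := by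
  obtain ⟨t, ht, hfin, hcov⟩ := finite_cover_balls_of_compact (isCompact_closedBall (0 : F) 1)
    (e := 1) one_pos
  have : Finite t := hfin.to_subtype
  let f : t → IsLocalRing.ResidueField (NormedField.valuation (K := F)).valuationSubring :=
    fun z => IsLocalRing.residue _ ⟨z.1, (SA_mem _).2 (by simpa using ht z.2)⟩
  refine Finite.of_surjective f fun a => ?_
  obtain ⟨x, rfl⟩ := IsLocalRing.residue_surjective a
  have hx : (x : F) ∈ Metric.closedBall (0 : F) 1 := by simpa using (SA_mem _).1 x.2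
  obtain ⟨z, hz, hxz⟩ := Set.mem_iUnion₂.1 (hcov hx)
  refine ⟨⟨z, hz⟩, ?_⟩
  refine ((SA_res_eq _ _).2 ?_).symm
  simpa [dist_eq_norm] using hxz

theorem exists_LD {F E : Type*} [NormedField F] [IsUltrametricDist F] [ProperSpace F] [Field E]
    (χ₁ χ₂ : Fˣ →* Eˣ) (h₁ : IsSmoothChar χ₁) (h₂ : IsSmoothChar χ₂) (ϖ : Fˣ)
    (hϖ : ‖(ϖ : F)‖ < 1) (hmax : ∀ x : F, ‖x‖ < 1 → ‖x‖ ≤ ‖(ϖ : F)‖) :
    ∃ D : LD F E, D.ϖ = ϖ ∧ D.χ₁ = χ₁ ∧ D.χ₂ = χ₂ ∧ D.R.card =
      Nat.card (IsLocalRing.ResidueField (NormedField.valuation (K := F)).valuationSubring) := by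
  classical
  obtain ⟨r₁, hr₁, h₁⟩ := h₁
  obtain ⟨r₂, hr₂, h₂⟩ := h₂
  obtain ⟨c, hc⟩ := exists_pow_lt_of_lt_one (lt_min hr₁ hr₂) hϖ
  have hc1 : ‖(ϖ : F)‖ ^ (c + 1) ≤ ‖(ϖ : F)‖ ^ c :=
    pow_le_pow_of_le_one (norm_nonneg _) hϖ.le (Nat.le_succ c)
  have hc2 : ‖(ϖ : F)‖ ^ (c + 1) < 1 := pow_lt_one₀ (norm_nonneg _) hϖ (Nat.succ_ne_zero c)
  have := SA_finite (F := F)
  have := Fintype.ofFinite
    (IsLocalRing.ResidueField (NormedField.valuation (K := F)).valuationSubring)
  let s : IsLocalRing.ResidueField (NormedField.valuation (K := F)).valuationSubring →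
      (NormedField.valuation (K := F)).valuationSubring :=
    Function.surjInv IsLocalRing.residue_surjective
  have hs : ∀ a, IsLocalRing.residue _ (s a) = a := fun a => Function.surjInv_eq _ a
  have hinj : Function.Injective fun a => (s a : F) := fun a b hab => by
    rw [← hs a, ← hs b, Subtype.ext hab]
  refine ⟨{ ϖ := ϖ, c := c + 1, R := Finset.univ.image fun a => (s a : F), χ₁ := χ₁, χ₂ := χ₂,
            ϖ_lt := hϖ, ϖ_max := hmax, c_pos := Nat.le_add_left 1 c,
            ch₁ := fun y hy => SA_ch_one χ₁ h₁ (hy.trans_lt hc2)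
              ((hy.trans hc1).trans_lt (hc.trans_le (min_le_left _ _))),
            ch₂ := fun y hy => SA_ch_one χ₂ h₂ (hy.trans_lt hc2)
              ((hy.trans hc1).trans_lt (hc.trans_le (min_le_right _ _))),
            R_le := ?_, R_rep := ?_ }, rfl, rfl, rfl, ?_⟩
  · intro r hr
    obtain ⟨a, -, rfl⟩ := Finset.mem_image.1 hr
    exact (SA_mem _).1 (s a).2
  · intro x hx
    let x' : (NormedField.valuation (K := F)).valuationSubring := ⟨x, (SA_mem _).2 hx⟩
    refine ⟨s (IsLocalRing.residue _ x'), ⟨Finset.mem_image.2 ⟨_, Finset.mem_univ _, rfl⟩, ?_⟩, ?_⟩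
    · exact hmax _ ((SA_res_eq x' _).1 (hs _).symm)
    · rintro r ⟨hr, hxr⟩
      obtain ⟨a, -, rfl⟩ := Finset.mem_image.1 hr
      have := (SA_res_eq x' (s a)).2 (hxr.trans_lt hϖ)
      rw [this, hs]
  · show (Finset.univ.image fun a => (s a : F)).card = _
    rw [Finset.card_image_of_injective _ hinj, Finset.card_univ, Nat.card_eq_fintype_card]

open Classical in
theorem SA_sum_ind {F E : Type*} [NormedField F] [IsUltrametricDist F] [Field E]
    (D : LD F E) (z : F) (b : E) :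
    ∑ r ∈ D.R, (if ‖z + r‖ ≤ ‖(D.ϖ : F)‖ then b else 0) = if ‖z‖ ≤ 1 then b else 0 := by
  by_cases hz : ‖z‖ ≤ 1
  · obtain ⟨r, ⟨hr, hzr⟩, huniq⟩ := D.R_rep (-z) (by simpa using hz)
    have e : ∀ w : F, ‖-z - w‖ = ‖z + w‖ := fun w => by
      rw [← norm_neg]
      congr 1
      ring
    rw [if_pos hz, Finset.sum_eq_single r]
    · rw [if_pos (e r ▸ hzr)]
    · intro w hw hne
      rw [if_neg]
      intro h
      exact hne (huniq w ⟨hw, by rw [e]; exact h⟩)
    · intro h
      exact absurd hr h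
  · rw [if_neg hz]
    refine Finset.sum_eq_zero fun r hr => if_neg fun h => hz ?_
    have e : z = (z + r) + -r := by ring
    rw [e]
    refine (IsUltrametricDist.norm_add_le_max _ _).trans (max_le (h.trans D.ϖ_lt.le) ?_)
    rw [norm_neg]
    exact D.R_le r hr

open Classical in
theorem no_decay_solution {F E : Type*} [NormedField F] [IsUltrametricDist F] [NormedField E]
    (D : LD F E) (α : E) (hα : α ≠ 0) (C : ℤ → F → E)
    (hinv : ∀ n x y, ‖y‖ ≤ 1 → C n (x + y) = C n x)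
    (heq : ∀ n x, ∑ r ∈ D.R, C (n + 1) (x + (D.ϖ : F) ^ n * r) - α * C n x =
      if n = 0 ∧ ‖x‖ ≤ 1 then 1 else 0)
    (hpos : ∀ x, Tendsto (fun n : ℕ => ((D.R.card : E) / α) ^ n * C n x) atTop (𝓝 0))
    (hneg : Tendsto (fun n : ℕ => α ^ n * C (-n) 0) atTop (𝓝 0)) : False := by
  have hϖ0 : (D.ϖ : F) ≠ 0 := D.ϖ.ne_zero
  have hup : ∀ (n : ℕ) (x : F), (D.R.card : E) * C (n + 1) x - α * C n x =
      if (n : ℤ) = 0 ∧ ‖x‖ ≤ 1 then 1 else 0 := by
    intro n x
    rw [← heq n x, Finset.sum_congr rfl fun r hr => hinv _ x _ ?_]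
    · simp
    · rw [zpow_natCast, norm_mul, norm_pow]
      exact mul_le_one₀ (pow_le_one₀ (norm_nonneg _) D.ϖ_lt.le) (norm_nonneg _) (D.R_le r hr)
  have hconst : ∀ (x : F) (n : ℕ), ((D.R.card : E) / α) ^ (n + 1) * C ((n + 1 : ℕ) : ℤ) x =
      (D.R.card : E) / α * C 1 x := by
    intro x n
    induction n with
    | zero => simp
    | succ n ih =>
      have h := hup (n + 1) x
      rw [if_neg (by rintro ⟨h, -⟩; omega)] at h
      rw [← ih, pow_succ, Nat.cast_succ (n + 1)]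
      have h' : (D.R.card : E) / α * C (((n + 1 : ℕ) : ℤ) + 1) x = C ((n + 1 : ℕ) : ℤ) x := by
        field_simp
        linear_combination h
      rw [mul_assoc, h']
  have hone : ∀ x, (D.R.card : E) * C 1 x = 0 := by
    intro x
    have h1 := (tendsto_add_atTop_iff_nat 1).2 (hpos x)
    simp only [hconst] at h1
    have h2 := tendsto_nhds_unique h1 tendsto_const_nhds
    field_simp at h2
    linear_combination -h2
  have hdown : ∀ (k : ℕ) (x : F), α ^ (k + 1) * C (-k) x =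
      if ‖(D.ϖ : F) ^ k * x‖ ≤ 1 then -1 else 0 := by
    intro k
    induction k with
    | zero =>
      intro x
      have h := hup 0 x
      simp only [Nat.cast_zero, zero_add, hone, true_and] at h
      simp only [Nat.cast_zero, neg_zero, zero_add, pow_one, pow_zero, one_mul]
      split_ifs at h ⊢
      · linear_combination -h
      · linear_combination -h
    | succ k ih =>
      intro x
      have h := heq (-((k + 1 : ℕ) : ℤ)) x
      rw [if_neg (by rintro ⟨h, -⟩; omega)] at h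
      have e1 : -((k + 1 : ℕ) : ℤ) + 1 = -(k : ℤ) := by push_cast; ring
      rw [e1] at h
      have e2 : ∀ r : F, ‖(D.ϖ : F) ^ k * (x + (D.ϖ : F) ^ (-((k + 1 : ℕ) : ℤ)) * r)‖ ≤ 1 ↔
          ‖(D.ϖ : F) ^ (k + 1) * x + r‖ ≤ ‖(D.ϖ : F)‖ := by
        intro r
        have e3 : (D.ϖ : F) ^ (k + 1) * x + r =
            D.ϖ * ((D.ϖ : F) ^ k * (x + (D.ϖ : F) ^ (-((k + 1 : ℕ) : ℤ)) * r)) := by
          rw [zpow_neg, zpow_natCast]
          field_simp
          ring
        rw [e3, norm_mul (D.ϖ : F)]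
        exact (mul_le_iff_le_one_right D.ϖ_pos).symm
      rw [← SA_sum_ind D ((D.ϖ : F) ^ (k + 1) * x) (-1 : E)]
      simp only [← e2, ← ih]
      rw [← Finset.mul_sum]
      linear_combination (-α ^ (k + 1)) * h
  have hc : ∀ n : ℕ, α ^ n * C (-n) 0 = -α⁻¹ := by
    intro n
    have h := hdown n 0
    rw [if_pos (by simp)] at h
    field_simp
    linear_combination h
  simp only [hc] at hneg
  have h2 := tendsto_nhds_unique hneg tendsto_const_nhds
  exact hα (by simpa using h2.symm)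

end Pool.Agent.MP_4d0c14_nt
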