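import Mathlib

/-! Abstract set-up: formal compact induction `G →₀ V`, relations, the Hecke operator. -/

namespace Pool.Agent.MP_4d0c14_nt

open scoped TensorProduct

section Alg

variable {G E J : Type*} [Group G] [Field E]

/-- The relations `[g h] v = lam h • [g] v` for `h ∈ H`. -/
noncomputable def relH (H : Subgroup G) (lam : G → E) (V : Type*) [AddCommGroup V] [Module E V] :
    Submodule E (G →₀ V) :=
  Submodule.span E {z | ∃ (g h : G) (v : V), h ∈ H ∧
    z = Finsupp.single (g * h) v - lam h • Finsupp.single g v}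

/-- The operator `[g] v ↦ ∑ j, [g γ j] v - α • [g] v`. -/
noncomputable def aop (S : Finset J) (γ : J → G) (α : E) (V : Type*) [AddCommGroup V]
    [Module E V] : (G →₀ V) →ₗ[E] (G →₀ V) :=
  Finsupp.lsum E fun g => (∑ j ∈ S, Finsupp.lsingle (g * γ j)) - α • Finsupp.lsingle g

@[simp] theorem aop_single (S : Finset J) (γ : J → G) (α : E) {V : Type*} [AddCommGroup V]
    [Module E V] (g : G) (v : V) : aop S γ α V (Finsupp.single g v) =
      ∑ j ∈ S, Finsupp.single (g * γ j) v - α • Finsupp.single g v := by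
  simp [aop, LinearMap.sum_apply]

open Classical in
/-- The function equal to `lam⁻¹` on `H` and to zero outside. -/
noncomputable def del (H : Subgroup G) (lam : G → E) (x : G) : E :=
  if x ∈ H then (lam x)⁻¹ else 0

/-- The map `[g] v ↦ v ⊗ g f₀`. -/
noncomputable def pv (V : Type*) [AddCommGroup V] [Module E V] {W : Type*} [AddCommGroup W]
    [Module E W] (π : Representation E G W) (f₀ : W) : (G →₀ V) →ₗ[E] V ⊗[E] W :=
  Finsupp.lsum E fun g => (TensorProduct.mk E V W).flip (π g f₀)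

@[simp] theorem pv_single {V : Type*} [AddCommGroup V] [Module E V] {W : Type*} [AddCommGroup W]
    [Module E W] (π : Representation E G W) (f₀ : W) (g : G) (v : V) :
    pv V π f₀ (Finsupp.single g v) = v ⊗ₜ π g f₀ := by
  simp [pv]

/-- The diagonal action on formal sums: `γ • [g] v = [γ g] (ρ γ v)`. -/
noncomputable def act {V : Type*} [AddCommGroup V] [Module E V] (ρ : Representation E G V)
    (γ : G) : (G →₀ V) →ₗ[E] (G →₀ V) :=
  Finsupp.lsum E fun g => (Finsupp.lsingle (γ * g)).comp (ρ γ)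

@[simp] theorem act_single {V : Type*} [AddCommGroup V] [Module E V] (ρ : Representation E G V)
    (γ g : G) (v : V) : act ρ γ (Finsupp.single g v) = Finsupp.single (γ * g) (ρ γ v) := by
  simp [act]

theorem act_apply {V : Type*} [AddCommGroup V] [Module E V] (ρ : Representation E G V)
    (γ : G) (z : G →₀ V) (x : G) : act ρ γ z x = ρ γ (z (γ⁻¹ * x)) := by
  classical
  induction z using Finsupp.induction_linear with
  | zero => simp
  | add a b ha hb => simp [ha, hb]
  | single g v =>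
    rw [act_single, Finsupp.single_apply, Finsupp.single_apply]
    by_cases h : γ * g = x
    · subst h; simp
    · have : g ≠ γ⁻¹ * x := fun h' => h (by rw [h']; simp)
      simp [h, this]

end Alg

section Normed

variable {G E ι : Type*} [Group G] [NormedField E] [Fintype ι]

/-- `z` has norm at most `r` in the compact induction. -/
def Small (ρ : Representation E G (ι → E)) (r : ℝ) (z : G →₀ (ι → E)) : Prop :=
  ∀ g, ‖ρ g⁻¹ (z g)‖ ≤ r

theorem Small.act {ρ : Representation E G (ι → E)} {r : ℝ} {z : G →₀ (ι → E)}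
    (h : Small ρ r z) (γ : G) : Small ρ r (act ρ γ z) := by
  intro g
  have := h (γ⁻¹ * g)
  rw [act_apply, ← Module.End.mul_apply, ← map_mul]
  simpa using this

end Normed

/-- The data of the abstract argument. -/
structure CoreData (G E ι J : Type*) [Group G] [NormedField E] [Fintype ι] where
  ρ : Representation E G (ι → E)
  H : Subgroup G
  lam : G → E
  S : Finset J
  γ : J → G
  δ : J → G
  α : E
  θ : G →* G
  β : (ι → E) →ₗ[E] (ι → E) →ₗ[E] E
  lam_one : lam 1 = 1
  lam_mul : ∀ h ∈ H, ∀ h' ∈ H, lam (h * h') = lam h * lam h'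
  iso : ∀ h ∈ H, ∀ v, ‖lam h • ρ h v‖ = ‖v‖
  hU : ∀ x, ∑ j ∈ S, del H lam (x * δ j) = ∑ j ∈ S, del H lam ((γ j)⁻¹ * x)
  θ_mem : ∀ h ∈ H, θ h ∈ H
  θ_lam : ∀ h ∈ H, lam (θ h) * lam h = 1
  θ_γ : ∀ j, θ (γ j) = δ j
  β_inv : ∀ g v w, β (ρ g v) (ρ (θ g) w) = β v w
  β_nd : ∀ w, (∀ v, β v w = 0) → w = 0

namespace CoreData

variable {G E ι J : Type*} [Group G] [NormedField E] [Fintype ι] (D : CoreData G E ι J)

/-- The generators `[1] v` are limits of elements of the image of the Hecke operator. -/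
def Dense : Prop :=
  ∀ (v : ι → E) (ε : ℝ), 0 < ε → ∃ z z' : G →₀ (ι → E), Small D.ρ ε z ∧
    Finsupp.single 1 v - z - aop D.S D.γ D.α (ι → E) z' ∈ relH D.H D.lam (ι → E)

/-- bounded functions -/
def Bdd (y : G → ι → E) : Prop := ∃ C : ℝ, ∀ x, ‖D.ρ x⁻¹ (y x)‖ ≤ C

/-- equivariant functions -/
def Eqv (y : G → ι → E) : Prop := ∀ x, ∀ h ∈ D.H, D.lam h • y (x * h) = y x

/-- functions tending to zero at infinity -/
def Dec (y : G → ι → E) : Prop :=
  ∀ ε : ℝ, 0 < ε → ∃ T : Finset G, ∀ x, (∀ s ∈ T, s⁻¹ * x ∉ D.H) → ‖D.ρ x⁻¹ (y x)‖ ≤ ε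

end CoreData

end Pool.Agent.MP_4d0c14_nt
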