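import Pool.Agent.MP_4d0c14_nt.Mat

/-! Explicit matrices of the algebraic representations. -/

namespace Pool.Agent.MP_4d0c14_nt

open Polynomial in
/-- The matrix of `Sym^d g` in the basis `X₀^j X₁^(d-j)`, computed after setting `X₁ = 1`. -/
noncomputable def sM {E : Type*} [Field E] (d : ℕ) (g : Matrix (Fin 2) (Fin 2) E) :
    Matrix (Fin (d + 1)) (Fin (d + 1)) E :=
  Matrix.of fun i j => ((C (g 0 0) * X + C (g 1 0)) ^ (j : ℕ) *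
    (C (g 0 1) * X + C (g 1 1)) ^ (d - j)).coeff i

/-- The matrix of the tensor product representation. -/
noncomputable def aM {ι F E : Type*} [Fintype ι] [Field F] [Field E] (κ : ι → F →+* E)
    (d : ι → ℕ) (m : ι → ℤ) (g : GL (Fin 2) F) :
    Matrix (∀ s, Fin (d s + 1)) (∀ s, Fin (d s + 1)) E :=
  Matrix.of fun i j => ∏ s, (κ s (dt g)) ^ (m s) *
    sM (d s) ((g : Matrix (Fin 2) (Fin 2) F).map (κ s)) (i s) (j s)

/-- The properties of the algebraic representation used in the proof. -/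
structure AlgOK {ι F E : Type*} [Fintype ι] [NormedField F] [NormedField E]
    (ρ : Representation E (GL (Fin 2) F) (ι → E)) (nd : ℕ) (nm : ℤ) : Prop where
  int : ∀ k, IsInt k → ∀ v, ‖ρ k v‖ ≤ ‖v‖
  cen : ∀ (z : Fˣ) v, ‖ρ (dg z z) v‖ = ‖(z : F)‖ ^ ((nd : ℤ) + 2 * nm) * ‖v‖
  high : ∃ v, v ≠ 0 ∧ (∀ x, ρ (uu x) v = v) ∧
    ∀ a : Fˣ, ‖ρ (dg a 1) v‖ = ‖(a : F)‖ ^ (nm + nd) * ‖v‖
  low : ∃ v, v ≠ 0 ∧ ∀ a : Fˣ, ‖ρ (dg a 1) v‖ = ‖(a : F)‖ ^ nm * ‖v‖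
  burn : ∀ r : ℝ, 0 < r → Submodule.span E {f | ∃ k, Near r k ∧ f = ρ k} = ⊤
  form : ∃ β : (ι → E) →ₗ[E] (ι → E) →ₗ[E] E, (∀ w, (∀ v, β v w = 0) → w = 0) ∧
    ∀ g v w, β (ρ g v) w = β v (ρ (tr g) w)

end Pool.Agent.MP_4d0c14_nt
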