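import Pool.Agent.MP_4d0c14_nt.Stmt

/-! Unbundled versions of the representations, used in the proof. -/

namespace Pool.Agent.MP_4d0c14_nt

open scoped TensorProduct
open MvPolynomial

/-- `(Sym^d ⊗ det^m) ∘ κ`: the group `GL(2, F)` acts on binary forms of degree `d` over `E` by
`g • P = κ(det g)^m * P(substituted by κ(g))`. -/
noncomputable def symRep {F E : Type*} [Field F] [Field E] (κ : F →+* E) (d : ℕ) (m : ℤ) :
    Representation E (GL (Fin 2) F) (homogeneousSubmodule (Fin 2) E d) where
  toFun g := (κ (g : Matrix (Fin 2) (Fin 2) F).det) ^ m •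
    (subst ((g : Matrix (Fin 2) (Fin 2) F).map κ)).toLinearMap.restrict (subst_mem _ d)
  map_one' := by
    ext P : 2
    simp [subst_one]
  map_mul' g h := by
    ext P : 2
    simp [Matrix.map_mul, subst_mul, mul_zpow, smul_smul, mul_comm]

/-- The algebraic representation `⊗_κ (Sym^(d κ) ⊗ det^(m κ)) ∘ κ` of `GL(2, F)` over `E`, the
tensor product running over all `K`-embeddings `κ : F → E`. -/
noncomputable def algRep {K F E : Type*} [Field K] [Field F] [Field E] [Algebra K F] [Algebra K E]
    (d : (F →ₐ[K] E) → ℕ) (m : (F →ₐ[K] E) → ℤ) :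
    Representation E (GL (Fin 2) F)
      (⨂[E] κ : F →ₐ[K] E, homogeneousSubmodule (Fin 2) E (d κ)) where
  toFun g := PiTensorProduct.map fun κ : F →ₐ[K] E => symRep (κ : F →+* E) (d κ) (m κ) g
  map_one' := by
    simp only [map_one]
    exact PiTensorProduct.map_one
  map_mul' g h := by
    simp only [map_mul]
    exact PiTensorProduct.map_mul _ _

/-- The smooth principal series `Ind_B^G (χ₁ ⊗ χ₂)`, with `GL(2, F)` acting by right
translation. -/
def psRep {F E : Type*} [NormedField F] [Field E] (χ₁ χ₂ : Fˣ →* Eˣ) :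
    Representation E (GL (Fin 2) F) (psSpace χ₁ χ₂) where
  toFun γ :=
    { toFun := fun f => ⟨fun x => f.1 (x * γ), translate_mem γ f.2⟩
      map_add' := fun _ _ => rfl
      map_smul' := fun _ _ => rfl }
  map_one' := by
    ext f x
    simp
  map_mul' g h := by
    ext f x
    simp [mul_assoc]

end Pool.Agent.MP_4d0c14_nt
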