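import Pool.Agent.MP_4d0c14_nt.Main

/-! The theorem for the unbundled representations. -/

namespace Pool.Agent.MP_4d0c14_nt

open scoped TensorProduct

theorem final_unbundled (p : ℕ) [Fact p.Prime] (F E : Type)
    [NontriviallyNormedField F] [IsUltrametricDist F] [NormedAlgebra ℚ_[p] F]
    [FiniteDimensional ℚ_[p] F]
    [NontriviallyNormedField E] [NormedAlgebra ℚ_[p] E] [CompleteSpace E]
    (d : (F →ₐ[ℚ_[p]] E) → ℕ) (m : (F →ₐ[ℚ_[p]] E) → ℤ)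
    (χ₁ χ₂ : Fˣ →* Eˣ) (h₁ : IsSmoothChar χ₁) (h₂ : IsSmoothChar χ₂)
    (ϖ : Fˣ) (hϖ : ‖(ϖ : F)‖ < 1) (hmax : ∀ x : F, ‖x‖ < 1 → ‖x‖ ≤ ‖(ϖ : F)‖)
    (hcent : ‖((χ₁ ϖ : Eˣ) : E)‖ * ‖((χ₂ ϖ : Eˣ) : E)‖ *
      ‖(ϖ : F)‖ ^ (∑ κ, ((d κ : ℤ) + 2 * m κ)) = 1)
    (hα : 1 ≤ ‖((χ₁ ϖ : Eˣ) : E)‖ * ‖(ϖ : F)‖ ^ (∑ κ, m κ))
    (hβ : ‖(Nat.card (IsLocalRing.ResidueField
        (NormedField.valuation (K := F)).valuationSubring) : E)‖ ≤
      ‖((χ₂ ϖ : Eˣ) : E)‖ * ‖(ϖ : F)‖ ^ (∑ κ, m κ))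
    (hirr : (psRep χ₁ χ₂).IsIrreducible) :
    ∃ N : (⨂[E] κ : F →ₐ[ℚ_[p]] E,
        MvPolynomial.homogeneousSubmodule (Fin 2) E (d κ)) ⊗[E] psSpace χ₁ χ₂ → ℝ,
      (∀ x, 0 ≤ N x) ∧ (∀ x, N x = 0 → x = 0) ∧ (∀ (c : E) x, N (c • x) = ‖c‖ * N x) ∧
      (∀ x y, N (x + y) ≤ max (N x) (N y)) ∧
      ∀ g x, N ((algRep d m).tprod (psRep χ₁ χ₂) g x) = N x := by
  classical
  have : IsUltrametricDist E := IsUltrametricDist.of_normedAlgebra ℚ_[p]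
  have : ProperSpace F := FiniteDimensional.proper ℚ_[p] F
  have : CharZero E := charZero_of_injective_algebraMap (algebraMap ℚ_[p] E).injective
  have : CharZero F := charZero_of_injective_algebraMap (algebraMap ℚ_[p] F).injective
  obtain ⟨D, rfl, rfl, rfl, hR⟩ := exists_LD χ₁ χ₂ h₁ h₂ ϖ hϖ hmax
  obtain ⟨e, he⟩ := exists_alg_equiv d m
  let ρ : Representation E (GL (Fin 2) F) ((∀ κ : F →ₐ[ℚ_[p]] E, Fin (d κ + 1)) → E) :=
    e.conjRingEquiv.toMonoidHom.comp (algRep d m)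
  have hρe : ∀ g v, ρ g (e v) = e (algRep d m g v) := by
    intro g v
    simp [ρ]
  have hρ : ∀ g v, ρ g v = (aM (fun κ : F →ₐ[ℚ_[p]] E => (κ : F →+* E)) d m g).mulVec v := by
    intro g v
    obtain ⟨w, rfl⟩ := e.surjective v
    rw [hρe, he]
  have hp : ‖(p : F)‖ < 1 := by
    have : (p : F) = algebraMap ℚ_[p] F p := by simp
    rw [this, norm_algebraMap']
    exact Padic.norm_p_lt_one
  have hok := algOK_of_matrix (fun κ : F →ₐ[ℚ_[p]] E => (κ : F →+* E))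
    AlgHom.coe_ringHom_injective (fun κ x => norm_emb p κ x) p
    (Nat.cast_ne_zero.2 (Fact.out : p.Prime).ne_zero) hp d m ρ hρ
  obtain ⟨N, hN0, hNu, hNi⟩ := main_coord D ρ hok (norm_char_unit _ h₁) (norm_char_unit _ h₂)
    (by
      rw [← hcent, Finset.sum_add_distrib, ← Finset.mul_sum]
      push_cast
      rfl) hα (hR ▸ hβ) hirr
  refine ⟨fun x => N (e.rTensor (psSpace D.χ₁ D.χ₂) x), fun x => apply_nonneg N _,
    fun x hx => ?_, fun c x => ?_, fun x y => ?_, fun g x => ?_⟩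
  · exact (e.rTensor (psSpace D.χ₁ D.χ₂)).map_eq_zero_iff.1 (hN0 _ hx)
  · simp only [map_smul, map_smul_eq_mul]
  · simp only [map_add]
    exact hNu _ _
  · simp only
    rw [← hNi g (e.rTensor (psSpace D.χ₁ D.χ₂) x)]
    congr 1
    induction x using TensorProduct.induction_on with
    | zero => simp
    | tmul a b => simp [hρe]
    | add a b ha hb => simp only [map_add, ha, hb]

end Pool.Agent.MP_4d0c14_nt
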