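import Pool.Agent.MP_4d0c14_nt.Final

/-!
Breuil-Schneider conjecture for `GL(2, F)`, `F / ℚ_p` finite: every irreducible locally algebraic
principal series satisfying the Emerton condition has an invariant norm.
-/

namespace Pool.Agent.MP_4d0c14_nt.GL2Variant

open Pool.Agent.MP_4d0c14_nt

theorem result (p : ℕ) [Fact p.Prime] (F E : Type)
    [NontriviallyNormedField F] [IsUltrametricDist F] [NormedAlgebra ℚ_[p] F]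
    [FiniteDimensional ℚ_[p] F]
    [NontriviallyNormedField E] [NormedAlgebra ℚ_[p] E] [CompleteSpace E]
    (d : (F →ₐ[ℚ_[p]] E) → ℕ) (m : (F →ₐ[ℚ_[p]] E) → ℤ)
    (χ₁ χ₂ : Fˣ →* Eˣ) (h₁ : IsSmoothChar χ₁) (h₂ : IsSmoothChar χ₂)
    (ϖ : Fˣ) (hϖ : ‖(ϖ : F)‖ < 1) (hmax : ∀ x : F, ‖x‖ < 1 → ‖x‖ ≤ ‖(ϖ : F)‖)
    (hcent : ‖((χ₁ ϖ : Eˣ) : E)‖ * ‖((χ₂ ϖ : Eˣ) : E)‖ *
      ‖(ϖ : F)‖ ^ (∑ κ, ((d κ : ℤ) + 2 * m κ)) = 1)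
    (hα : 1 ≤ ‖((χ₁ ϖ : Eˣ) : E)‖ * ‖(ϖ : F)‖ ^ (∑ κ, m κ))
    (hβ : ‖(Nat.card (IsLocalRing.ResidueField
        (NormedField.valuation (K := F)).valuationSubring) : E)‖ ≤
      ‖((χ₂ ϖ : Eˣ) : E)‖ * ‖(ϖ : F)‖ ^ (∑ κ, m κ))
    (hirr : (principalSeries χ₁ χ₂).ρ.IsIrreducible) :
    HasInvariantNorm (algebraicRep d m) (principalSeries χ₁ χ₂) :=
  final_unbundled p F E d m χ₁ χ₂ h₁ h₂ ϖ hϖ hmax hcent hα hβ hirr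

end Pool.Agent.MP_4d0c14_nt.GL2Variant
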