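import Pool.Agent.MP_4d0c14_nt.Mat
import Pool.Agent.MP_4d0c14_nt.Abs

/-! The local data: uniformiser, level, residue representatives, the group `H = K_0(ϖ^c) Z`. -/

namespace Pool.Agent.MP_4d0c14_nt

open Classical in
/-- Extension by zero of a character of `Fˣ`. -/
noncomputable def ch {F E : Type*} [Field F] [Field E] (χ : Fˣ →* Eˣ) (x : F) : E :=
  if h : x = 0 then 0 else (χ (Units.mk0 x h) : E)

section ch

variable {F E : Type*} [Field F] [Field E] (χ : Fˣ →* Eˣ)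

@[simp] theorem ch_units (a : Fˣ) : ch χ (a : F) = χ a := by
  simp [ch]

@[simp] theorem ch_zero : ch χ (0 : F) = 0 := by simp [ch]

@[simp] theorem ch_one : ch χ (1 : F) = 1 := by simpa using ch_units χ 1

theorem ch_mul (x y : F) : ch χ (x * y) = ch χ x * ch χ y := by
  by_cases hx : x = 0
  · simp [hx]
  by_cases hy : y = 0
  · simp [hy]
  have := ch_units χ (Units.mk0 x hx * Units.mk0 y hy)
  rw [map_mul, Units.val_mul, Units.val_mul, ← ch_units, ← ch_units] at this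
  simpa using this

theorem ch_ne_zero {x : F} (hx : x ≠ 0) : ch χ x ≠ 0 := by
  simp [ch, hx]

theorem ch_inv (x : F) : ch χ x⁻¹ = (ch χ x)⁻¹ := by
  by_cases hx : x = 0
  · simp [hx]
  apply eq_inv_of_mul_eq_one_left
  rw [← ch_mul, inv_mul_cancel₀ hx, ch_one]

theorem ch_div (x y : F) : ch χ (x / y) = ch χ x / ch χ y := by
  rw [div_eq_mul_inv, ch_mul, ch_inv, div_eq_mul_inv]

end ch

/-- Local data. -/
structure LD (F E : Type*) [NormedField F] [Field E] where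
  ϖ : Fˣ
  c : ℕ
  R : Finset F
  χ₁ : Fˣ →* Eˣ
  χ₂ : Fˣ →* Eˣ
  ϖ_lt : ‖(ϖ : F)‖ < 1
  ϖ_max : ∀ x : F, ‖x‖ < 1 → ‖x‖ ≤ ‖(ϖ : F)‖
  c_pos : 1 ≤ c
  ch₁ : ∀ y : F, ‖y‖ ≤ ‖(ϖ : F)‖ ^ c → ch χ₁ (1 + y) = 1
  ch₂ : ∀ y : F, ‖y‖ ≤ ‖(ϖ : F)‖ ^ c → ch χ₂ (1 + y) = 1
  R_le : ∀ r ∈ R, ‖r‖ ≤ 1
  R_rep : ∀ x : F, ‖x‖ ≤ 1 → ∃! r, r ∈ R ∧ ‖x - r‖ ≤ ‖(ϖ : F)‖

namespace LD

variable {F E : Type*} [NormedField F] [IsUltrametricDist F] [Field E] (D : LD F E)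

omit [IsUltrametricDist F] in
theorem ϖ_pos : 0 < ‖(D.ϖ : F)‖ := norm_pos_iff.2 D.ϖ.ne_zero

omit [IsUltrametricDist F] in
theorem ϖc_lt : ‖(D.ϖ : F)‖ ^ D.c < 1 :=
  pow_lt_one₀ (norm_nonneg _) D.ϖ_lt (by have := D.c_pos; omega)

omit [IsUltrametricDist F] in
theorem ϖc_pos : 0 < ‖(D.ϖ : F)‖ ^ D.c := pow_pos D.ϖ_pos _

/-- Membership in `K_0(ϖ^c) Z`. -/
def InH (h : GL (Fin 2) F) : Prop :=
  ‖eb h‖ ≤ ‖ea h‖ ∧ ‖ec h‖ ≤ ‖(D.ϖ : F)‖ ^ D.c * ‖ea h‖ ∧ ‖dt h‖ = ‖ea h‖ ^ 2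

omit [IsUltrametricDist F] in
theorem InH.ea_pos {D : LD F E} {h : GL (Fin 2) F} (hh : D.InH h) : 0 < ‖ea h‖ := by
  have h1 : 0 < ‖dt h‖ := norm_pos_iff.2 (dt_ne_zero h)
  rw [hh.2.2] at h1
  rcases (norm_nonneg (ea h)).eq_or_lt with h0 | h0
  · rw [← h0] at h1; simp at h1
  · exact h0

omit [IsUltrametricDist F] in
theorem InH.bc_le {D : LD F E} {h : GL (Fin 2) F} (hh : D.InH h) :
    ‖eb h * ec h‖ ≤ ‖(D.ϖ : F)‖ ^ D.c * ‖ea h‖ ^ 2 := by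
  rw [norm_mul]
  calc ‖eb h‖ * ‖ec h‖ ≤ ‖ea h‖ * (‖(D.ϖ : F)‖ ^ D.c * ‖ea h‖) :=
        mul_le_mul hh.1 hh.2.1 (norm_nonneg _) (norm_nonneg _)
    _ = _ := by ring

theorem InH.norm_ed {D : LD F E} {h : GL (Fin 2) F} (hh : D.InH h) : ‖ed h‖ = ‖ea h‖ := by
  have ha := hh.ea_pos
  have h1 : ‖eb h * ec h‖ < ‖dt h‖ := by
    rw [hh.2.2]
    refine hh.bc_le.trans_lt ?_
    have := D.ϖc_lt
    have h2 : 0 < ‖ea h‖ ^ 2 := by positivity
    nlinarith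
  have h2 : ea h * ed h = dt h + eb h * ec h := by simp [dt]
  have h3 : ‖ea h * ed h‖ = ‖dt h‖ := by
    rw [h2, IsUltrametricDist.norm_add_eq_max_of_norm_ne_norm h1.ne', max_eq_left h1.le]
  rw [norm_mul, hh.2.2, sq] at h3
  exact mul_left_cancel₀ ha.ne' h3

theorem InH.norm_ea_mul {D : LD F E} {h k : GL (Fin 2) F} (hh : D.InH h) (hk : D.InH k) :
    ‖ea (h * k)‖ = ‖ea h‖ * ‖ea k‖ := by
  have ha := hh.ea_pos
  have hb := hk.ea_pos
  have h1 : ‖eb h * ec k‖ < ‖ea h * ea k‖ := by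
    rw [norm_mul, norm_mul]
    calc ‖eb h‖ * ‖ec k‖ ≤ ‖ea h‖ * (‖(D.ϖ : F)‖ ^ D.c * ‖ea k‖) :=
          mul_le_mul hh.1 hk.2.1 (norm_nonneg _) (norm_nonneg _)
      _ < ‖ea h‖ * (1 * ‖ea k‖) := by
          have := D.ϖc_lt
          gcongr
      _ = _ := by ring
  rw [ea_mul, IsUltrametricDist.norm_add_eq_max_of_norm_ne_norm h1.ne', max_eq_left h1.le,
    norm_mul]

/-- The group `H = K_0(ϖ^c) Z`. -/
def H : Subgroup (GL (Fin 2) F) where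
  carrier := {h | D.InH h}
  one_mem' := by
    have := D.ϖc_pos
    simp [InH, this.le]
  mul_mem' := by
    intro h k hh hk
    have hh : D.InH h := hh
    have hk : D.InH k := hk
    have e := hh.norm_ea_mul hk
    refine ⟨?_, ?_, ?_⟩
    · rw [e, eb_mul]
      refine (IsUltrametricDist.norm_add_le_max _ _).trans (max_le ?_ ?_)
      · rw [norm_mul]; exact mul_le_mul_of_nonneg_left hk.1 (norm_nonneg _)
      · rw [norm_mul, hk.norm_ed]; exact mul_le_mul_of_nonneg_right hh.1 (norm_nonneg _)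
    · rw [e, ec_mul]
      refine (IsUltrametricDist.norm_add_le_max _ _).trans (max_le ?_ ?_)
      · rw [norm_mul, ← mul_assoc]; exact mul_le_mul_of_nonneg_right hh.2.1 (norm_nonneg _)
      · rw [norm_mul, hh.norm_ed, mul_left_comm]
        exact mul_le_mul_of_nonneg_left hk.2.1 (norm_nonneg _)
    · rw [e, dt_mul, norm_mul, hh.2.2, hk.2.2, mul_pow]
  inv_mem' := by
    intro h hh
    have hh : D.InH h := hh
    have ha := hh.ea_pos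
    refine ⟨?_, ?_, ?_⟩
    · simp only [eb_inv, ea_inv, norm_div, norm_neg, hh.norm_ed]
      exact div_le_div_of_nonneg_right hh.1 (norm_nonneg _)
    · simp only [ec_inv, ea_inv, norm_div, norm_neg, hh.norm_ed, ← mul_div_assoc]
      exact div_le_div_of_nonneg_right hh.2.1 (norm_nonneg _)
    · simp only [dt_inv, ea_inv, norm_div, norm_inv, hh.norm_ed, hh.2.2]
      field_simp

theorem mem_H {h : GL (Fin 2) F} : h ∈ D.H ↔ D.InH h := Iff.rfl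

/-- The character of `H`. -/
noncomputable def lam (h : GL (Fin 2) F) : E := ch D.χ₁ (ea h) * ch D.χ₂ (dt h / ea h)

open Classical in
/-- The generating vector of the principal series. -/
noncomputable def f0 (g : GL (Fin 2) F) : E :=
  if ‖ec g‖ ≤ ‖(D.ϖ : F)‖ ^ D.c * ‖ed g‖ then ch D.χ₁ (dt g / ed g) * ch D.χ₂ (ed g) else 0

/-- `t = diag(ϖ, 1)`. -/
noncomputable def t : GL (Fin 2) F := dg D.ϖ 1

/-- `γ r = u⁻(ϖ^c r) t⁻¹`. -/
noncomputable def gam (r : F) : GL (Fin 2) F := ll ((D.ϖ : F) ^ D.c * r) * D.t⁻¹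

/-- `δ r = u(r) t`. -/
noncomputable def dlt (r : F) : GL (Fin 2) F := uu r * D.t

/-- The eigenvalue. -/
noncomputable def alpha : E := ((D.χ₁ D.ϖ : Eˣ) : E)⁻¹

/-- `s = diag(-ϖ^c, 1)`. -/
noncomputable def sθ : GL (Fin 2) F := dg (-D.ϖ ^ D.c) 1

/-- The involution `g ↦ s⁻¹ (gᵀ)⁻¹ s`. -/
noncomputable def theta : GL (Fin 2) F →* GL (Fin 2) F where
  toFun g := D.sθ⁻¹ * (tr g)⁻¹ * D.sθ
  map_one' := by simp [tr_one]
  map_mul' g h := by simp [tr_mul, mul_assoc]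

omit [IsUltrametricDist F] in
theorem theta_apply (g : GL (Fin 2) F) : D.theta g = D.sθ⁻¹ * (tr g)⁻¹ * D.sθ := rfl

end LD

end Pool.Agent.MP_4d0c14_nt
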