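import Pool.Agent.MP_4d0c14_nt.Alg

/-! Coordinates on the algebraic representation. -/

namespace Pool.Agent.MP_4d0c14_nt

open scoped TensorProduct
open MvPolynomial

/-- Dehomogenisation `X₁ = 1`. -/
noncomputable def SB2_ev (E : Type*) [Field E] : MvPolynomial (Fin 2) E →ₐ[E] Polynomial E :=
  aeval ![Polynomial.X, 1]

/-- The monomials of degree `d`. -/
noncomputable def SB2_v (E : Type*) [Field E] (d : ℕ) (j : Fin (d + 1)) :
    homogeneousSubmodule (Fin 2) E d :=
  ⟨X 0 ^ (j : ℕ) * X 1 ^ (d - j), by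
    rw [mem_homogeneousSubmodule]
    have h := (isHomogeneous_X_pow (R := E) (0 : Fin 2) (j : ℕ)).mul
      (isHomogeneous_X_pow (R := E) (1 : Fin 2) (d - j))
    rwa [show (j : ℕ) + (d - j) = d by have := j.2; omega] at h⟩

/-- The coefficients after dehomogenisation. -/
noncomputable def SB2_phi (E : Type*) [Field E] (d : ℕ) :
    homogeneousSubmodule (Fin 2) E d →ₗ[E] Fin (d + 1) → E :=
  LinearMap.pi fun i => (Polynomial.lcoeff E (i : ℕ)) ∘ₗ (SB2_ev E).toLinearMap ∘ₗ
    (homogeneousSubmodule (Fin 2) E d).subtype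

theorem SB2_phi_apply {E : Type*} [Field E] (d : ℕ) (P : homogeneousSubmodule (Fin 2) E d)
    (i : Fin (d + 1)) : SB2_phi E d P i = (SB2_ev E P.1).coeff i := rfl

theorem SB2_phi_v {E : Type*} [Field E] (d : ℕ) (j : Fin (d + 1)) :
    SB2_phi E d (SB2_v E d j) = Pi.single j 1 := by
  funext i
  rw [SB2_phi_apply]
  simp only [SB2_v, SB2_ev, map_mul, map_pow, aeval_X, Matrix.cons_val_zero, Matrix.cons_val_one,
    one_pow, mul_one, Polynomial.coeff_X_pow, Pi.single_apply, Fin.ext_iff]

theorem SB2_li (E : Type*) [Field E] (d : ℕ) : LinearIndependent E (SB2_v E d) := by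
  refine LinearIndependent.of_comp (SB2_phi E d) ?_
  have : SB2_phi E d ∘ SB2_v E d = Pi.basisFun E (Fin (d + 1)) := by
    funext j
    rw [Function.comp_apply, SB2_phi_v, Pi.basisFun_apply]
  rw [this]
  exact (Pi.basisFun E (Fin (d + 1))).linearIndependent

theorem SB2_span (E : Type*) [Field E] (d : ℕ) :
    ⊤ ≤ Submodule.span E (Set.range (SB2_v E d)) := by
  rintro ⟨P, hP⟩ -
  have key : P ∈ (Submodule.span E (Set.range (SB2_v E d))).map
      (homogeneousSubmodule (Fin 2) E d).subtype := by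
    rw [P.as_sum]
    refine Submodule.sum_mem _ fun s hs => ?_
    have h1 : s 0 + s 1 = d := by
      have h2 := (mem_homogeneousSubmodule d P).1 hP (mem_support_iff.1 hs)
      rw [Finsupp.weight_apply, Finsupp.sum_fintype _ _ (by simp), Fin.sum_univ_two] at h2
      simpa using h2
    refine ⟨coeff s P • SB2_v E d ⟨s 0, by omega⟩,
      Submodule.smul_mem _ _ (Submodule.subset_span ⟨_, rfl⟩), ?_⟩
    simp only [map_smul, Submodule.subtype_apply, SB2_v]
    rw [monomial_eq, Finsupp.prod_fintype _ _ (by simp), Fin.prod_univ_two, smul_eq_C_mul,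
      show d - s 0 = s 1 by omega]
  obtain ⟨Q, hQ, rfl⟩ := key
  exact hQ

theorem exists_sym_basis {E : Type*} [Field E] (d : ℕ) :
    ∃ b : Module.Basis (Fin (d + 1)) E (homogeneousSubmodule (Fin 2) E d),
      ∀ (g : Matrix (Fin 2) (Fin 2) E) (i j : Fin (d + 1)),
        b.repr ((subst g).toLinearMap.restrict (subst_mem g d) (b j)) i = sM d g i j := by
  refine ⟨Module.Basis.mk (SB2_li E d) (SB2_span E d), fun g i j => ?_⟩
  have h : ∀ P, (Module.Basis.mk (SB2_li E d) (SB2_span E d)).repr P i = SB2_phi E d P i := by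
    intro P
    have h1 : ((Module.Basis.mk (SB2_li E d) (SB2_span E d)).equivFun :
        homogeneousSubmodule (Fin 2) E d →ₗ[E] Fin (d + 1) → E) = SB2_phi E d := by
      refine (Module.Basis.mk (SB2_li E d) (SB2_span E d)).ext fun k => ?_
      funext l
      rw [LinearEquiv.coe_coe, Module.Basis.equivFun_self, Module.Basis.mk_apply, SB2_phi_v,
        Pi.single_apply]
      simp only [eq_comm]
    rw [← h1]
    rfl
  rw [h, SB2_phi_apply, Module.Basis.mk_apply]
  simp [SB2_v, SB2_ev, subst, sM, Fin.sum_univ_two]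

theorem exists_alg_equiv {K F E : Type*} [Field K] [Field F] [Field E] [Algebra K F] [Algebra K E]
    [Fintype (F →ₐ[K] E)] [DecidableEq (F →ₐ[K] E)]
    (d : (F →ₐ[K] E) → ℕ) (m : (F →ₐ[K] E) → ℤ) :
    ∃ e : (⨂[E] κ : F →ₐ[K] E, homogeneousSubmodule (Fin 2) E (d κ)) ≃ₗ[E]
        ((∀ κ : F →ₐ[K] E, Fin (d κ + 1)) → E),
      ∀ g v, e (algRep d m g v) =
        (aM (fun κ : F →ₐ[K] E => (κ : F →+* E)) d m g).mulVec (e v) := by
  choose b hb using fun κ : F →ₐ[K] E => exists_sym_basis (E := E) (d κ)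
  refine ⟨(Basis.piTensorProduct b).equivFun, fun g v => ?_⟩
  have h : ((Basis.piTensorProduct b).equivFun : _ →ₗ[E] _) ∘ₗ algRep d m g =
      (aM (fun κ : F →ₐ[K] E => (κ : F →+* E)) d m g).mulVecLin ∘ₗ
        ((Basis.piTensorProduct b).equivFun : _ →ₗ[E] _) := by
    refine (Basis.piTensorProduct b).ext fun j => ?_
    funext i
    have h1 : (Basis.piTensorProduct b).equivFun (Basis.piTensorProduct b j) =
        Pi.single j 1 := by
      funext l
      rw [Module.Basis.equivFun_self, Pi.single_apply]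
      simp only [eq_comm]
    simp only [LinearMap.comp_apply, LinearEquiv.coe_coe, Matrix.mulVecLin_apply, h1,
      Matrix.mulVec_single_one, Matrix.col_apply]
    rw [Module.Basis.equivFun_apply, Basis.piTensorProduct_apply]
    have h2 : algRep d m g (PiTensorProduct.tprod E fun κ => b κ (j κ)) =
        PiTensorProduct.tprod E fun κ : F →ₐ[K] E =>
          symRep (κ : F →+* E) (d κ) (m κ) g (b κ (j κ)) :=
      PiTensorProduct.map_tprod _ _
    rw [h2, Basis.piTensorProduct_repr_tprod_apply, aM, Matrix.of_apply]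
    refine Finset.prod_congr rfl fun κ _ => ?_
    rw [← hb κ, dt_eq_det]
    simp [symRep]
  exact LinearMap.congr_fun h v

end Pool.Agent.MP_4d0c14_nt
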