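import Pool.Agent.MP_4d0c14_nt.SB3

/-! The algebraic representation in coordinates has all the properties needed. -/

namespace Pool.Agent.MP_4d0c14_nt

theorem SB4_map {F E : Type*} [Field F] [Field E] (κ : F →+* E) (g : GL (Fin 2) F) :
    (g : Matrix (Fin 2) (Fin 2) F).map κ = !![κ (ea g), κ (eb g); κ (ec g), κ (ed g)] := by
  ext i j; fin_cases i <;> fin_cases j <;> rfl

theorem SB4_map_tr {F E : Type*} [Field F] [Field E] (κ : F →+* E) (g : GL (Fin 2) F) :
    ((tr g : GL (Fin 2) F) : Matrix (Fin 2) (Fin 2) F).map κ =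
      ((g : Matrix (Fin 2) (Fin 2) F).map κ).transpose := by
  ext i j; fin_cases i <;> fin_cases j <;> rfl

theorem SB4_prod_ite {ι E : Type*} [Fintype ι] [DecidableEq ι] [Field E] {d : ι → ℕ}
    (c f : ι → E) (i j : ∀ s, Fin (d s + 1)) :
    ∏ s, c s * (if i s = j s then f s else 0) = if i = j then ∏ s, c s * f s else 0 := by
  split_ifs with h
  · subst h
    simp
  · obtain ⟨s, hs⟩ := Function.ne_iff.1 h
    exact Finset.prod_eq_zero (Finset.mem_univ s) (by rw [if_neg hs, mul_zero])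

theorem SB4_zpow {ι : Type*} {x : ℝ} (hx : x ≠ 0) (t : Finset ι) (m : ι → ℤ) :
    ∏ s ∈ t, x ^ m s = x ^ ∑ s ∈ t, m s := by
  classical
  induction t using Finset.induction_on with
  | empty => simp
  | insert a t ha ih => rw [Finset.prod_insert ha, Finset.sum_insert ha, ih, zpow_add₀ hx]

theorem SB4_diag {ι F E : Type*} [Fintype ι] [DecidableEq ι] [Field F] [Field E]
    (κ : ι → F →+* E) (d : ι → ℕ) (m : ι → ℤ) (a b : Fˣ) (v : (∀ s, Fin (d s + 1)) → E)
    (i : ∀ s, Fin (d s + 1)) : (aM κ d m (dg a b)).mulVec v i =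
      (∏ s, κ s (a * b) ^ m s * (κ s a ^ (i s : ℕ) * κ s b ^ (d s - i s))) * v i := by
  have h : ∀ j, aM κ d m (dg a b) i j = if i = j then
      ∏ s, κ s (a * b) ^ m s * (κ s a ^ (j s : ℕ) * κ s b ^ (d s - j s)) else 0 := by
    intro j
    rw [← SB4_prod_ite]
    simp only [aM, Matrix.of_apply, SB4_map, ea_dg, eb_dg, ec_dg, ed_dg, dt_dg, map_zero, sM_diag]
  simp only [Matrix.mulVec, dotProduct, h, ite_mul, zero_mul]
  rw [Finset.sum_ite_eq, if_pos (Finset.mem_univ _)]

theorem SB4_diag_single {ι F E : Type*} [Fintype ι] [DecidableEq ι] [Field F] [Field E]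
    (κ : ι → F →+* E) (d : ι → ℕ) (m : ι → ℤ) (a b : Fˣ) (j : ∀ s, Fin (d s + 1)) :
    (aM κ d m (dg a b)).mulVec (Pi.single j 1) =
      (∏ s, κ s (a * b) ^ m s * (κ s a ^ (j s : ℕ) * κ s b ^ (d s - j s))) •
        (Pi.single j 1 : (∀ s, Fin (d s + 1)) → E) := by
  funext i
  rw [SB4_diag, Pi.smul_apply, smul_eq_mul]
  by_cases h : i = j
  · rw [h]
  · rw [Pi.single_eq_of_ne h, mul_zero, mul_zero]

theorem SB4_norm {ι F E : Type*} [Fintype ι] [NormedField F] [NormedField E] (κ : ι → F →+* E)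
    (hiso : ∀ s x, ‖κ s x‖ = ‖x‖) (m : ι → ℤ) (e : ι → ℕ) {x y : F} (hx : x ≠ 0) :
    ‖∏ s, κ s x ^ m s * κ s y ^ e s‖ = ‖x‖ ^ (∑ s, m s) * ‖y‖ ^ ∑ s, e s := by
  simp only [norm_prod, norm_mul, norm_zpow, norm_pow, hiso]
  rw [Finset.prod_mul_distrib, SB4_zpow (norm_ne_zero_iff.2 hx), Finset.prod_pow_eq_pow_sum]

theorem SB4_tr {ι F E : Type*} [Fintype ι] [Field F] [Field E] [CharZero E]
    (κ : ι → F →+* E) (d : ι → ℕ) (m : ι → ℤ) (g : GL (Fin 2) F) (i j : ∀ s, Fin (d s + 1)) :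
    (∏ s, ((d s).choose (i s) : E))⁻¹ * aM κ d m g i j =
      (∏ s, ((d s).choose (j s) : E))⁻¹ * aM κ d m (tr g) j i := by
  have hne : ∀ (k : ∀ s, Fin (d s + 1)) s, ((d s).choose (k s) : E) ≠ 0 := fun k s =>
    Nat.cast_ne_zero.2 (Nat.choose_pos (Nat.lt_succ_iff.1 (k s).2)).ne'
  simp only [aM, Matrix.of_apply, dt_tr, SB4_map_tr, ← Finset.prod_inv_distrib,
    ← Finset.prod_mul_distrib]
  refine Finset.prod_congr rfl fun s _ => ?_
  have h := sM_transpose (d s) ((g : Matrix (Fin 2) (Fin 2) F).map (κ s)) (i s) (j s)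
  have h1 := hne i s
  have h2 := hne j s
  rw [mul_left_comm, mul_left_comm (_)⁻¹, inv_mul_eq_div, inv_mul_eq_div]
  congr 1
  rw [div_eq_div_iff h1 h2, mul_comm, h, mul_comm]

theorem algOK_of_matrix {ι F E : Type*} [Fintype ι] [DecidableEq ι] [NormedField F]
    [IsUltrametricDist F] [NormedField E] [IsUltrametricDist E] [CharZero E] (κ : ι → F →+* E)
    (hκ : Function.Injective κ) (hiso : ∀ s x, ‖κ s x‖ = ‖x‖) (p : ℕ)
    (hp0 : (p : F) ≠ 0) (hp : ‖(p : F)‖ < 1) (d : ι → ℕ) (m : ι → ℤ)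
    (ρ : Representation E (GL (Fin 2) F) ((∀ s, Fin (d s + 1)) → E))
    (hρ : ∀ g v, ρ g v = (aM κ d m g).mulVec v) : AlgOK ρ (∑ s, d s) (∑ s, m s) := by
  have hsingle : ∀ j : ∀ s, Fin (d s + 1), (Pi.single j 1 : (∀ s, Fin (d s + 1)) → E) ≠ 0 := by
    intro j h
    have := congrFun h j
    simp at this
  refine ⟨fun k hk v => ?_, fun z v => ?_, ⟨Pi.single (fun s => Fin.last _) 1, hsingle _,
    fun x => ?_, fun a => ?_⟩, ⟨Pi.single (fun s => 0) 1, hsingle _, fun a => ?_⟩,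
    fun r hr => burnside κ hκ p hp0 hp d m ρ hρ r hr, ?_⟩
  · obtain ⟨h1, h2, h3, h4, h5⟩ := hk
    have hent : ∀ i j, ‖aM κ d m k i j‖ ≤ 1 := by
      intro i j
      simp only [aM, Matrix.of_apply, norm_prod, norm_mul, norm_zpow, hiso, h5, one_zpow, one_mul]
      refine Finset.prod_le_one (fun s _ => norm_nonneg _) fun s _ => sM_norm_le _ _ ?_ _ _
      intro a b
      rw [Matrix.map_apply, hiso]
      fin_cases a <;> fin_cases b
      exacts [h1, h2, h3, h4]
    rw [hρ, pi_norm_le_iff_of_nonneg (norm_nonneg _)]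
    intro i
    refine IsUltrametricDist.norm_sum_le_of_forall_le_of_nonneg (norm_nonneg _) fun j _ => ?_
    rw [norm_mul]
    exact (mul_le_of_le_one_left (norm_nonneg _) (hent i j)).trans (norm_le_pi_norm v j)
  · have e : ρ (dg z z) v = (∏ s, κ s (z * z) ^ m s * κ s z ^ d s) • v := by
      funext i
      rw [hρ, SB4_diag, Pi.smul_apply, smul_eq_mul]
      congr 1
      refine Finset.prod_congr rfl fun s _ => ?_
      rw [← pow_add, Nat.add_sub_cancel' (Nat.lt_succ_iff.1 (i s).2)]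
    have hz : ‖(z : F)‖ ≠ 0 := norm_ne_zero_iff.2 z.ne_zero
    rw [e, norm_smul, SB4_norm κ hiso m d (mul_ne_zero z.ne_zero z.ne_zero), norm_mul, mul_zpow,
      ← zpow_natCast, ← zpow_add₀ hz, ← zpow_add₀ hz]
    congr 2
    ring
  · funext i
    rw [hρ, Matrix.mulVec_single_one, Matrix.col_apply]
    simp only [aM, Matrix.of_apply, SB4_map, ea_uu, eb_uu, ec_uu, ed_uu, dt_uu, map_zero, map_one,
      sM_upper_last]
    rw [SB4_prod_ite, Pi.single_apply]
    simp
  · have ha : ‖(a : F)‖ ≠ 0 := norm_ne_zero_iff.2 a.ne_zero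
    rw [hρ, SB4_diag_single, norm_smul]
    simp only [Units.val_one, mul_one, map_one, one_pow, Fin.val_last]
    rw [SB4_norm κ hiso m d a.ne_zero, ← zpow_natCast, ← zpow_add₀ ha]
  · rw [hρ, SB4_diag_single, norm_smul]
    simp only [Units.val_one, mul_one, map_one, one_pow]
    rw [SB4_norm κ hiso m _ a.ne_zero]
    simp
  · set c : (∀ s, Fin (d s + 1)) → E := fun i => (∏ s, ((d s).choose (i s) : E))⁻¹ with hc
    have hc0 : ∀ i, c i ≠ 0 := fun i => inv_ne_zero (Finset.prod_ne_zero_iff.2 fun s _ =>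
      Nat.cast_ne_zero.2 (Nat.choose_pos (Nat.lt_succ_iff.1 (i s).2)).ne')
    refine ⟨LinearMap.mk₂ E (fun v w => ∑ i, c i * v i * w i) (fun v v' w => ?_) (fun t v w => ?_)
      (fun v w w' => ?_) (fun t v w => ?_), fun w hw => ?_, fun g v w => ?_⟩
    · simp only [Pi.add_apply, mul_add, add_mul, Finset.sum_add_distrib]
    · simp only [Pi.smul_apply, smul_eq_mul, Finset.mul_sum]
      exact Finset.sum_congr rfl fun i _ => by ring
    · simp only [Pi.add_apply, mul_add, Finset.sum_add_distrib]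
    · simp only [Pi.smul_apply, smul_eq_mul, Finset.mul_sum]
      exact Finset.sum_congr rfl fun i _ => by ring
    · funext j
      have := hw (Pi.single j 1)
      rw [LinearMap.mk₂_apply, Finset.sum_eq_single j (fun i _ hi => by
        rw [Pi.single_eq_of_ne hi, mul_zero, zero_mul]) (fun h => absurd (Finset.mem_univ _) h),
        Pi.single_eq_same, mul_one] at this
      exact (mul_eq_zero.1 this).resolve_left (hc0 j)
    · rw [LinearMap.mk₂_apply, LinearMap.mk₂_apply, hρ, hρ]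
      simp only [Matrix.mulVec, dotProduct, Finset.mul_sum, Finset.sum_mul]
      rw [Finset.sum_comm]
      refine Finset.sum_congr rfl fun j _ => Finset.sum_congr rfl fun i _ => ?_
      have := SB4_tr κ d m g i j
      change c i * _ = c j * _ at this
      linear_combination v j * w i * this

end Pool.Agent.MP_4d0c14_nt
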