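import Pool.Agent.MP_4d0c14_nt.SC1

/-! The Hecke identity and the involution `theta`. -/

namespace Pool.Agent.MP_4d0c14_nt

namespace LD

variable {F E : Type*} [NormedField F] [IsUltrametricDist F] [Field E] (D : LD F E)

open Classical in
theorem SC2_sum (s : F) (w : E) :
    ∑ r ∈ D.R, (if ‖s - r‖ ≤ ‖(D.ϖ : F)‖ then w else 0) = if ‖s‖ ≤ 1 then w else 0 := by
  by_cases hs : ‖s‖ ≤ 1
  · obtain ⟨r, ⟨hr, hr'⟩, hu⟩ := D.R_rep s hs
    rw [if_pos hs, Finset.sum_eq_single r]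
    · rw [if_pos hr']
    · intro b hb hne
      rw [if_neg]
      intro h
      exact hne (hu b ⟨hb, h⟩)
    · intro h
      exact absurd hr h
  · rw [if_neg hs]
    refine Finset.sum_eq_zero fun r hr => ?_
    rw [if_neg]
    intro h
    apply hs
    have e : s = (s - r) + r := by ring
    rw [e]
    exact (IsUltrametricDist.norm_add_le_max _ _).trans
      (max_le (h.trans D.ϖ_lt.le) (D.R_le r hr))

omit [IsUltrametricDist F] in
theorem SC2_gam_inv (r : F) : (D.gam r)⁻¹ = D.t * ll (-((D.ϖ : F) ^ D.c * r)) := by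
  rw [gam, mul_inv_rev, inv_inv, ll_inv]

omit [IsUltrametricDist F] in
theorem SC2_le_iff {u v p : F} (hv : v ≠ 0) : ‖u / v‖ ≤ ‖p‖ ↔ ‖u‖ ≤ ‖v * p‖ := by
  rw [norm_div, div_le_iff₀ (norm_pos_iff.2 hv), norm_mul, mul_comm]

open Classical in
theorem hecke_identity (x : GL (Fin 2) F) : ∑ r ∈ D.R, del D.H D.lam (x * D.dlt r) =
    ∑ r ∈ D.R, del D.H D.lam ((D.gam r)⁻¹ * x) := by
  have hp : (D.ϖ : F) ≠ 0 := D.ϖ.ne_zero
  have a1 : ∀ r, ea (x * D.dlt r) = ea x * D.ϖ := fun r => by simp [dlt, t]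
  have b1 : ∀ r, eb (x * D.dlt r) = ea x * r + eb x := fun r => by simp [dlt, t]
  have c1 : ∀ r, ec (x * D.dlt r) = ec x * D.ϖ := fun r => by simp [dlt, t]
  have d1 : ∀ r, dt (x * D.dlt r) = dt x * D.ϖ := fun r => by simp [dlt, t]
  have a2 : ∀ r, ea ((D.gam r)⁻¹ * x) = ea x * D.ϖ := fun r => by
    rw [SC2_gam_inv]; simp [t, mul_comm]
  have b2 : ∀ r, eb ((D.gam r)⁻¹ * x) = eb x * D.ϖ := fun r => by
    rw [SC2_gam_inv]; simp [t, mul_comm]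
  have c2 : ∀ r, ec ((D.gam r)⁻¹ * x) = ec x - (D.ϖ : F) ^ D.c * r * ea x := fun r => by
    rw [SC2_gam_inv]; simp [t]; ring
  have d2 : ∀ r, dt ((D.gam r)⁻¹ * x) = dt x * D.ϖ := fun r => by
    rw [SC2_gam_inv]; simp [t, mul_comm]
  by_cases ha : ea x = 0
  · rw [Finset.sum_eq_zero, Finset.sum_eq_zero]
    · intro r _
      rw [del, if_neg]
      intro h
      have := InH.ea_pos (D.mem_H.1 h)
      rw [a2, ha] at this
      simp at this
    · intro r _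
      rw [del, if_neg]
      intro h
      have := InH.ea_pos (D.mem_H.1 h)
      rw [a1, ha] at this
      simp at this
  have hpa : (D.ϖ : F) ^ D.c * ea x ≠ 0 := mul_ne_zero (pow_ne_zero _ hp) ha
  set L : E := (ch D.χ₁ (ea x * D.ϖ) * ch D.χ₂ (dt x * D.ϖ / (ea x * D.ϖ)))⁻¹ with hL
  set P : Prop := ‖dt x * D.ϖ‖ = ‖ea x * D.ϖ‖ ^ 2 with hP
  set s : F := -eb x / ea x with hs
  set u : F := ec x / ((D.ϖ : F) ^ D.c * ea x) with hu
  have e1 : ∀ r, ‖ea x * r + eb x‖ ≤ ‖ea x * D.ϖ‖ ↔ ‖s - r‖ ≤ ‖(D.ϖ : F)‖ := fun r => by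
    have : s - r = -(ea x * r + eb x) / ea x := by rw [hs]; field_simp; ring
    rw [this, SC2_le_iff ha, norm_neg]
  have e2 : ‖ec x * D.ϖ‖ ≤ ‖(D.ϖ : F)‖ ^ D.c * ‖ea x * D.ϖ‖ ↔ ‖u‖ ≤ 1 := by
    rw [hu, ← norm_one (α := F), SC2_le_iff hpa, mul_one, norm_mul, norm_mul, norm_mul, norm_pow,
      ← mul_assoc]
    exact mul_le_mul_iff_left₀ D.ϖ_pos
  have e3 : ‖eb x * D.ϖ‖ ≤ ‖ea x * D.ϖ‖ ↔ ‖s‖ ≤ 1 := by
    rw [hs, ← norm_one (α := F), SC2_le_iff ha, mul_one, norm_mul, norm_mul, norm_neg]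
    exact mul_le_mul_iff_left₀ D.ϖ_pos
  have e4 : ∀ r, ‖ec x - (D.ϖ : F) ^ D.c * r * ea x‖ ≤ ‖(D.ϖ : F)‖ ^ D.c * ‖ea x * D.ϖ‖ ↔
      ‖u - r‖ ≤ ‖(D.ϖ : F)‖ := fun r => by
    have : u - r = (ec x - (D.ϖ : F) ^ D.c * r * ea x) / ((D.ϖ : F) ^ D.c * ea x) := by
      rw [hu]; field_simp
    rw [this, SC2_le_iff hpa, mul_assoc ((D.ϖ : F) ^ D.c) (ea x), norm_mul ((D.ϖ : F) ^ D.c),
      norm_pow]
  have l1 : ∀ r, del D.H D.lam (x * D.dlt r) =
      if ‖s - r‖ ≤ ‖(D.ϖ : F)‖ then (if ‖u‖ ≤ 1 ∧ P then L else 0) else 0 := fun r => by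
    rw [del]
    simp only [mem_H, InH, lam, a1, b1, c1, d1, e1, e2]
    by_cases h : ‖s - r‖ ≤ ‖(D.ϖ : F)‖
    · simp only [h, true_and, if_true]
      rfl
    · simp only [h, false_and, if_false]
  have l2 : ∀ r, del D.H D.lam ((D.gam r)⁻¹ * x) =
      if ‖u - r‖ ≤ ‖(D.ϖ : F)‖ then (if ‖s‖ ≤ 1 ∧ P then L else 0) else 0 := fun r => by
    rw [del]
    simp only [mem_H, InH, lam, a2, b2, c2, d2, e3, e4]
    by_cases h : ‖u - r‖ ≤ ‖(D.ϖ : F)‖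
    · simp only [h, true_and, if_true]
      rfl
    · simp only [h, false_and, and_false, if_false]
  simp only [l1, l2, SC2_sum]
  by_cases h1 : ‖s‖ ≤ 1 <;> by_cases h2 : ‖u‖ ≤ 1 <;> simp [h1, h2]

omit [IsUltrametricDist F] in
theorem SC2_ea (h : GL (Fin 2) F) : ea (D.theta h) = ed h / dt h := by
  have hp : (D.ϖ : F) ^ D.c ≠ 0 := pow_ne_zero _ D.ϖ.ne_zero
  have := dt_ne_zero h
  rw [theta_apply, sθ, dg_inv]
  simp
  field_simp

omit [IsUltrametricDist F] in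
theorem SC2_eb (h : GL (Fin 2) F) : eb (D.theta h) = ec h / ((D.ϖ : F) ^ D.c * dt h) := by
  have hp : (D.ϖ : F) ^ D.c ≠ 0 := pow_ne_zero _ D.ϖ.ne_zero
  have := dt_ne_zero h
  rw [theta_apply, sθ, dg_inv]
  simp
  field_simp

omit [IsUltrametricDist F] in
theorem SC2_ec (h : GL (Fin 2) F) : ec (D.theta h) = eb h * (D.ϖ : F) ^ D.c / dt h := by
  have := dt_ne_zero h
  rw [theta_apply, sθ, dg_inv]
  simp
  field_simp

omit [IsUltrametricDist F] in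
theorem SC2_ed (h : GL (Fin 2) F) : ed (D.theta h) = ea h / dt h := by
  rw [theta_apply, sθ, dg_inv]
  simp

omit [IsUltrametricDist F] in
theorem SC2_dt (h : GL (Fin 2) F) : dt (D.theta h) = (dt h)⁻¹ := by
  have := dt_ne_zero D.sθ
  rw [theta_apply, dt_mul, dt_mul, dt_inv, dt_inv, dt_tr]
  field_simp

theorem theta_mem (h : GL (Fin 2) F) (hh : h ∈ D.H) : D.theta h ∈ D.H := by
  have hh : D.InH h := hh
  have ha := hh.ea_pos
  have hc := D.ϖc_pos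
  have hd : 0 < ‖dt h‖ := norm_pos_iff.2 (dt_ne_zero h)
  refine ⟨?_, ?_, ?_⟩
  · rw [SC2_eb, SC2_ea, norm_div, norm_div, norm_mul, norm_pow, hh.norm_ed, ← div_div]
    refine div_le_div_of_nonneg_right ?_ hd.le
    rw [div_le_iff₀ hc, mul_comm]
    exact hh.2.1
  · rw [SC2_ec, SC2_ea, norm_div, norm_div, norm_mul, norm_pow, hh.norm_ed, ← mul_div_assoc,
      mul_comm]
    exact div_le_div_of_nonneg_right (mul_le_mul_of_nonneg_left hh.1 hc.le) hd.le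
  · rw [SC2_dt, SC2_ea, norm_inv, norm_div, hh.norm_ed, hh.2.2]
    field_simp

theorem theta_lam (h : GL (Fin 2) F) (hh : h ∈ D.H) : D.lam (D.theta h) * D.lam h = 1 := by
  have hh : D.InH h := hh
  have ha := hh.ea_pos
  have ha0 : ea h ≠ 0 := norm_pos_iff.1 ha
  have hd0 : ed h ≠ 0 := norm_pos_iff.1 (by rw [hh.norm_ed]; exact ha)
  have hdt := dt_ne_zero h
  have ha2 : 0 < ‖ea h‖ ^ 2 := pow_pos ha 2
  have h1 : ch D.χ₁ (ed h / dt h) * ch D.χ₁ (ea h) = 1 := by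
    have e : ed h / dt h * ea h = 1 + eb h * ec h / dt h := by
      field_simp
      simp only [dt]
      ring
    rw [← ch_mul, e]
    apply D.ch₁
    rw [norm_div, hh.2.2, div_le_iff₀ ha2]
    exact hh.bc_le
  have h2 : ch D.χ₂ ((dt h)⁻¹ / (ed h / dt h)) * ch D.χ₂ (dt h / ea h) = 1 := by
    have e : (dt h)⁻¹ / (ed h / dt h) * (dt h / ea h) = 1 + -(eb h * ec h) / (ea h * ed h) := by
      field_simp
      simp only [dt]
      ring
    rw [← ch_mul, e]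
    apply D.ch₂
    rw [norm_div, norm_neg, norm_mul (ea h), hh.norm_ed, ← sq, div_le_iff₀ ha2]
    exact hh.bc_le
  rw [lam, lam, SC2_ea, SC2_dt, mul_mul_mul_comm, h1, h2, mul_one]

omit [IsUltrametricDist F] in
theorem theta_gam (r : F) : D.theta (D.gam r) = D.dlt r := by
  have hp : (D.ϖ : F) ≠ 0 := D.ϖ.ne_zero
  have hc : (D.ϖ : F) ^ D.c ≠ 0 := pow_ne_zero _ hp
  apply gl_ext
  · rw [SC2_ea, gam, t, dg_inv]; simp [dlt, t]
  · rw [SC2_eb, gam, t, dg_inv]; simp [dlt, t]; field_simp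
  · rw [SC2_ec, gam, t, dg_inv]; simp [dlt, t]
  · rw [SC2_ed, gam, t, dg_inv]; simp [dlt, t]

end LD

end Pool.Agent.MP_4d0c14_nt
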