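import Pool.Agent.MP_4d0c14_nt.SC1

/-! The presentation of the principal series by the compact induction and one Hecke operator. -/

namespace Pool.Agent.MP_4d0c14_nt

theorem SC3_rep {G : Type*} [Group G] (H : Subgroup G) (S : Set G) :
    ∃ σ : G → G, (∀ g ∈ S, σ g ∈ S ∧ (σ g)⁻¹ * g ∈ H) ∧
      ∀ g g', g⁻¹ * g' ∈ H → σ g = σ g' := by
  classical
  let τ : G ⧸ H → G := fun x => if h : ∃ s ∈ S, (s : G ⧸ H) = x then h.choose else 1
  refine ⟨fun g => τ (g : G ⧸ H), fun g hg => ?_, fun g g' h => ?_⟩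
  · have h : ∃ s ∈ S, (s : G ⧸ H) = (g : G ⧸ H) := ⟨g, hg, rfl⟩
    have e : τ (g : G ⧸ H) = h.choose := dif_pos h
    simp only [e]
    exact ⟨h.choose_spec.1, QuotientGroup.eq.1 h.choose_spec.2⟩
  · simp only [QuotientGroup.eq.2 h]

section Bd

variable {F : Type*} [NormedField F] [IsUltrametricDist F]

/-- All entries have norm at most `C`. -/
def SC3_Bd (C : ℝ) (g : GL (Fin 2) F) : Prop :=
  ‖ea g‖ ≤ C ∧ ‖eb g‖ ≤ C ∧ ‖ec g‖ ≤ C ∧ ‖ed g‖ ≤ C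

theorem SC3_two {a b c d : F} {C C' : ℝ} (ha : ‖a‖ ≤ C) (hb : ‖b‖ ≤ C') (hc : ‖c‖ ≤ C)
    (hd : ‖d‖ ≤ C') : ‖a * b + c * d‖ ≤ C * C' := by
  have h0 : 0 ≤ C := (norm_nonneg _).trans ha
  refine (IsUltrametricDist.norm_add_le_max _ _).trans (max_le ?_ ?_) <;> rw [norm_mul]
  · exact mul_le_mul ha hb (norm_nonneg _) h0
  · exact mul_le_mul hc hd (norm_nonneg _) h0

theorem SC3_Bd_mul {C C' : ℝ} {g h : GL (Fin 2) F} (hg : SC3_Bd C g) (hh : SC3_Bd C' h) :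
    SC3_Bd (C * C') (g * h) := by
  obtain ⟨a1, a2, a3, a4⟩ := hg
  obtain ⟨b1, b2, b3, b4⟩ := hh
  refine ⟨?_, ?_, ?_, ?_⟩
  · rw [ea_mul]; exact SC3_two a1 b1 a2 b3
  · rw [eb_mul]; exact SC3_two a1 b2 a2 b4
  · rw [ec_mul]; exact SC3_two a3 b1 a4 b3
  · rw [ed_mul]; exact SC3_two a3 b2 a4 b4

omit [IsUltrametricDist F] in
theorem SC3_int_Bd {k : GL (Fin 2) F} (hk : IsInt k) : SC3_Bd 1 k :=
  ⟨hk.1, hk.2.1, hk.2.2.1, hk.2.2.2.1⟩

theorem SC3_int_mul {k k' : GL (Fin 2) F} (hk : IsInt k) (hk' : IsInt k') : IsInt (k * k') := by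
  have h := SC3_Bd_mul (SC3_int_Bd hk) (SC3_int_Bd hk')
  rw [one_mul] at h
  exact ⟨h.1, h.2.1, h.2.2.1, h.2.2.2, by rw [dt_mul, norm_mul, hk.2.2.2.2, hk'.2.2.2.2, one_mul]⟩

omit [IsUltrametricDist F] in
theorem SC3_int_inv {k : GL (Fin 2) F} (hk : IsInt k) : IsInt k⁻¹ := by
  obtain ⟨a1, a2, a3, a4, a5⟩ := hk
  refine ⟨?_, ?_, ?_, ?_, ?_⟩ <;> simp [a1, a2, a3, a4, a5]

omit [IsUltrametricDist F] in
theorem SC3_int_ll {y : F} (hy : ‖y‖ ≤ 1) : IsInt (ll y) := by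
  refine ⟨?_, ?_, ?_, ?_, ?_⟩ <;> simp [hy]

omit [IsUltrametricDist F] in
theorem SC3_iwasawa (g : GL (Fin 2) F) : ∃ k, IsInt k ∧ ec (k * g) = 0 := by
  by_cases h : ‖ec g‖ ≤ ‖ea g‖
  · have ha : ea g ≠ 0 := by
      intro h0
      rw [h0, norm_zero, norm_le_zero_iff] at h
      exact dt_ne_zero g (by simp [dt, h0, h])
    refine ⟨ll (-ec g / ea g), SC3_int_ll ?_, ?_⟩
    · rw [norm_div, norm_neg]
      exact div_le_one_of_le₀ h (norm_nonneg _)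
    · simp [div_mul_cancel₀ _ ha]
  · have h' := (not_le.1 h).le
    have hc : ec g ≠ 0 := by
      intro h0
      exact h (by rw [h0, norm_zero]; exact norm_nonneg _)
    refine ⟨mkGL 0 1 1 (-ea g / ec g) (by simp), ⟨?_, ?_, ?_, ?_, ?_⟩, ?_⟩
    · simp
    · simp
    · simp
    · rw [ed_mkGL, norm_div, norm_neg]
      exact div_le_one_of_le₀ h' (norm_nonneg _)
    · simp [dt]
    · simp [div_mul_cancel₀ _ hc]

end Bd

namespace LD

variable {F E : Type*} [NormedField F] [IsUltrametricDist F] [Field E] (D : LD F E)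

/-- all relations -/
noncomputable def rel : Submodule E (GL (Fin 2) F →₀ E) :=
  relH D.H D.lam E ⊔ LinearMap.range (aop D.R D.gam D.alpha E)

/-- level `n` elements -/
noncomputable def lev (n : ℕ) : Submodule E (GL (Fin 2) F →₀ E) :=
  Submodule.span E {z | ∃ k : GL (Fin 2) F, IsInt k ∧ z = Finsupp.single (k * D.t⁻¹ ^ n) 1}

omit [IsUltrametricDist F] in
theorem SC3_ti (n : ℕ) : D.t⁻¹ ^ n = dg (D.ϖ⁻¹ ^ n) 1 := by
  induction n with
  | zero => simp [dg_one]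
  | succ n ih => rw [pow_succ, ih, t, dg_inv, ← dg_mul, pow_succ, inv_one, one_mul]

omit [IsUltrametricDist F] in
theorem SC3_key (n : ℕ) (r : F) :
    D.t⁻¹ ^ n * D.gam r = ll ((D.ϖ : F) ^ D.c * ((D.ϖ : F) ^ n * r)) * D.t⁻¹ ^ (n + 1) := by
  rw [gam, pow_succ, ← mul_assoc, ← mul_assoc, SC3_ti]
  congr 1
  have := D.ϖ.ne_zero
  apply gl_ext <;> simp
  field_simp

omit [IsUltrametricDist F] in
theorem SC3_pow_le (n : ℕ) {r : F} (hr : ‖r‖ ≤ 1) : ‖(D.ϖ : F) ^ n * r‖ ≤ 1 := by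
  rw [norm_mul, norm_pow]
  exact mul_le_one₀ (pow_le_one₀ (norm_nonneg _) D.ϖ_lt.le) (norm_nonneg _) hr

theorem SC3_relH (g h : GL (Fin 2) F) (hh : h ∈ D.H) :
    Finsupp.single (g * h) (1 : E) - D.lam h • Finsupp.single g 1 ∈ D.rel :=
  Submodule.mem_sup_left (Submodule.subset_span ⟨g, h, 1, hh, rfl⟩)

theorem SC3_of_H {M : Submodule E (GL (Fin 2) F →₀ E)} (hM : D.rel ≤ M) {g h : GL (Fin 2) F}
    (hh : h ∈ D.H) (hg : Finsupp.single g (1 : E) ∈ M) : Finsupp.single (g * h) (1 : E) ∈ M := by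
  have := M.add_mem (hM (D.SC3_relH g h hh)) (M.smul_mem (D.lam h) hg)
  rwa [sub_add_cancel] at this

theorem SC3_of_sum {M : Submodule E (GL (Fin 2) F →₀ E)} (hM : D.rel ≤ M) {g : GL (Fin 2) F}
    (hg : ∀ r ∈ D.R, Finsupp.single (g * D.gam r) (1 : E) ∈ M) :
    Finsupp.single g (1 : E) ∈ M := by
  have ha : D.alpha ≠ 0 := inv_ne_zero (Units.ne_zero _)
  have h1 : aop D.R D.gam D.alpha E (Finsupp.single g 1) ∈ M :=
    hM (Submodule.mem_sup_right ⟨_, rfl⟩)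
  rw [aop_single] at h1
  have h2 := M.sub_mem (M.sum_mem hg) h1
  rw [sub_sub_cancel] at h2
  exact (M.smul_mem_iff ha).1 h2

theorem lev_le (n : ℕ) : D.lev n ≤ D.lev (n + 1) ⊔ D.rel := by
  refine Submodule.span_le.2 ?_
  rintro _ ⟨k, hk, rfl⟩
  refine D.SC3_of_sum le_sup_right fun r hr => Submodule.mem_sup_left (Submodule.subset_span ?_)
  refine ⟨k * ll ((D.ϖ : F) ^ D.c * ((D.ϖ : F) ^ n * r)), SC3_int_mul hk (SC3_int_ll ?_), ?_⟩
  · exact D.SC3_pow_le _ (D.SC3_pow_le _ (D.R_le r hr))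
  · rw [mul_assoc, SC3_key, mul_assoc]

theorem SC3_mem_iSup (z : GL (Fin 2) F →₀ E) :
    z ∈ (⨆ n, D.lev n ⊔ D.rel) ↔ ∃ n, z ∈ D.lev n ⊔ D.rel := by
  have h : Monotone fun n => D.lev n ⊔ D.rel :=
    monotone_nat_of_le_succ fun n => sup_le (D.lev_le n) le_sup_right
  exact Submodule.mem_iSup_of_directed _ h.directed_le

theorem SC3_decomp (g : GL (Fin 2) F) (C : ℝ) (N : ℕ) (hC : SC3_Bd C g)
    (hN : C * C * ‖(D.ϖ : F)‖ ^ N ≤ ‖dt g‖) :
    ∃ (k h : GL (Fin 2) F) (n : ℕ), IsInt k ∧ h ∈ D.H ∧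
      g * D.t⁻¹ ^ N = k * D.t⁻¹ ^ n * h := by
  obtain ⟨k, hk, hc⟩ := SC3_iwasawa g
  have hb := SC3_Bd_mul (SC3_int_Bd hk) hC
  rw [one_mul] at hb
  set b := k * g with hbdef
  have hdt : ‖ea b‖ * ‖ed b‖ = ‖dt g‖ := by
    have h1 : dt b = ea b * ed b := by rw [dt, hc, mul_zero, sub_zero]
    rw [← norm_mul, ← h1, hbdef, dt_mul, norm_mul, hk.2.2.2.2, one_mul]
  have hg0 : 0 < ‖dt g‖ := norm_pos_iff.2 (dt_ne_zero g)
  have ha0 : 0 < ‖ea b‖ := by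
    rcases (norm_nonneg (ea b)).eq_or_lt with h | h
    · rw [← hdt, ← h, zero_mul] at hg0; exact absurd hg0 (lt_irrefl _)
    · exact h
  have hd0 : 0 < ‖ed b‖ := by
    rcases (norm_nonneg (ed b)).eq_or_lt with h | h
    · rw [← hdt, ← h, mul_zero] at hg0; exact absurd hg0 (lt_irrefl _)
    · exact h
  have hC0 : 0 < C := ha0.trans_le hb.1
  have hq := D.ϖ_pos
  have hqN : 0 < ‖(D.ϖ : F)‖ ^ N := pow_pos hq N
  have hA : C * ‖(D.ϖ : F)‖ ^ N ≤ ‖ea b‖ := by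
    have h1 : C * (C * ‖(D.ϖ : F)‖ ^ N) ≤ C * ‖ea b‖ := by
      rw [← mul_assoc]
      refine hN.trans ?_
      rw [← hdt, mul_comm]
      exact mul_le_mul_of_nonneg_right hb.2.2.2 ha0.le
    exact le_of_mul_le_mul_left h1 hC0
  have hx : ed b * (D.ϖ : F) ^ N / ea b ≠ 0 :=
    div_ne_zero (mul_ne_zero (norm_pos_iff.1 hd0) (pow_ne_zero _ D.ϖ.ne_zero))
      (norm_pos_iff.1 ha0)
  obtain ⟨m, hm⟩ := D.exists_norm_eq_zpow _ hx
  rw [norm_div, norm_mul, norm_pow] at hm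
  have hm0 : 0 ≤ m := by
    have h1 : ‖(D.ϖ : F)‖ ^ m ≤ 1 := by
      rw [← hm, div_le_one ha0]
      exact (mul_le_mul_of_nonneg_right hb.2.2.2 hqN.le).trans hA
    exact (zpow_le_one_iff_right_of_lt_one₀ hq D.ϖ_lt).1 h1
  obtain ⟨n, rfl⟩ := Int.eq_ofNat_of_zero_le hm0
  rw [zpow_natCast, div_eq_iff ha0.ne'] at hm
  refine ⟨k⁻¹, (D.t⁻¹ ^ n)⁻¹ * b * D.t⁻¹ ^ N, n, SC3_int_inv hk, ?_, by simp [hbdef, mul_assoc]⟩
  have hqn : 0 < ‖(D.ϖ : F)‖ ^ n := pow_pos hq n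
  rw [SC3_ti, SC3_ti, dg_inv, mem_H]
  have e1 : ‖ea (dg (D.ϖ⁻¹ ^ n)⁻¹ 1⁻¹ * b * dg (D.ϖ⁻¹ ^ N) 1)‖ = ‖ed b‖ := by
    simp
    field_simp
    rw [← hm, mul_comm]
  refine ⟨?_, ?_, ?_⟩
  · rw [e1]
    simp
    have h1 : ‖(D.ϖ : F)‖ ^ n * ‖eb b‖ * ‖(D.ϖ : F)‖ ^ N ≤ ‖ed b‖ * ‖(D.ϖ : F)‖ ^ N := by
      rw [hm, mul_assoc]
      exact mul_le_mul_of_nonneg_left
        ((mul_le_mul_of_nonneg_right hb.2.1 hqN.le).trans hA) hqn.le
    exact le_of_mul_le_mul_right h1 hqN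
  · rw [e1]
    simp [hc]
  · have e2 : dt (dg (D.ϖ⁻¹ ^ n)⁻¹ 1⁻¹ * b * dg (D.ϖ⁻¹ ^ N) 1) =
        ea (dg (D.ϖ⁻¹ ^ n)⁻¹ 1⁻¹ * b * dg (D.ϖ⁻¹ ^ N) 1) * ed b := by
      rw [dt]
      simp [hc]
    rw [e2, norm_mul, e1, sq]

theorem single_mem (g : GL (Fin 2) F) :
    ∃ n : ℕ, Finsupp.single g (1 : E) ∈ D.lev n ⊔ D.rel := by
  rw [← SC3_mem_iSup]
  set M := ⨆ n, D.lev n ⊔ D.rel with hMdef
  have hM : D.rel ≤ M := le_sup_right.trans (le_iSup (fun n => D.lev n ⊔ D.rel) 0)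
  have key : ∀ N : ℕ, (∀ x : F, ‖x‖ ≤ 1 →
      Finsupp.single (g * ll ((D.ϖ : F) ^ D.c * x) * D.t⁻¹ ^ N) (1 : E) ∈ M) →
      Finsupp.single g (1 : E) ∈ M := by
    intro N
    induction N with
    | zero =>
      intro h
      simpa [ll_zero] using h 0 (by simp)
    | succ N ih =>
      intro h
      refine ih fun x hx => D.SC3_of_sum hM fun r hr => ?_
      have h1 := h (x + (D.ϖ : F) ^ N * r) ((IsUltrametricDist.norm_add_le_max _ _).trans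
        (max_le hx (D.SC3_pow_le _ (D.R_le r hr))))
      rwa [mul_add, ll_add, ← mul_assoc, mul_assoc _ (ll _) (D.t⁻¹ ^ _), ← SC3_key,
        ← mul_assoc] at h1
  obtain ⟨C, hC0, hC⟩ : ∃ C, 0 < C ∧ SC3_Bd C g := by
    have a1 := norm_nonneg (ea g)
    have a2 := norm_nonneg (eb g)
    have a3 := norm_nonneg (ec g)
    have a4 := norm_nonneg (ed g)
    exact ⟨‖ea g‖ + ‖eb g‖ + ‖ec g‖ + ‖ed g‖ + 1, by linarith, by linarith, by linarith,
      by linarith, by linarith⟩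
  have hg0 : 0 < ‖dt g‖ := norm_pos_iff.2 (dt_ne_zero g)
  obtain ⟨N, hN⟩ := exists_pow_lt_of_lt_one (div_pos hg0 (mul_pos hC0 hC0)) D.ϖ_lt
  rw [lt_div_iff₀ (mul_pos hC0 hC0), mul_comm] at hN
  refine key N fun x hx => ?_
  have hl := SC3_int_ll (D.SC3_pow_le D.c hx)
  have hb := SC3_Bd_mul hC (SC3_int_Bd hl)
  rw [mul_one] at hb
  obtain ⟨k, h, n, hk, hh, e⟩ := D.SC3_decomp _ C N hb (by simpa using hN.le)
  rw [e]
  refine D.SC3_of_H hM hh ?_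
  exact (le_iSup (fun n => D.lev n ⊔ D.rel) n)
    (Submodule.mem_sup_left (Submodule.subset_span ⟨k, hk, rfl⟩))

theorem rel_le_ker : D.rel ≤ LinearMap.ker
    (Finsupp.linearCombination E fun g x : GL (Fin 2) F => D.f0 (x * g)) := by
  refine sup_le (Submodule.span_le.2 ?_) ?_
  · rintro _ ⟨g, h, v, hh, rfl⟩
    rw [SetLike.mem_coe, LinearMap.mem_ker, map_sub, map_smul, Finsupp.linearCombination_single,
      Finsupp.linearCombination_single]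
    funext x
    simp only [Pi.sub_apply, Pi.smul_apply, smul_eq_mul, Pi.zero_apply]
    rw [← mul_assoc x, D.f0_mul_H _ _ hh]
    ring
  · rintro _ ⟨z, rfl⟩
    rw [LinearMap.mem_ker]
    induction z using Finsupp.induction_linear with
    | zero => simp
    | add a b ha hb => rw [map_add, map_add, ha, hb, add_zero]
    | single g v =>
      rw [aop_single, map_sub, map_smul, map_sum]
      simp only [Finsupp.linearCombination_single]
      funext x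
      simp only [Pi.sub_apply, Pi.smul_apply, smul_eq_mul, Pi.zero_apply, Finset.sum_apply,
        ← mul_assoc x]
      rw [← Finset.mul_sum, D.f0_sum]
      ring

omit [IsUltrametricDist F] in
theorem SC3_f0_ne (n : ℕ) : D.f0 (D.t⁻¹ ^ n) ≠ 0 := by
  rw [SC3_ti, f0, if_pos (by simp)]
  exact mul_ne_zero (ch_ne_zero _ (by simp)) (ch_ne_zero _ (by simp))

theorem SC3_supp (n : ℕ) {k : GL (Fin 2) F} (hk : IsInt k) (h : D.f0 (k * D.t⁻¹ ^ n) ≠ 0) :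
    (D.t⁻¹ ^ n)⁻¹ * (k * D.t⁻¹ ^ n) ∈ D.H := by
  obtain ⟨a1, a2, a3, a4, a5⟩ := hk
  have h1 : ‖ec (k * D.t⁻¹ ^ n)‖ ≤ ‖(D.ϖ : F)‖ ^ D.c * ‖ed (k * D.t⁻¹ ^ n)‖ := by
    by_contra h'
    exact h (if_neg h')
  have hq := D.ϖ_pos
  have hqn : 0 < ‖(D.ϖ : F)‖ ^ n := pow_pos hq n
  have hqn1 : ‖(D.ϖ : F)‖ ^ n ≤ 1 := pow_le_one₀ hq.le D.ϖ_lt.le
  rw [SC3_ti] at h1
  simp at h1
  have hc : ‖ec k‖ < 1 := by
    have h2 : ‖ec k‖ ≤ ‖ec k‖ * (‖(D.ϖ : F)‖ ^ n)⁻¹ :=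
      le_mul_of_one_le_right (norm_nonneg _) ((one_le_inv₀ hqn).2 hqn1)
    exact (h2.trans h1).trans_lt
      ((mul_le_of_le_one_right D.ϖc_pos.le a4).trans_lt D.ϖc_lt)
  have hbc : ‖eb k * ec k‖ < ‖dt k‖ := by
    rw [norm_mul, a5]
    exact (mul_le_of_le_one_left (norm_nonneg _) a2).trans_lt hc
  have had : ‖ea k‖ * ‖ed k‖ = 1 := by
    have h2 : ea k * ed k = dt k + eb k * ec k := by simp [dt]
    rw [← norm_mul, h2, IsUltrametricDist.norm_add_eq_max_of_norm_ne_norm hbc.ne',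
      max_eq_left hbc.le, a5]
  have ha : ‖ea k‖ = 1 :=
    le_antisymm a1 (had ▸ mul_le_of_le_one_right (norm_nonneg _) a4)
  have hd : ‖ed k‖ = 1 := by rwa [ha, one_mul] at had
  rw [SC3_ti, dg_inv, mem_H]
  have e1 : ‖ea (dg (D.ϖ⁻¹ ^ n)⁻¹ 1⁻¹ * (k * dg (D.ϖ⁻¹ ^ n) 1))‖ = 1 := by
    simp [ha, hqn.ne']
  refine ⟨?_, ?_, ?_⟩
  · rw [e1]
    simp
    exact mul_le_one₀ hqn1 (norm_nonneg _) a2
  · rw [e1]
    simpa [hd] using h1
  · rw [e1]
    simp [a5, hqn.ne']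

theorem lev_inj (n : ℕ) (z : GL (Fin 2) F →₀ E) (hz : z ∈ D.lev n)
    (h0 : Finsupp.linearCombination E (fun g x : GL (Fin 2) F => D.f0 (x * g)) z = 0) :
    z ∈ D.rel := by
  classical
  set T := D.t⁻¹ ^ n with hT
  let S : Set (GL (Fin 2) F) := {g | ∃ k, IsInt k ∧ g = k * T}
  obtain ⟨σ, h1, h2⟩ := SC3_rep D.H S
  let Q : (GL (Fin 2) F →₀ E) →ₗ[E] (GL (Fin 2) F →₀ E) :=
    Finsupp.linearCombination E fun g => D.lam ((σ g)⁻¹ * g) • Finsupp.single (σ g) 1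
  set P := Finsupp.linearCombination E (fun g x : GL (Fin 2) F => D.f0 (x * g)) with hP
  have key : z - Q z ∈ D.rel ∧ ∀ y, (y ∈ σ '' S → Q z y * D.f0 T = P z (T * y⁻¹)) ∧
      (y ∉ σ '' S → Q z y = 0) := by
    clear h0
    induction hz using Submodule.span_induction with
    | zero => simp
    | add a b _ _ ha hb =>
      refine ⟨?_, fun y => ⟨fun hy => ?_, fun hy => ?_⟩⟩
      · rw [map_add, add_sub_add_comm]
        exact D.rel.add_mem ha.1 hb.1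
      · rw [map_add, map_add, Finsupp.add_apply, Pi.add_apply, add_mul, (ha.2 y).1 hy,
          (hb.2 y).1 hy]
      · rw [map_add, Finsupp.add_apply, (ha.2 y).2 hy, (hb.2 y).2 hy, add_zero]
    | smul c a _ ha =>
      refine ⟨?_, fun y => ⟨fun hy => ?_, fun hy => ?_⟩⟩
      · rw [map_smul, ← smul_sub]
        exact D.rel.smul_mem c ha.1
      · rw [map_smul, map_smul, Finsupp.smul_apply, Pi.smul_apply, smul_eq_mul, smul_eq_mul,
          mul_assoc, (ha.2 y).1 hy]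
      · rw [map_smul, Finsupp.smul_apply, (ha.2 y).2 hy, smul_zero]
    | mem _ hw =>
      obtain ⟨k, hk, rfl⟩ := hw
      have hg : k * T ∈ S := ⟨k, hk, rfl⟩
      rw [← hT]
      set g := k * T with hgdef
      have eQ : Q (Finsupp.single g 1) = D.lam ((σ g)⁻¹ * g) • Finsupp.single (σ g) 1 := by
        simp only [Q, Finsupp.linearCombination_single, one_smul]
      have eP : ∀ x, P (Finsupp.single g 1) x = D.f0 (x * g) := fun x => by
        simp only [hP, Finsupp.linearCombination_single, one_smul]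
      rw [eQ]
      refine ⟨?_, fun y => ⟨?_, fun hy => ?_⟩⟩
      · have := D.SC3_relH (σ g) _ (h1 g hg).2
        rwa [mul_inv_cancel_left] at this
      · rintro ⟨g', hg', rfl⟩
        rw [eP, Finsupp.smul_apply, smul_eq_mul]
        by_cases e : σ g = σ g'
        · rw [← e, Finsupp.single_eq_same, mul_one, mul_assoc, D.f0_mul_H _ _ (h1 g hg).2]
        · rw [Finsupp.single_eq_of_ne (Ne.symm e), mul_zero, zero_mul]
          by_contra hne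
          obtain ⟨⟨r, hr, er⟩, hH⟩ := h1 g' hg'
          have e1 : T * (σ g')⁻¹ * g = r⁻¹ * k * T := by
            rw [er, hgdef]; group
          rw [e1] at hne
          have h3 := D.SC3_supp n (SC3_int_mul (SC3_int_inv hr) hk) (Ne.symm hne)
          have e2 : (D.t⁻¹ ^ n)⁻¹ * (r⁻¹ * k * D.t⁻¹ ^ n) = (σ g')⁻¹ * g := by
            rw [er, hgdef, ← hT]; group
          rw [e2] at h3
          exact e ((h2 _ _ h3).symm.trans (h2 _ _ hH))
      · have e : σ g ≠ y := fun e => hy ⟨g, hg, e⟩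
        rw [Finsupp.smul_apply, Finsupp.single_eq_of_ne (Ne.symm e), smul_zero]
  have hQ : Q z = 0 := by
    ext y
    by_cases hy : y ∈ σ '' S
    · have := (key.2 y).1 hy
      rw [h0, Pi.zero_apply] at this
      exact (mul_eq_zero.1 this).resolve_right (D.SC3_f0_ne n)
    · exact (key.2 y).2 hy
  simpa [hQ] using key.1

theorem ker_le (z : GL (Fin 2) F →₀ E)
    (hz : Finsupp.linearCombination E (fun g x : GL (Fin 2) F => D.f0 (x * g)) z = 0) :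
    z ∈ relH D.H D.lam E ⊔ LinearMap.range (aop D.R D.gam D.alpha E) := by
  have h : z ∈ ⨆ n, D.lev n ⊔ D.rel := by
    clear hz
    induction z using Finsupp.induction_linear with
    | zero => exact Submodule.zero_mem _
    | add a b ha hb => exact Submodule.add_mem _ ha hb
    | single g v =>
      have := Submodule.smul_mem _ v ((D.SC3_mem_iSup _).2 (D.single_mem g))
      rwa [Finsupp.smul_single, smul_eq_mul, mul_one] at this
  obtain ⟨n, hn⟩ := (D.SC3_mem_iSup z).1 h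
  obtain ⟨a, ha, b, hb, rfl⟩ := Submodule.mem_sup.1 hn
  have h1 := D.rel_le_ker hb
  rw [LinearMap.mem_ker] at h1
  rw [map_add, h1, add_zero] at hz
  exact D.rel.add_mem (D.lev_inj n a ha hz) hb

end LD

end Pool.Agent.MP_4d0c14_nt
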