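import Pool.Agent.MP_4d0c14_nt.SD1

/-! Injectivity by duality, and the scalar kernel of the inverse operator. -/

namespace Pool.Agent.MP_4d0c14_nt

namespace CoreData

variable {G E ι J : Type*} [Group G] [NontriviallyNormedField E] [IsUltrametricDist E] [Fintype ι]
  (D : CoreData G E ι J)

omit [IsUltrametricDist E] in
theorem SD2_bound (β : (ι → E) →ₗ[E] (ι → E) →ₗ[E] E) :
    ∃ B : ℝ, 0 ≤ B ∧ ∀ v w, ‖β v w‖ ≤ B * (‖v‖ * ‖w‖) := by
  classical
  refine ⟨∑ i, ∑ j, ‖β (Pi.single i 1) (Pi.single j 1)‖,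
    Finset.sum_nonneg fun _ _ => Finset.sum_nonneg fun _ _ => norm_nonneg _, fun v w => ?_⟩
  have h : β v w = ∑ i, ∑ j, β (Pi.single i 1) (Pi.single j 1) * (v i * w j) := by
    conv_lhs => rw [pi_eq_sum_univ' v, pi_eq_sum_univ' w]
    simp only [map_sum, map_smul, LinearMap.sum_apply, LinearMap.smul_apply, smul_eq_mul,
      Finset.mul_sum]
    rw [Finset.sum_comm]
    exact Finset.sum_congr rfl fun i _ => Finset.sum_congr rfl fun j _ => by ring
  rw [h, Finset.sum_mul]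
  refine (norm_sum_le _ _).trans (Finset.sum_le_sum fun i _ => ?_)
  rw [Finset.sum_mul]
  refine (norm_sum_le _ _).trans (Finset.sum_le_sum fun j _ => ?_)
  rw [norm_mul, norm_mul]
  exact mul_le_mul_of_nonneg_left (mul_le_mul (norm_le_pi_norm v i) (norm_le_pi_norm w j)
    (norm_nonneg _) (norm_nonneg _)) (norm_nonneg _)

theorem SD2_one (hd : D.Dense) (y : G → ι → E) (hb : D.Bdd y) (he : D.Eqv y)
    (h0 : ∀ x, ∑ j ∈ D.S, y (x * D.δ j) - D.α • y x = 0) : y 1 = 0 := by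
  obtain ⟨B, hB, hβ⟩ := SD2_bound D.β
  obtain ⟨C, hC⟩ := hb
  have hC0 : 0 ≤ C := (norm_nonneg _).trans (hC 1)
  let L : (G →₀ (ι → E)) →ₗ[E] E := Finsupp.lsum E fun g => D.β.flip (y (D.θ g))
  have hL : ∀ g v, L (Finsupp.single g v) = D.β v (y (D.θ g)) := fun g v => by simp [L]
  have h1 : relH D.H D.lam (ι → E) ≤ LinearMap.ker L := by
    refine Submodule.span_le.2 ?_
    rintro _ ⟨g, h, v, hh, rfl⟩
    have := he (D.θ g) _ (D.θ_mem h hh)
    rw [SetLike.mem_coe, LinearMap.mem_ker, map_sub, map_smul, hL, hL, map_mul D.θ, ← this,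
      map_smul, smul_smul, mul_comm, D.θ_lam h hh, one_smul, sub_self]
  have h2 : ∀ z, L (aop D.S D.γ D.α (ι → E) z) = 0 := fun z => by
    induction z using Finsupp.induction_linear with
    | zero => simp
    | add a b ha hb => rw [map_add, map_add, ha, hb, add_zero]
    | single g v =>
      have := congrArg (D.β v) (h0 (D.θ g))
      rw [map_sub, map_sum, map_smul, map_zero] at this
      rw [aop_single, map_sub, map_sum, map_smul, hL, ← this]
      simp only [hL, map_mul D.θ, D.θ_γ]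
  have h3 : ∀ ε, 0 ≤ ε → ∀ z, Small D.ρ ε z → ‖L z‖ ≤ B * (ε * C) := fun ε hε z hz => by
    rw [← Finsupp.sum_single z, Finsupp.sum, map_sum]
    refine IsUltrametricDist.norm_sum_le_of_forall_le_of_nonneg
      (mul_nonneg hB (mul_nonneg hε hC0)) fun g _ => ?_
    rw [hL, ← D.β_inv g⁻¹, map_inv D.θ]
    exact (hβ _ _).trans (mul_le_mul_of_nonneg_left
      (mul_le_mul (hz g) (hC _) (norm_nonneg _) hε) hB)
  refine D.β_nd _ fun v => norm_le_zero_iff.1 (le_of_forall_pos_le_add fun ε hε => ?_)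
  have hp : 0 < B * C + 1 := by positivity
  obtain ⟨z, z', k1, k2⟩ := hd v (ε / (B * C + 1)) (div_pos hε hp)
  have k3 := LinearMap.mem_ker.1 (h1 k2)
  rw [map_sub, map_sub, h2, hL, map_one D.θ, sub_zero, sub_eq_zero] at k3
  rw [k3, zero_add]
  refine (h3 _ (div_pos hε hp).le z k1).trans ?_
  rw [show B * (ε / (B * C + 1) * C) = ε * (B * C / (B * C + 1)) by ring]
  exact mul_le_of_le_one_right hε.le ((div_le_one hp).2 (by linarith))

theorem unique_sol (hd : D.Dense) (y : G → ι → E) (hb : D.Bdd y) (he : D.Eqv y)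
    (h0 : ∀ x, ∑ j ∈ D.S, y (x * D.δ j) - D.α • y x = 0) : y = 0 := by
  funext g
  obtain ⟨C, hC⟩ := hb
  have := SD2_one D hd (fun x => D.ρ g⁻¹ (y (g * x))) ⟨C, fun x => ?_⟩ (fun x h hh => ?_)
    fun x => ?_
  · have h := congrArg (D.ρ g) this
    rwa [mul_one, ← Module.End.mul_apply, ← map_mul D.ρ, mul_inv_cancel, map_one D.ρ, map_zero,
      Module.End.one_apply] at h
  · have := hC (g * x)
    rwa [mul_inv_rev, map_mul D.ρ, Module.End.mul_apply] at this
  · beta_reduce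
    rw [← map_smul, ← mul_assoc, he _ h hh]
  · have := congrArg (D.ρ g⁻¹) (h0 (g * x))
    rw [map_sub, map_sum, map_smul, map_zero] at this
    simpa only [mul_assoc] using this

/-- bounded equivariant solutions with right hand side given by `v` -/
def SD2_Sol (y : G → ι → E) (v : ι → E) : Prop :=
  D.Bdd y ∧ D.Eqv y ∧ ∀ x, ∑ j ∈ D.S, y (x * D.δ j) - D.α • y x = del D.H D.lam x • v

variable {D}

omit [IsUltrametricDist E] in
theorem SD2_add {y y' : G → ι → E} {v v' : ι → E} (h : D.SD2_Sol y v) (h' : D.SD2_Sol y' v') :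
    D.SD2_Sol (y + y') (v + v') := by
  obtain ⟨⟨C, hC⟩, h2, h3⟩ := h
  obtain ⟨⟨C', hC'⟩, k2, k3⟩ := h'
  refine ⟨⟨C + C', fun x => ?_⟩, fun x h hh => ?_, fun x => ?_⟩
  · rw [Pi.add_apply, map_add]
    exact (norm_add_le _ _).trans (add_le_add (hC x) (hC' x))
  · rw [Pi.add_apply, Pi.add_apply, smul_add, h2 x h hh, k2 x h hh]
  · simp only [Pi.add_apply y y', Finset.sum_add_distrib, smul_add, ← h3, ← k3]
    abel

omit [IsUltrametricDist E] in
theorem SD2_smul {y : G → ι → E} {v : ι → E} (h : D.SD2_Sol y v) (a : E) :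
    D.SD2_Sol (a • y) (a • v) := by
  obtain ⟨⟨C, hC⟩, h2, h3⟩ := h
  refine ⟨⟨‖a‖ * C, fun x => ?_⟩, fun x h hh => ?_, fun x => ?_⟩
  · rw [Pi.smul_apply, map_smul, norm_smul]
    exact mul_le_mul_of_nonneg_left (hC x) (norm_nonneg _)
  · rw [Pi.smul_apply, Pi.smul_apply, smul_comm, h2 x h hh]
  · simp only [Pi.smul_apply a y]
    rw [smul_comm _ a v, ← h3, smul_sub, Finset.smul_sum, smul_comm a D.α]

theorem SD2_uniq (hd : D.Dense) {y y' : G → ι → E} {v : ι → E} (h : D.SD2_Sol y v)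
    (h' : D.SD2_Sol y' v) : y = y' := by
  have k := SD2_add h (SD2_smul h' (-1))
  rw [neg_one_smul, neg_one_smul, add_neg_cancel] at k
  exact add_neg_eq_zero.1 (D.unique_sol hd _ k.1 k.2.1 fun x => by rw [k.2.2, smul_zero])

omit [IsUltrametricDist E] in
theorem SD2_del {h : G} (hh : h ∈ D.H) (x : G) :
    del D.H D.lam (h⁻¹ * x) = D.lam h * del D.H D.lam x := by
  unfold del
  by_cases hx : x ∈ D.H
  · have k1 := D.H.mul_mem (D.H.inv_mem hh) hx
    have k2 := D.lam_mul h hh _ (D.H.inv_mem hh)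
    rw [mul_inv_cancel, D.lam_one] at k2
    rw [if_pos hx, if_pos k1, D.lam_mul _ (D.H.inv_mem hh) x hx, mul_inv,
      ← eq_inv_of_mul_eq_one_left k2.symm]
  · rw [if_neg hx, if_neg fun k => hx ((D.H.mul_mem_cancel_left (D.H.inv_mem hh)).1 k), mul_zero]

omit [IsUltrametricDist E] in
theorem SD2_act {y : G → ι → E} {v : ι → E} (hy : D.SD2_Sol y v) {h : G} (hh : h ∈ D.H) :
    D.SD2_Sol (fun x => D.ρ h (y (h⁻¹ * x))) (D.lam h • D.ρ h v) := by
  obtain ⟨⟨C, hC⟩, h2, h3⟩ := hy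
  refine ⟨⟨C, fun x => ?_⟩, fun x k hk => ?_, fun x => ?_⟩
  · have := hC (h⁻¹ * x)
    rwa [mul_inv_rev, inv_inv, map_mul D.ρ, Module.End.mul_apply] at this
  · beta_reduce
    rw [← map_smul, ← mul_assoc, h2 _ k hk]
  · have := congrArg (D.ρ h) (h3 (h⁻¹ * x))
    rw [map_sub, map_sum, map_smul, map_smul, SD2_del hh, mul_comm, mul_smul] at this
    simpa only [mul_assoc] using this

variable (D)

theorem core [CompleteSpace E] [Nonempty ι] (hd : D.Dense)
    (hschur : ∀ (g : G) (Ψ : (ι → E) →ₗ[E] (ι → E)), (∀ h ∈ D.H, g⁻¹ * h⁻¹ * g ∈ D.H →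
      D.lam h = 1 → D.lam (g⁻¹ * h⁻¹ * g) = 1 → ∀ v, D.ρ h (Ψ v) = Ψ (D.ρ h v)) →
      ∃ c : E, ∀ v, Ψ v = c • v) :
    ∃ c : G → E, (∀ h ∈ D.H, ∀ x, c (h⁻¹ * x) = D.lam h * c x) ∧
      (∀ x, ∑ j ∈ D.S, c (x * D.δ j) - D.α * c x = del D.H D.lam x) ∧
      ∀ v, D.Dec fun x => c x • v := by
  choose y h1 h2 h3 h4 using D.exists_sol hd
  have hs : ∀ v, D.SD2_Sol (y v) v := fun v => ⟨h1 v, h2 v, h4 v⟩
  have hact : ∀ h ∈ D.H, ∀ x v, D.ρ h (y v (h⁻¹ * x)) = D.lam h • y (D.ρ h v) x :=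
    fun h hh x v => congrFun (SD2_uniq hd (SD2_act (hs v) hh) (SD2_smul (hs _) _)) x
  have key : ∀ g, ∃ c : E, ∀ v, y v g = c • v := fun g => by
    refine hschur g ⟨⟨fun v => y v g, fun v w => ?_⟩, fun a v => ?_⟩ fun h hh k1 k2 k3 v => ?_
    · exact congrFun (SD2_uniq hd (hs _) (SD2_add (hs v) (hs w))) g
    · exact congrFun (SD2_uniq hd (hs _) (SD2_smul (hs v) a)) g
    · have e1 := h2 v g _ k1
      have e2 := hact h hh g v
      rw [k3, one_smul, ← mul_assoc, ← mul_assoc, mul_inv_cancel, one_mul] at e1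
      rw [k2, one_smul, e1] at e2
      exact e2
  choose c hc using key
  have he : (1 : ι → E) ≠ 0 := one_ne_zero
  refine ⟨c, fun h hh x => smul_left_injective E he ?_, fun x => smul_left_injective E he ?_,
    fun v => ?_⟩
  · have := hact h hh x (D.ρ h⁻¹ 1)
    have e : D.ρ h (D.ρ h⁻¹ 1) = 1 := by
      rw [← Module.End.mul_apply, ← map_mul D.ρ, mul_inv_cancel, map_one D.ρ,
        Module.End.one_apply]
    rw [hc, hc, map_smul, e, smul_smul] at this
    exact this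
  · have := h4 1 x
    simp only [hc] at this
    beta_reduce
    rw [← this, sub_smul, Finset.sum_smul, mul_smul]
  · simpa only [← hc] using h3 v

end CoreData

end Pool.Agent.MP_4d0c14_nt
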