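import Pool.Agent.MP_4d0c14_nt.SA
import Pool.Agent.MP_4d0c14_nt.SB2
import Pool.Agent.MP_4d0c14_nt.SB4
import Pool.Agent.MP_4d0c14_nt.SC2
import Pool.Agent.MP_4d0c14_nt.SC3
import Pool.Agent.MP_4d0c14_nt.SD2
import Pool.Agent.MP_4d0c14_nt.SF

/-! Assembly in coordinates. -/

namespace Pool.Agent.MP_4d0c14_nt

open scoped TensorProduct
open Filter Topology

theorem schur_of_span {E ι : Type*} [Field E] [Fintype ι] (A : Set ((ι → E) →ₗ[E] (ι → E)))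
    (hA : Submodule.span E A = ⊤) (Ψ : (ι → E) →ₗ[E] (ι → E))
    (h : ∀ a ∈ A, ∀ v, a (Ψ v) = Ψ (a v)) : ∃ c : E, ∀ v, Ψ v = c • v := by
  classical
  have h1 : ∀ a : (ι → E) →ₗ[E] (ι → E), ∀ v, a (Ψ v) = Ψ (a v) := by
    intro a
    have ha : a ∈ Submodule.span E A := hA ▸ Submodule.mem_top
    induction ha using Submodule.span_induction with
    | mem a ha => exact h a ha
    | zero => simp
    | add a b _ _ ha hb => intro v; simp [ha v, hb v]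
    | smul c a _ ha => intro v; simp [ha v]
  rcases isEmpty_or_nonempty ι with hι | ⟨⟨i⟩⟩
  · exact ⟨0, fun v => Subsingleton.elim _ _⟩
  · refine ⟨Ψ (Pi.single i 1) i, fun v => ?_⟩
    have := h1 ((LinearMap.proj i).smulRight v) (Pi.single i 1)
    simpa using this.symm

/-- `a ↦ diag(a, 1)` as a homomorphism. -/
noncomputable def dgHom {F : Type*} [Field F] : Fˣ →* GL (Fin 2) F where
  toFun a := dg a 1
  map_one' := dg_one
  map_mul' a b := by rw [← dg_mul, mul_one]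

namespace LD

variable {F E : Type*} [NormedField F] [IsUltrametricDist F]

section Field

variable [Field E] (D : LD F E)

omit [IsUltrametricDist F] in
theorem t_zpow (n : ℤ) : D.t ^ n = dg (D.ϖ ^ n) 1 := (map_zpow dgHom D.ϖ n).symm

theorem ut_mem_iff (x : F) (n : ℤ) : uu x * D.t ^ n ∈ D.H ↔ n = 0 ∧ ‖x‖ ≤ 1 := by
  rw [mem_H, InH, t_zpow]
  have h0 := D.ϖ_pos
  have h1 := D.ϖ_lt
  simp only [eb_mul, ea_uu, eb_dg, mul_zero, eb_uu, ed_dg, Units.val_one, mul_one, zero_add,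
    ea_mul, ea_dg, one_mul, ec_dg, add_zero, ec_mul, ec_uu, zero_mul, ed_uu, norm_zero, dt_mul,
    dt_uu, dt_dg, Units.val_zpow_eq_zpow_val, norm_zpow]
  constructor
  · rintro ⟨h2, -, h3⟩
    have h4 : ‖(D.ϖ : F)‖ ^ n = 1 := by
      have hp : ‖(D.ϖ : F)‖ ^ n ≠ 0 := (zpow_pos h0 n).ne'
      rw [sq] at h3
      exact (mul_left_cancel₀ hp (by rw [mul_one]; exact h3)).symm
    have h5 : n = 0 := (zpow_eq_one_iff_right₀ h0.le h1.ne).1 h4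
    exact ⟨h5, by simpa [h4] using h2⟩
  · rintro ⟨rfl, h2⟩
    simp [h2, D.ϖc_pos.le]

theorem uu_mem {y : F} (hy : ‖y‖ ≤ 1) : uu y ∈ D.H := by
  simpa using (D.ut_mem_iff y 0).2 ⟨rfl, hy⟩

omit [IsUltrametricDist F] in
theorem lam_uu (y : F) : D.lam (uu y) = 1 := by simp [lam]

omit [IsUltrametricDist F] in
theorem ut_dlt (x r : F) (n : ℤ) :
    uu x * D.t ^ n * D.dlt r = uu (x + (D.ϖ : F) ^ n * r) * D.t ^ (n + 1) := by
  rw [dlt, zpow_add_one, ← mul_assoc, ← mul_assoc, t_zpow]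
  congr 1
  apply gl_ext <;> simp [add_comm]

theorem finite_bad (T : Finset (GL (Fin 2) F)) (g : GL (Fin 2) F) :
    {n : ℤ | ∃ s ∈ T, s⁻¹ * (g * D.t ^ n) ∈ D.H}.Finite := by
  have : {n : ℤ | ∃ s ∈ T, s⁻¹ * (g * D.t ^ n) ∈ D.H} =
      ⋃ s ∈ T, {n : ℤ | s⁻¹ * (g * D.t ^ n) ∈ D.H} := by
    ext n; simp
  rw [this]
  refine T.finite_toSet.biUnion fun s _ => Set.Subsingleton.finite fun n hn m hm => ?_
  have h := D.H.mul_mem (D.H.inv_mem hn) hm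
  have e : (s⁻¹ * (g * D.t ^ n))⁻¹ * (s⁻¹ * (g * D.t ^ m)) = uu 0 * D.t ^ (m - n) := by
    rw [uu_zero, one_mul, sub_eq_neg_add, zpow_add, zpow_neg]
    group
  rw [e, ut_mem_iff] at h
  omega

end Field

section Normed

variable [NormedField E] (D : LD F E)

omit [IsUltrametricDist F] in
theorem norm_ch (χ : Fˣ →* Eˣ) (hu : ∀ u : Fˣ, ‖(u : F)‖ = 1 → ‖((χ u : Eˣ) : E)‖ = 1) {x : F}
    {n : ℤ} (hx : ‖x‖ = ‖(D.ϖ : F)‖ ^ n) : ‖ch χ x‖ = ‖((χ D.ϖ : Eˣ) : E)‖ ^ n := by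
  have h0 := D.ϖ_pos
  have hx0 : x ≠ 0 := norm_pos_iff.1 (hx ▸ zpow_pos h0 n)
  have h1 : ‖((Units.mk0 x hx0 * (D.ϖ ^ n)⁻¹ : Fˣ) : F)‖ = 1 := by
    simp only [Units.val_mul, Units.val_mk0, Units.val_inv_eq_inv_val, Units.val_zpow_eq_zpow_val,
      norm_mul, norm_inv, norm_zpow, hx]
    exact mul_inv_cancel₀ (zpow_pos h0 n).ne'
  have h2 := hu _ h1
  have h3 : ch χ x = χ (Units.mk0 x hx0) := ch_units χ (Units.mk0 x hx0)
  rw [map_mul, map_inv, map_zpow, Units.val_mul, Units.val_inv_eq_inv_val,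
    Units.val_zpow_eq_zpow_val, norm_mul, norm_inv, norm_zpow] at h2
  rw [h3]
  have hp : ‖((χ D.ϖ : Eˣ) : E)‖ ^ n ≠ 0 :=
    (zpow_pos (norm_pos_iff.2 (χ D.ϖ).ne_zero) n).ne'
  exact (mul_inv_eq_one₀ hp).1 h2

theorem iso {ι : Type*} [Fintype ι] (ρ : Representation E (GL (Fin 2) F) (ι → E)) {nd : ℕ}
    {nm : ℤ} (hρ : AlgOK ρ nd nm)
    (hu₁ : ∀ u : Fˣ, ‖(u : F)‖ = 1 → ‖((D.χ₁ u : Eˣ) : E)‖ = 1)
    (hu₂ : ∀ u : Fˣ, ‖(u : F)‖ = 1 → ‖((D.χ₂ u : Eˣ) : E)‖ = 1)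
    (hc : ‖((D.χ₁ D.ϖ : Eˣ) : E)‖ * ‖((D.χ₂ D.ϖ : Eˣ) : E)‖ *
      ‖(D.ϖ : F)‖ ^ ((nd : ℤ) + 2 * nm) = 1)
    (h : GL (Fin 2) F) (hh : h ∈ D.H) (v : ι → E) : ‖D.lam h • ρ h v‖ = ‖v‖ := by
  have hh' : D.InH h := hh
  have ha := hh'.ea_pos
  have ha0 : ea h ≠ 0 := norm_pos_iff.1 ha
  obtain ⟨n, hn⟩ := D.exists_norm_eq_zpow _ ha0
  set z : Fˣ := Units.mk0 _ ha0 with hz
  set k : GL (Fin 2) F := dg z⁻¹ z⁻¹ * h with hk
  have hck : ‖ec h‖ ≤ ‖ea h‖ := hh'.2.1.trans (by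
    have := D.ϖc_lt
    nlinarith)
  have hdk : ‖dt k‖ = 1 := by
    simp only [hk, hz, dt_mul, dt_dg, norm_mul, Units.val_inv_eq_inv_val, Units.val_mk0, norm_inv,
      hh'.2.2]
    field_simp
  have hki : IsInt k := by
    refine ⟨?_, ?_, ?_, ?_, hdk⟩ <;>
      simp only [hk, hz, ea_mul, eb_mul, ec_mul, ed_mul, ea_dg, eb_dg, ec_dg, ed_dg, zero_mul,
        add_zero, zero_add, norm_mul, Units.val_inv_eq_inv_val, Units.val_mk0, norm_inv] <;>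
      rw [inv_mul_le_iff₀ ha, mul_one]
    exacts [hh'.1, hck, hh'.norm_ed.le]
  have hki' : IsInt k⁻¹ := by
    obtain ⟨h1, h2, h3, h4, h5⟩ := hki
    refine ⟨?_, ?_, ?_, ?_, ?_⟩ <;> simp [h1, h2, h3, h4, h5]
  have hkv : ‖ρ k v‖ = ‖v‖ := by
    refine le_antisymm (hρ.int k hki v) ?_
    have := hρ.int _ hki' (ρ k v)
    rwa [← Module.End.mul_apply, ← map_mul, inv_mul_cancel, map_one, Module.End.one_apply] at this
  have hhk : h = dg z z * k := by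
    rw [hk, ← mul_assoc, ← dg_mul, mul_inv_cancel, dg_one, one_mul]
  have h1 : ‖ρ h v‖ = ‖ea h‖ ^ ((nd : ℤ) + 2 * nm) * ‖v‖ := by
    conv_lhs => rw [hhk, map_mul, Module.End.mul_apply, hρ.cen, hkv]
    rfl
  have h2 : ‖dt h / ea h‖ = ‖(D.ϖ : F)‖ ^ n := by
    rw [norm_div, hh'.2.2, ← hn]
    field_simp
  rw [norm_smul, h1, lam, norm_mul, D.norm_ch _ hu₁ hn, D.norm_ch _ hu₂ h2, hn, ← zpow_mul,
    mul_comm n, zpow_mul, ← mul_assoc, ← mul_zpow, ← mul_zpow, hc, one_zpow, one_mul]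

end Normed

end LD

theorem main_coord {ι F E : Type*} [Fintype ι] [NormedField F] [IsUltrametricDist F]
    [NontriviallyNormedField E] [IsUltrametricDist E] [CompleteSpace E] (D : LD F E)
    (ρ : Representation E (GL (Fin 2) F) (ι → E)) {nd : ℕ} {nm : ℤ} (hρ : AlgOK ρ nd nm)
    (hu₁ : ∀ u : Fˣ, ‖(u : F)‖ = 1 → ‖((D.χ₁ u : Eˣ) : E)‖ = 1)
    (hu₂ : ∀ u : Fˣ, ‖(u : F)‖ = 1 → ‖((D.χ₂ u : Eˣ) : E)‖ = 1)
    (hc : ‖((D.χ₁ D.ϖ : Eˣ) : E)‖ * ‖((D.χ₂ D.ϖ : Eˣ) : E)‖ *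
      ‖(D.ϖ : F)‖ ^ ((nd : ℤ) + 2 * nm) = 1)
    (hα : 1 ≤ ‖((D.χ₁ D.ϖ : Eˣ) : E)‖ * ‖(D.ϖ : F)‖ ^ nm)
    (hβ : ‖(D.R.card : E)‖ ≤ ‖((D.χ₂ D.ϖ : Eˣ) : E)‖ * ‖(D.ϖ : F)‖ ^ nm)
    (hirr : (psRep D.χ₁ D.χ₂).IsIrreducible) :
    ∃ N : Seminorm E ((ι → E) ⊗[E] psSpace D.χ₁ D.χ₂), (∀ x, N x = 0 → x = 0) ∧
      (∀ x y, N (x + y) ≤ max (N x) (N y)) ∧
      ∀ g x, N (ρ.tprod (psRep D.χ₁ D.χ₂) g x) = N x := by
  classical
  obtain ⟨β, hnd, hβinv⟩ := hρ.form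
  let C : CoreData (GL (Fin 2) F) E ι F :=
    { ρ := ρ, H := D.H, lam := D.lam, S := D.R, γ := D.gam, δ := D.dlt, α := D.alpha,
      θ := D.theta, β := β.compl₂ (ρ D.sθ)
      lam_one := D.lam_one
      lam_mul := D.lam_mul
      iso := D.iso ρ hρ hu₁ hu₂ hc
      hU := D.hecke_identity
      θ_mem := D.theta_mem
      θ_lam := D.theta_lam
      θ_γ := D.theta_gam
      β_inv := by
        intro g v w
        simp only [LinearMap.compl₂_apply, hβinv, D.theta_apply]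
        rw [← Module.End.mul_apply, ← Module.End.mul_apply, ← map_mul, ← map_mul]
        congr 3
        group
      β_nd := by
        intro w hw
        have h1 := hnd _ hw
        have h2 := congrArg (ρ D.sθ⁻¹) h1
        rwa [← Module.End.mul_apply, ← map_mul, inv_mul_cancel, map_one, Module.End.one_apply,
          map_zero] at h2 }
  let f₀ : psSpace D.χ₁ D.χ₂ := ⟨D.f0, D.f0_mem⟩
  have hf₀ : f₀ ≠ 0 := fun h => by
    have := congrFun (congrArg Subtype.val h) 1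
    simp [f₀, D.f0_one] at this
  have hker : ∀ z : GL (Fin 2) F →₀ E,
      Finsupp.linearCombination E (fun g => psRep D.χ₁ D.χ₂ g f₀) z = 0 →
      z ∈ relH C.H C.lam E ⊔ LinearMap.range (aop C.S C.γ C.α E) := by
    intro z hz
    apply D.ker_le
    have := congrArg (psSpace D.χ₁ D.χ₂).subtype hz
    rw [Finsupp.apply_linearCombination, map_zero] at this
    exact this
  have hsm : ∀ T : Finset (psSpace D.χ₁ D.χ₂), Submodule.span E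
      {a | ∃ k, (∀ w ∈ T, psRep D.χ₁ D.χ₂ k w = w) ∧ a = C.ρ k} = ⊤ := by
    intro T
    have : ∃ r : ℝ, 0 < r ∧ ∀ k, Near r k → ∀ w ∈ T, psRep D.χ₁ D.χ₂ k w = w := by
      induction T using Finset.induction_on with
      | empty => exact ⟨1, one_pos, by simp⟩
      | insert w T _ ih =>
        obtain ⟨r, hr, h⟩ := ih
        obtain ⟨s, hs, h'⟩ := w.2.2
        refine ⟨min r s, lt_min hr hs, fun k hk w' hw' => ?_⟩
        rcases Finset.mem_insert.1 hw' with rfl | hw'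
        · exact Subtype.ext (funext fun x => h' k x (hk.mono (min_le_right _ _)))
        · exact h k (hk.mono (min_le_left _ _)) w' hw'
    obtain ⟨r, hr, h⟩ := this
    refine eq_top_iff.2 ((hρ.burn r hr).ge.trans (Submodule.span_mono ?_))
    rintro _ ⟨k, hk, rfl⟩
    exact ⟨k, h k hk, rfl⟩
  rcases norm_or_dense C (psRep D.χ₁ D.χ₂) hirr f₀ hf₀ hker hsm with h | hd
  · exact h
  exfalso
  obtain ⟨v₀, hv₀, hv₀u, hv₀t⟩ := hρ.high
  obtain ⟨v₁, hv₁, hv₁t⟩ := hρ.low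
  have : Nonempty ι := by
    by_contra hι
    rw [not_nonempty_iff] at hι
    exact hv₀ (Subsingleton.elim _ _)
  obtain ⟨c, hc1, hc2, hc3⟩ := C.core hd (by
    intro g Ψ hΨ
    obtain ⟨r, hr, hnear⟩ := D.near_mem
    obtain ⟨s, hs, hconj⟩ := exists_near_conj g hr
    refine schur_of_span _ (hρ.burn (min r s) (lt_min hr hs)) Ψ ?_
    rintro _ ⟨k, hk, rfl⟩ v
    obtain ⟨h1, h2⟩ := hnear k (hk.mono (min_le_left _ _))
    obtain ⟨h3, h4⟩ := hnear _ (hconj k (hk.mono (min_le_right _ _)))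
    have e : g⁻¹ * k⁻¹ * g = (g⁻¹ * k * g)⁻¹ := by group
    have h5 := D.lam_mul _ (D.H.inv_mem h3) _ h3
    rw [inv_mul_cancel, D.lam_one, h4, mul_one] at h5
    exact hΨ k h1 (e ▸ D.H.inv_mem h3) h2 (by rw [e]; exact h5.symm) v)
  have hϖ := D.ϖ_pos
  have hχ : 0 < ‖((D.χ₁ D.ϖ : Eˣ) : E)‖ := norm_pos_iff.2 (D.χ₁ D.ϖ).ne_zero
  have hα0 : D.alpha ≠ 0 := inv_ne_zero (D.χ₁ D.ϖ).ne_zero
  have key : ∀ (v : ι → E) (g : GL (Fin 2) F), Tendsto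
      (fun n : ℤ => ‖c (g * D.t ^ n)‖ * ‖ρ (g * D.t ^ n)⁻¹ v‖) cofinite (𝓝 0) := by
    intro v g
    rw [Metric.tendsto_nhds]
    intro ε hε
    obtain ⟨T, hT⟩ := hc3 v (ε / 2) (by positivity)
    refine Filter.mem_of_superset (D.finite_bad T g).compl_mem_cofinite fun n hn => ?_
    have h1 := hT (g * D.t ^ n) fun s hs hmem => hn ⟨s, hs, hmem⟩
    rw [map_smul, norm_smul] at h1
    change dist _ _ < ε
    rw [Real.dist_eq, sub_zero, abs_of_nonneg (by positivity)]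
    exact h1.trans_lt (by linarith)
  refine no_decay_solution D D.alpha hα0 (fun n x => c (uu x * D.t ^ n)) ?_ ?_ ?_ ?_
  · intro n x y hy
    have := hc1 (uu (-y)) (D.uu_mem (by simpa using hy)) (uu x * D.t ^ n)
    change c _ = D.lam _ * _ at this
    rw [D.lam_uu, one_mul, uu_inv, neg_neg, ← mul_assoc, ← uu_add, add_comm] at this
    exact this
  · intro n x
    have := hc2 (uu x * D.t ^ n)
    change ∑ j ∈ D.R, c (_ * D.dlt j) - D.alpha * _ = del D.H D.lam _ at this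
    simp only [D.ut_dlt] at this
    rw [this, del]
    by_cases h : n = 0 ∧ ‖x‖ ≤ 1
    · rw [if_pos h, if_pos ((D.ut_mem_iff x n).2 h), h.1, zpow_zero, mul_one, D.lam_uu, inv_one]
    · rw [if_neg h, if_neg (fun h' => h ((D.ut_mem_iff x n).1 h'))]
  · intro x
    have h1 := ((key v₀ (uu x)).comp (Nat.cast_injective.tendsto_cofinite (f := fun n : ℕ =>
      (n : ℤ)))).div_const ‖v₀‖
    rw [Nat.cofinite_eq_atTop, zero_div] at h1
    rw [tendsto_zero_iff_norm_tendsto_zero]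
    refine squeeze_zero (fun _ => norm_nonneg _) (fun n => ?_) h1
    have hv : 0 < ‖v₀‖ := norm_pos_iff.2 hv₀
    have h2 : ‖ρ (uu x * D.t ^ (n : ℤ))⁻¹ v₀‖ = (‖(D.ϖ : F)‖ ^ (nm + nd))⁻¹ ^ n * ‖v₀‖ := by
      rw [mul_inv_rev, map_mul, Module.End.mul_apply, uu_inv, hv₀u, ← zpow_neg, D.t_zpow, hv₀t,
        Units.val_zpow_eq_zpow_val, norm_zpow, ← zpow_mul, ← zpow_neg, ← zpow_natCast, ← zpow_mul]
      congr 2
      ring
    have h3 : ‖(D.R.card : E) / D.alpha‖ ≤ (‖(D.ϖ : F)‖ ^ (nm + nd))⁻¹ := by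
      rw [LD.alpha, div_inv_eq_mul, norm_mul, ← one_div, le_div_iff₀ (zpow_pos hϖ _), ← hc]
      calc ‖(D.R.card : E)‖ * ‖((D.χ₁ D.ϖ : Eˣ) : E)‖ * ‖(D.ϖ : F)‖ ^ (nm + nd)
          ≤ (‖((D.χ₂ D.ϖ : Eˣ) : E)‖ * ‖(D.ϖ : F)‖ ^ nm) * ‖((D.χ₁ D.ϖ : Eˣ) : E)‖ *
            ‖(D.ϖ : F)‖ ^ (nm + nd) := by gcongr
        _ = _ := by
          rw [show (nd : ℤ) + 2 * nm = nm + (nm + nd) by ring, zpow_add₀ hϖ.ne' nm (nm + nd)]
          ring
    simp only [Function.comp_apply]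
    rw [h2, norm_mul, norm_pow, ← mul_assoc, mul_div_assoc, div_self hv.ne', mul_one, mul_comm]
    gcongr
  · have h1 := ((key v₁ 1).comp (show Function.Injective fun n : ℕ => -(n : ℤ) from
      fun a b h => by simpa using h).tendsto_cofinite).div_const ‖v₁‖
    rw [Nat.cofinite_eq_atTop, zero_div] at h1
    rw [tendsto_zero_iff_norm_tendsto_zero]
    refine squeeze_zero (fun _ => norm_nonneg _) (fun n => ?_) h1
    have hv : 0 < ‖v₁‖ := norm_pos_iff.2 hv₁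
    have h2 : ‖ρ (1 * D.t ^ (-(n : ℤ)))⁻¹ v₁‖ = (‖(D.ϖ : F)‖ ^ nm) ^ n * ‖v₁‖ := by
      rw [one_mul, ← zpow_neg, neg_neg, D.t_zpow, hv₁t,
        Units.val_zpow_eq_zpow_val, norm_zpow, ← zpow_mul, ← zpow_natCast, ← zpow_mul, mul_comm nm]
    have h3 : ‖D.alpha‖ ≤ ‖(D.ϖ : F)‖ ^ nm := by
      rw [LD.alpha, norm_inv, inv_le_iff_one_le_mul₀' hχ]
      exact hα
    simp only [Function.comp_apply]
    rw [h2, norm_mul, norm_pow, ← mul_assoc, mul_div_assoc, div_self hv.ne', mul_one, mul_comm,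
      uu_zero]
    gcongr

end Pool.Agent.MP_4d0c14_nt
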