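import Pool.Agent.MP_4d0c14_nt.Defs

/-! Entries of elements of `GL(2, F)` and some standard elements. -/

namespace Pool.Agent.MP_4d0c14_nt

section Field

variable {F : Type*} [Field F]

/-- upper left entry -/
def ea (g : GL (Fin 2) F) : F := (g : Matrix (Fin 2) (Fin 2) F) 0 0
/-- upper right entry -/
def eb (g : GL (Fin 2) F) : F := (g : Matrix (Fin 2) (Fin 2) F) 0 1
/-- lower left entry -/
def ec (g : GL (Fin 2) F) : F := (g : Matrix (Fin 2) (Fin 2) F) 1 0
/-- lower right entry -/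
def ed (g : GL (Fin 2) F) : F := (g : Matrix (Fin 2) (Fin 2) F) 1 1
/-- determinant -/
def dt (g : GL (Fin 2) F) : F := ea g * ed g - eb g * ec g

theorem dt_eq_det (g : GL (Fin 2) F) : dt g = (g : Matrix (Fin 2) (Fin 2) F).det := by
  rw [Matrix.det_fin_two]; rfl

theorem dt_ne_zero (g : GL (Fin 2) F) : dt g ≠ 0 := by
  rw [dt_eq_det]; exact Matrix.GeneralLinearGroup.det_ne_zero g

theorem gl_ext {g h : GL (Fin 2) F} (h1 : ea g = ea h) (h2 : eb g = eb h) (h3 : ec g = ec h)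
    (h4 : ed g = ed h) : g = h := by
  apply Units.ext
  ext i j
  fin_cases i <;> fin_cases j
  exacts [h1, h2, h3, h4]

@[simp] theorem ea_mul (g h : GL (Fin 2) F) : ea (g * h) = ea g * ea h + eb g * ec h := by
  simp [ea, eb, ec, Matrix.mul_apply, Fin.sum_univ_two]
@[simp] theorem eb_mul (g h : GL (Fin 2) F) : eb (g * h) = ea g * eb h + eb g * ed h := by
  simp [ea, eb, ed, Matrix.mul_apply, Fin.sum_univ_two]
@[simp] theorem ec_mul (g h : GL (Fin 2) F) : ec (g * h) = ec g * ea h + ed g * ec h := by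
  simp [ea, ec, ed, Matrix.mul_apply, Fin.sum_univ_two]
@[simp] theorem ed_mul (g h : GL (Fin 2) F) : ed (g * h) = ec g * eb h + ed g * ed h := by
  simp [eb, ec, ed, Matrix.mul_apply, Fin.sum_univ_two]
@[simp] theorem dt_mul (g h : GL (Fin 2) F) : dt (g * h) = dt g * dt h := by
  simp only [dt, ea_mul, eb_mul, ec_mul, ed_mul]; ring

@[simp] theorem ea_one : ea (1 : GL (Fin 2) F) = 1 := by simp [ea]
@[simp] theorem eb_one : eb (1 : GL (Fin 2) F) = 0 := by simp [eb]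
@[simp] theorem ec_one : ec (1 : GL (Fin 2) F) = 0 := by simp [ec]
@[simp] theorem ed_one : ed (1 : GL (Fin 2) F) = 1 := by simp [ed]
@[simp] theorem dt_one : dt (1 : GL (Fin 2) F) = 1 := by simp [dt]

/-- The element with entries `a, b, c, d`. -/
noncomputable def mkGL (a b c d : F) (h : a * d - b * c ≠ 0) : GL (Fin 2) F :=
  Matrix.GeneralLinearGroup.mkOfDetNeZero !![a, b; c, d] (by rwa [Matrix.det_fin_two_of])

@[simp] theorem ea_mkGL (a b c d : F) (h) : ea (mkGL a b c d h) = a := rfl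
@[simp] theorem eb_mkGL (a b c d : F) (h) : eb (mkGL a b c d h) = b := rfl
@[simp] theorem ec_mkGL (a b c d : F) (h) : ec (mkGL a b c d h) = c := rfl
@[simp] theorem ed_mkGL (a b c d : F) (h) : ed (mkGL a b c d h) = d := rfl

theorem inv_eq_mkGL (g : GL (Fin 2) F) : g⁻¹ = mkGL (ed g / dt g) (-eb g / dt g) (-ec g / dt g)
    (ea g / dt g) (by
      have := dt_ne_zero g
      have h : ed g / dt g * (ea g / dt g) - -eb g / dt g * (-ec g / dt g) = (dt g)⁻¹ := by
        field_simp; simp only [dt]; ring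
      rw [h]; exact inv_ne_zero this) := by
  have := dt_ne_zero g
  rw [inv_eq_iff_mul_eq_one]
  apply gl_ext <;> simp <;> field_simp <;> simp only [dt] <;> ring

@[simp] theorem ea_inv (g : GL (Fin 2) F) : ea g⁻¹ = ed g / dt g := by rw [inv_eq_mkGL]; rfl
@[simp] theorem eb_inv (g : GL (Fin 2) F) : eb g⁻¹ = -eb g / dt g := by rw [inv_eq_mkGL]; rfl
@[simp] theorem ec_inv (g : GL (Fin 2) F) : ec g⁻¹ = -ec g / dt g := by rw [inv_eq_mkGL]; rfl
@[simp] theorem ed_inv (g : GL (Fin 2) F) : ed g⁻¹ = ea g / dt g := by rw [inv_eq_mkGL]; rfl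
@[simp] theorem dt_inv (g : GL (Fin 2) F) : dt g⁻¹ = (dt g)⁻¹ := by
  have h := dt_mul g⁻¹ g
  rw [inv_mul_cancel, dt_one] at h
  exact eq_inv_of_mul_eq_one_left h.symm

/-- upper unipotent element -/
noncomputable def uu (x : F) : GL (Fin 2) F := mkGL 1 x 0 1 (by simp)
/-- lower unipotent element -/
noncomputable def ll (x : F) : GL (Fin 2) F := mkGL 1 0 x 1 (by simp)
/-- diagonal element -/
noncomputable def dg (a d : Fˣ) : GL (Fin 2) F := mkGL (a : F) 0 0 (d : F) (by simp)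
/-- transpose -/
noncomputable def tr (g : GL (Fin 2) F) : GL (Fin 2) F :=
  mkGL (ea g) (ec g) (eb g) (ed g) (by have := dt_ne_zero g; rwa [dt, mul_comm (eb g)] at this)

@[simp] theorem ea_uu (x : F) : ea (uu x) = 1 := rfl
@[simp] theorem eb_uu (x : F) : eb (uu x) = x := rfl
@[simp] theorem ec_uu (x : F) : ec (uu x) = 0 := rfl
@[simp] theorem ed_uu (x : F) : ed (uu x) = 1 := rfl
@[simp] theorem dt_uu (x : F) : dt (uu x) = 1 := by simp [dt]
@[simp] theorem ea_ll (x : F) : ea (ll x) = 1 := rfl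
@[simp] theorem eb_ll (x : F) : eb (ll x) = 0 := rfl
@[simp] theorem ec_ll (x : F) : ec (ll x) = x := rfl
@[simp] theorem ed_ll (x : F) : ed (ll x) = 1 := rfl
@[simp] theorem dt_ll (x : F) : dt (ll x) = 1 := by simp [dt]
@[simp] theorem ea_dg (a d : Fˣ) : ea (dg a d) = a := rfl
@[simp] theorem eb_dg (a d : Fˣ) : eb (dg a d) = 0 := rfl
@[simp] theorem ec_dg (a d : Fˣ) : ec (dg a d) = 0 := rfl
@[simp] theorem ed_dg (a d : Fˣ) : ed (dg a d) = d := rfl
@[simp] theorem dt_dg (a d : Fˣ) : dt (dg a d) = a * d := by simp [dt]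
@[simp] theorem ea_tr (g : GL (Fin 2) F) : ea (tr g) = ea g := rfl
@[simp] theorem eb_tr (g : GL (Fin 2) F) : eb (tr g) = ec g := rfl
@[simp] theorem ec_tr (g : GL (Fin 2) F) : ec (tr g) = eb g := rfl
@[simp] theorem ed_tr (g : GL (Fin 2) F) : ed (tr g) = ed g := rfl
@[simp] theorem dt_tr (g : GL (Fin 2) F) : dt (tr g) = dt g := by simp [dt, mul_comm]

theorem tr_mul (g h : GL (Fin 2) F) : tr (g * h) = tr h * tr g := by
  apply gl_ext <;> simp <;> ring

theorem tr_tr (g : GL (Fin 2) F) : tr (tr g) = g := by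
  apply gl_ext <;> simp

theorem tr_one : tr (1 : GL (Fin 2) F) = 1 := by
  apply gl_ext <;> simp

theorem uu_add (x y : F) : uu (x + y) = uu x * uu y := by
  apply gl_ext <;> simp [add_comm]

theorem ll_add (x y : F) : ll (x + y) = ll x * ll y := by
  apply gl_ext <;> simp

theorem uu_zero : uu (0 : F) = 1 := by apply gl_ext <;> simp

theorem ll_zero : ll (0 : F) = 1 := by apply gl_ext <;> simp

theorem uu_inv (x : F) : (uu x)⁻¹ = uu (-x) := by apply gl_ext <;> simp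

theorem ll_inv (x : F) : (ll x)⁻¹ = ll (-x) := by apply gl_ext <;> simp

theorem dg_mul (a d a' d' : Fˣ) : dg (a * a') (d * d') = dg a d * dg a' d' := by
  apply gl_ext <;> simp

theorem dg_one : dg (1 : Fˣ) 1 = 1 := by apply gl_ext <;> simp

theorem dg_inv (a d : Fˣ) : (dg a d)⁻¹ = dg a⁻¹ d⁻¹ := by
  rw [inv_eq_iff_mul_eq_one, ← dg_mul, mul_inv_cancel, mul_inv_cancel, dg_one]

theorem coe_eq (g : GL (Fin 2) F) :
    (g : Matrix (Fin 2) (Fin 2) F) = !![ea g, eb g; ec g, ed g] := by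
  ext i j; fin_cases i <;> fin_cases j <;> rfl

end Field

section Normed

variable {F : Type*} [NormedField F]

theorem near_iff (r : ℝ) (k : GL (Fin 2) F) :
    Near r k ↔ ‖ea k - 1‖ < r ∧ ‖eb k‖ < r ∧ ‖ec k‖ < r ∧ ‖ed k - 1‖ < r := by
  simp [Near, Fin.forall_fin_two, ea, eb, ec, ed, and_assoc]

/-- `k ∈ GL(2, O)`. -/
def IsInt (k : GL (Fin 2) F) : Prop :=
  ‖ea k‖ ≤ 1 ∧ ‖eb k‖ ≤ 1 ∧ ‖ec k‖ ≤ 1 ∧ ‖ed k‖ ≤ 1 ∧ ‖dt k‖ = 1

end Normed

end Pool.Agent.MP_4d0c14_nt
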