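import Pool.Agent.MP_4d0c14_nt.Alg

/-! Entries of the matrix of `Sym^d`. -/

namespace Pool.Agent.MP_4d0c14_nt

open Polynomial

theorem SB1_mul {E : Type*} [NormedField E] [IsUltrametricDist E] {p q : E[X]}
    (hp : ∀ n, ‖p.coeff n‖ ≤ 1) (hq : ∀ n, ‖q.coeff n‖ ≤ 1) (n : ℕ) : ‖(p * q).coeff n‖ ≤ 1 := by
  rw [coeff_mul]
  refine IsUltrametricDist.norm_sum_le_of_forall_le_of_nonneg zero_le_one fun x _ => ?_
  rw [norm_mul]
  exact mul_le_one₀ (hp _) (norm_nonneg _) (hq _)

theorem SB1_pow {E : Type*} [NormedField E] [IsUltrametricDist E] {p : E[X]}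
    (hp : ∀ n, ‖p.coeff n‖ ≤ 1) (k : ℕ) : ∀ n, ‖(p ^ k).coeff n‖ ≤ 1 := by
  induction k with
  | zero =>
    intro n
    rw [pow_zero, coeff_one]
    split_ifs <;> simp
  | succ k ih =>
    rw [pow_succ]
    exact SB1_mul ih hp

theorem SB1_lin {E : Type*} [NormedField E] {a b : E} (ha : ‖a‖ ≤ 1) (hb : ‖b‖ ≤ 1) (n : ℕ) :
    ‖(C a * X + C b).coeff n‖ ≤ 1 := by
  rcases n with _ | _ | n
  · simpa using hb
  · simpa using ha
  · simp

theorem sM_norm_le {E : Type*} [NormedField E] [IsUltrametricDist E] (d : ℕ)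
    (g : Matrix (Fin 2) (Fin 2) E) (hg : ∀ i j, ‖g i j‖ ≤ 1) (i j : Fin (d + 1)) :
    ‖sM d g i j‖ ≤ 1 :=
  SB1_mul (SB1_pow (SB1_lin (hg _ _) (hg _ _)) _) (SB1_pow (SB1_lin (hg _ _) (hg _ _)) _) _

theorem SB1_coeff {R : Type*} [CommRing R] (u v : R) (d j : ℕ) :
    ((C u * X + C v) ^ d).coeff j = (d.choose j : R) * (u ^ j * v ^ (d - j)) := by
  have h : (C u * X + C v) ^ d = ((X + C v) ^ d).comp (C u * X) := by
    simp
  rw [h, comp_C_mul_X_coeff, coeff_X_add_C_pow]
  ring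

theorem SB1_swap {R : Type*} [CommRing R] (p : R[X][X]) (i j : ℕ) :
    ((Bivariate.swap p).coeff i).coeff j = (p.coeff j).coeff i := by
  induction p using Polynomial.induction_on' with
  | add p q hp hq => simp only [map_add, coeff_add, hp, hq]
  | monomial n f =>
    induction f using Polynomial.induction_on' with
    | add p q hp hq => simp only [map_add, coeff_add, hp, hq]
    | monomial m r =>
      rw [Bivariate.swap_monomial_monomial]
      simp only [coeff_monomial]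
      split_ifs <;> simp [coeff_monomial, *]

variable {E : Type*} [Field E]

theorem sM_diag (d : ℕ) (a b : E) (i j : Fin (d + 1)) :
    sM d !![a, 0; 0, b] i j = if i = j then a ^ (j : ℕ) * b ^ (d - j) else 0 := by
  have h : (C a * X + C 0) ^ (j : ℕ) * (C 0 * X + C b) ^ (d - j) =
      C (a ^ (j : ℕ) * b ^ (d - j)) * X ^ (j : ℕ) := by
    simp only [map_zero, add_zero, zero_mul, zero_add, map_mul, map_pow]
    ring
  have e : sM d !![a, 0; 0, b] i j =
      ((C a * X + C 0) ^ (j : ℕ) * (C 0 * X + C b) ^ (d - j)).coeff i := rfl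
  rw [e, h, coeff_C_mul_X_pow]
  simp only [Fin.ext_iff]

theorem sM_upper_last (d : ℕ) (x : E) (i : Fin (d + 1)) :
    sM d !![1, x; 0, 1] i (Fin.last d) = if i = Fin.last d then 1 else 0 := by
  have e : sM d !![1, x; 0, 1] i (Fin.last d) =
      ((C 1 * X + C 0) ^ d * (C x * X + C 1) ^ (d - d)).coeff i := rfl
  rw [e]
  simp [coeff_X_pow, Fin.ext_iff]

theorem sM_upper_top (d : ℕ) (x : E) (j : Fin (d + 1)) :
    sM d !![1, x; 0, 1] (Fin.last d) j = x ^ (d - j) := by
  have e : sM d !![1, x; 0, 1] (Fin.last d) j =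
      ((C 1 * X + C 0) ^ (j : ℕ) * (C x * X + C 1) ^ (d - j)).coeff d := rfl
  have hj : (j : ℕ) ≤ d := Nat.lt_succ_iff.1 j.2
  rw [e, map_one, one_mul, map_zero, add_zero, coeff_X_pow_mul', if_pos hj, ← map_one C,
    SB1_coeff]
  simp

theorem sM_lower_last (d : ℕ) (x : E) (i : Fin (d + 1)) :
    sM d !![1, 0; x, 1] i (Fin.last d) = (d.choose i : E) * x ^ (d - i) := by
  have e : sM d !![1, 0; x, 1] i (Fin.last d) =
      ((C 1 * X + C x) ^ d * (C 0 * X + C 1) ^ (d - d)).coeff i := rfl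
  rw [e, Nat.sub_self, pow_zero, mul_one, SB1_coeff]
  simp

theorem SB1_key {R : Type*} [CommRing R] (a b c e : R) (d i j : ℕ) :
    (d.choose j : R) * ((C a * X + C c) ^ j * (C b * X + C e) ^ (d - j)).coeff i =
      (d.choose i : R) * ((C a * X + C b) ^ i * (C c * X + C e) ^ (d - i)).coeff j := by
  have h₀ : Bivariate.swap (C (C a * X + C c) * X + C (C b * X + C e) : R[X][X]) =
      C (C a * X + C b) * X + C (C c * X + C e) := by
    simp only [C_add, C_mul]
    rw [map_add, map_mul, map_add, map_add, map_mul, map_mul, Bivariate.swap_C_C,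
      Bivariate.swap_C_C, Bivariate.swap_C_C, Bivariate.swap_C_C, Bivariate.swap_X,
      Bivariate.swap_Y]
    ring
  have k := SB1_swap ((C (C a * X + C c) * X + C (C b * X + C e)) ^ d) i j
  rw [map_pow, h₀, SB1_coeff, SB1_coeff, ← C_eq_natCast, ← C_eq_natCast, coeff_C_mul,
    coeff_C_mul] at k
  exact k.symm

theorem sM_transpose [CharZero E] (d : ℕ) (g : Matrix (Fin 2) (Fin 2) E) (i j : Fin (d + 1)) :
    (d.choose j : E) * sM d g i j = (d.choose i : E) * sM d g.transpose j i :=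
  SB1_key (g 0 0) (g 0 1) (g 1 0) (g 1 1) d i j

end Pool.Agent.MP_4d0c14_nt
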