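import Pool.Agent.MP_4d0c14_nt.SB1

/-! Every open subgroup spans the full endomorphism algebra of the algebraic representation. -/

namespace Pool.Agent.MP_4d0c14_nt

open Polynomial in
theorem SB3_deriv {ι E : Type*} [Field E] (S : Finset ι) (c : ι → E) (a : ι → ℕ) :
    (∏ s ∈ S, (1 + C (c s) * X) ^ a s).eval 0 = 1 ∧
      (derivative (∏ s ∈ S, (1 + C (c s) * X) ^ a s)).eval 0 = ∑ s ∈ S, (a s : E) * c s := by
  classical
  induction S using Finset.induction_on with
  | empty => simp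
  | insert s S hs ih =>
    rw [Finset.prod_insert hs, Finset.sum_insert hs, derivative_mul, eval_add, eval_mul, eval_mul,
      eval_mul, ih.1, ih.2]
    simp [derivative_pow]

open Polynomial in
theorem SB3_sum_eq {ι F E : Type*} [Fintype ι] [NormedField F] [Field E] [CharZero E]
    (κ : ι → F →+* E) (p : ℕ) (hp0 : (p : F) ≠ 0)
    (hp : ‖(p : F)‖ < 1) (r : ℝ) (hr : 0 < r) (a b : ι → ℕ)
    (h : ∀ x : F, ‖x - 1‖ < r → ∏ s, κ s x ^ a s = ∏ s, κ s x ^ b s) (y : F) :
    ∑ s, (a s : E) * κ s y = ∑ s, (b s : E) * κ s y := by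
  have hp2 : 2 ≤ p := by
    rcases p with _ | _ | p
    · simp at hp0
    · simp at hp
    · omega
  have ht : Filter.Tendsto (fun k : ℕ => ‖(p : F)‖ ^ k * ‖y‖) Filter.atTop (nhds 0) := by
    simpa using (tendsto_pow_atTop_nhds_zero_of_lt_one (norm_nonneg _) hp).mul_const ‖y‖
  obtain ⟨N, hN⟩ := Filter.eventually_atTop.1 (ht.eventually (gt_mem_nhds hr))
  have e : ∏ s, (1 + C (κ s y) * X) ^ a s = ∏ s, (1 + C (κ s y) * X) ^ b s := by
    apply eq_of_infinite_eval_eq
    refine Set.infinite_of_injective_forall_mem (f := fun k : ℕ => (p : E) ^ (N + k)) ?_ ?_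
    · intro k k' hk
      have h0 : (p : E) ^ (N + k) = (p : E) ^ (N + k') := hk
      have h1 : p ^ (N + k) = p ^ (N + k') := by exact_mod_cast h0
      have := Nat.pow_right_injective hp2 h1
      omega
    · intro k
      have h1 := h (1 + y * (p : F) ^ (N + k)) (by
        rw [add_sub_cancel_left, norm_mul, norm_pow, mul_comm]
        exact hN _ (Nat.le_add_right _ _))
      simpa [eval_prod] using h1
  rw [← (SB3_deriv _ _ a).2, ← (SB3_deriv _ _ b).2, e]

theorem exponents_eq {ι F E : Type*} [Fintype ι] [NormedField F] [Field E] [CharZero E]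
    (κ : ι → F →+* E) (hκ : Function.Injective κ) (p : ℕ) (hp0 : (p : F) ≠ 0)
    (hp : ‖(p : F)‖ < 1) (r : ℝ) (hr : 0 < r) (a b : ι → ℕ)
    (h : ∀ x : F, ‖x - 1‖ < r → ∏ s, κ s x ^ a s = ∏ s, κ s x ^ b s) : a = b := by
  have li := (linearIndependent_monoidHom F E).comp (fun s => (κ s : F →* E))
    fun s s' e => hκ (RingHom.coe_monoidHom_injective e)
  have := Fintype.linearIndependent_iff.1 li (fun s => (a s : E) - b s) (by
    funext y
    have := SB3_sum_eq κ p hp0 hp r hr a b h y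
    simpa [Finset.sum_apply, sub_mul, sub_eq_zero] using this)
  funext s
  exact_mod_cast sub_eq_zero.1 (this s)

section small

variable {F : Type*} [NormedField F] [IsUltrametricDist F] {r : ℝ}

theorem SB3_add {x y : F} (hx : ‖x‖ < r) (hy : ‖y‖ < r) : ‖x + y‖ < r :=
  (IsUltrametricDist.norm_add_le_max _ _).trans_lt (max_lt hx hy)

omit [IsUltrametricDist F] in
theorem SB3_mul (hr : r ≤ 1) {x y : F} (hx : ‖x‖ < r) (hy : ‖y‖ < r) : ‖x * y‖ < r := by
  rw [norm_mul]
  exact (mul_le_of_le_one_right (norm_nonneg _) (hy.le.trans hr)).trans_lt hx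

theorem SB3_one (hr : r ≤ 1) {x y : F} (hx : ‖x - 1‖ < r) (hy : ‖y - 1‖ < r) :
    ‖x * y - 1‖ < r := by
  rw [show x * y - 1 = (x - 1) * (y - 1) + (x - 1) + (y - 1) by ring]
  exact SB3_add (SB3_add (SB3_mul hr hx hy) hx) hy

theorem SB3_near (hr : r ≤ 1) {k k' : GL (Fin 2) F} (h : Near r k) (h' : Near r k') :
    Near r (k * k') := by
  rw [near_iff] at h h' ⊢
  obtain ⟨a, b, c, d⟩ := h
  obtain ⟨a', b', c', d'⟩ := h'
  refine ⟨?_, ?_, ?_, ?_⟩
  · rw [ea_mul, add_sub_right_comm]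
    exact SB3_add (SB3_one hr a a') (SB3_mul hr b c')
  · rw [eb_mul, show ea k * eb k' + eb k * ed k' =
      (ea k - 1) * eb k' + eb k' + (eb k * (ed k' - 1) + eb k) by ring]
    exact SB3_add (SB3_add (SB3_mul hr a b') b') (SB3_add (SB3_mul hr b d') b)
  · rw [ec_mul, show ec k * ea k' + ed k * ec k' =
      ec k * (ea k' - 1) + ec k + ((ed k - 1) * ec k' + ec k') by ring]
    exact SB3_add (SB3_add (SB3_mul hr c a') c) (SB3_add (SB3_mul hr d c') c')
  · rw [ed_mul, add_sub_assoc]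
    exact SB3_add (SB3_mul hr c b') (SB3_one hr d d')

/-- The units close to one. -/
def SB3_U (hr0 : 0 < r) (hr : r ≤ 1) : Submonoid Fˣ where
  carrier := {x | ‖(x : F) - 1‖ < r}
  one_mem' := by simpa using hr0
  mul_mem' := fun hx hy => SB3_one hr hx hy

end small

section entries

variable {ι F E : Type*} [Fintype ι] [Field F] [Field E] (κ : ι → F →+* E) (d : ι → ℕ)
  (m : ι → ℤ)

omit [Fintype ι] in
theorem SB3_map (g : GL (Fin 2) F) (s : ι) : (g : Matrix (Fin 2) (Fin 2) F).map (κ s) =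
    !![κ s (ea g), κ s (eb g); κ s (ec g), κ s (ed g)] := by
  ext i j
  fin_cases i <;> fin_cases j <;> rfl

/-- The weights of the diagonal torus. -/
noncomputable def SB3_phi (i : ∀ s, Fin (d s + 1)) : Fˣ →* E where
  toFun x := ∏ s, κ s x ^ m s * κ s x ^ (i s : ℕ)
  map_one' := by simp
  map_mul' x y := by
    rw [← Finset.prod_mul_distrib]
    refine Finset.prod_congr rfl fun s _ => ?_
    simp only [Units.val_mul, map_mul, mul_zpow, mul_pow]
    ring

theorem SB3_diag [DecidableEq ι] (x : Fˣ) :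
    aM κ d m (dg x 1) = Matrix.diagonal fun i => SB3_phi κ d m i x := by
  ext i j
  simp only [aM, Matrix.of_apply, SB3_map, ea_dg, eb_dg, ec_dg, ed_dg, map_zero, sM_diag, dt_dg,
    Matrix.diagonal_apply]
  split_ifs with h
  · subst h
    simp [SB3_phi]
  · obtain ⟨s, hs⟩ := Function.ne_iff.1 h
    exact Finset.prod_eq_zero (Finset.mem_univ s) (by rw [if_neg hs, mul_zero])

theorem SB3_upper {x : F} (hx : x ≠ 0) (j : ∀ s, Fin (d s + 1)) :
    aM κ d m (uu x) (fun s => Fin.last (d s)) j ≠ 0 := by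
  simp only [aM, Matrix.of_apply, SB3_map, ea_uu, eb_uu, ec_uu, ed_uu, map_zero, map_one, dt_uu,
    sM_upper_top]
  exact Finset.prod_ne_zero_iff.2 fun s _ => by simp [hx]

theorem SB3_lower [CharZero E] {x : F} (hx : x ≠ 0) (i : ∀ s, Fin (d s + 1)) :
    aM κ d m (ll x) i (fun s => Fin.last (d s)) ≠ 0 := by
  simp only [aM, Matrix.of_apply, SB3_map, ea_ll, eb_ll, ec_ll, ed_ll, map_zero, map_one, dt_ll,
    sM_lower_last]
  refine Finset.prod_ne_zero_iff.2 fun s _ => ?_
  have : (d s).choose (i s) ≠ 0 := (Nat.choose_pos (Nat.lt_succ_iff.1 (i s).2)).ne'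
  simp [hx, this]

end entries

theorem SB3_top {I E : Type*} [Fintype I] [DecidableEq I] [Field E]
    (T : Submodule E (Matrix I I E)) (hm : ∀ A ∈ T, ∀ B ∈ T, A * B ∈ T)
    (hd : ∀ i, Matrix.single i i (1 : E) ∈ T) (t : I) {A B : Matrix I I E} (hA : A ∈ T)
    (hB : B ∈ T) (hA' : ∀ j, A t j ≠ 0) (hB' : ∀ i, B i t ≠ 0) : T = ⊤ := by
  have key : ∀ M ∈ T, ∀ i j, Matrix.single i j (M i j) ∈ T := fun M hM i j => by
    have := hm _ (hm _ (hd i) _ hM) _ (hd j)
    simpa using this
  rw [eq_top_iff]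
  intro M _
  rw [Matrix.matrix_eq_sum_single M]
  refine T.sum_mem fun i _ => T.sum_mem fun j _ => ?_
  have h1 := hm _ (key B hB i t) _ (key A hA t j)
  rw [Matrix.single_mul_single_same] at h1
  have h2 := T.smul_mem (M i j / (B i t * A t j)) h1
  rwa [Matrix.smul_single, smul_eq_mul, div_mul_cancel₀ _ (mul_ne_zero (hB' i) (hA' j))] at h2

theorem burnside {ι F E : Type*} [Fintype ι] [DecidableEq ι] [NormedField F] [IsUltrametricDist F]
    [Field E] [CharZero E] (κ : ι → F →+* E) (hκ : Function.Injective κ) (p : ℕ)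
    (hp0 : (p : F) ≠ 0) (hp : ‖(p : F)‖ < 1) (d : ι → ℕ) (m : ι → ℤ)
    (ρ : Representation E (GL (Fin 2) F) ((∀ s, Fin (d s + 1)) → E))
    (hρ : ∀ g v, ρ g v = (aM κ d m g).mulVec v) (r : ℝ) (hr : 0 < r) :
    Submodule.span E {f | ∃ k, Near r k ∧ f = ρ k} = ⊤ := by
  wlog hr1 : r ≤ 1 generalizing r
  · rw [eq_top_iff, ← this 1 one_pos le_rfl]
    exact Submodule.span_mono fun f ⟨k, hk, e⟩ => ⟨k, hk.mono (not_le.1 hr1).le, e⟩
  set A := Submodule.span E {f | ∃ k, Near r k ∧ f = ρ k} with hA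
  have hρ' : ∀ g, Matrix.toLin' (aM κ d m g) = ρ g := fun g =>
    LinearMap.ext fun v => by rw [hρ, Matrix.toLin'_apply]
  have hmul : ∀ f ∈ A, ∀ g ∈ A, f * g ∈ A := by
    intro f hf g hg
    induction hf using Submodule.span_induction with
    | zero => simp
    | add _ _ _ _ h1 h2 => rw [add_mul]; exact A.add_mem h1 h2
    | smul c _ _ h1 => rw [smul_mul_assoc]; exact A.smul_mem c h1
    | mem f hf =>
      induction hg using Submodule.span_induction with
      | zero => simp
      | add _ _ _ _ h1 h2 => rw [mul_add]; exact A.add_mem h1 h2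
      | smul c _ _ h1 => rw [mul_smul_comm]; exact A.smul_mem c h1
      | mem g hg =>
        obtain ⟨k, hk, rfl⟩ := hf
        obtain ⟨k', hk', rfl⟩ := hg
        exact Submodule.subset_span ⟨k * k', SB3_near hr1 hk hk', (map_mul ρ k k').symm⟩
  let T := A.comap (Matrix.toLin' (R := E) (m := ∀ s, Fin (d s + 1))
    (n := ∀ s, Fin (d s + 1))).toLinearMap
  have hT : ∀ M, M ∈ T ↔ Matrix.toLin' M ∈ A := fun M => Iff.rfl
  have hk : ∀ k, Near r k → aM κ d m k ∈ T := fun k hk => by
    rw [hT, hρ']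
    exact Submodule.subset_span ⟨k, hk, rfl⟩
  have li := (linearIndependent_monoidHom (SB3_U (F := F) hr hr1) E).comp
    (fun i => (SB3_phi κ d m i).comp (SB3_U hr hr1).subtype) (by
      intro i j e
      have h1 : (fun s => (i s : ℕ)) = fun s => (j s : ℕ) := by
        refine exponents_eq κ hκ p hp0 hp r hr _ _ fun x hx => ?_
        have hx0 : x ≠ 0 := by
          rintro rfl
          simp at hx
          linarith
        have h2 : ∏ s, κ s x ^ m s * κ s x ^ (i s : ℕ) = ∏ s, κ s x ^ m s * κ s x ^ (j s : ℕ) :=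
          DFunLike.congr_fun e ⟨Units.mk0 x hx0, hx⟩
        rw [Finset.prod_mul_distrib, Finset.prod_mul_distrib] at h2
        exact mul_left_cancel₀ (Finset.prod_ne_zero_iff.2 fun s _ =>
          zpow_ne_zero _ ((map_ne_zero _).2 hx0)) h2
      funext s
      exact Fin.ext (congrFun h1 s))
  have hdiag : T.comap (Matrix.diagonalLinearMap _ E E) = ⊤ := by
    rw [eq_top_iff, ← span_flip_eq_top_iff_linearIndependent.2 li, Submodule.span_le]
    rintro _ ⟨x, rfl⟩
    have hx : ‖(x.1 : F) - 1‖ < r := x.2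
    have := hk (dg x.1 1) (by
      rw [near_iff]
      simpa [hr] using hx)
    rw [SB3_diag] at this
    exact this
  obtain ⟨N, hN⟩ := exists_pow_lt_of_lt_one hr hp
  have hx : ‖(p : F) ^ N‖ < r := by rwa [norm_pow]
  have hx0 : (p : F) ^ N ≠ 0 := pow_ne_zero _ hp0
  have htop : T = ⊤ := by
    refine SB3_top T (fun M hM M' hM' => ?_) (fun i => ?_) (fun s => Fin.last (d s))
      (hk (uu ((p : F) ^ N)) (by rw [near_iff]; simpa [hr] using hN))
      (hk (ll ((p : F) ^ N)) (by rw [near_iff]; simpa [hr] using hN))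
      (SB3_upper κ d m hx0) (SB3_lower κ d m hx0)
    · rw [hT, Matrix.toLin'_mul]
      exact hmul _ hM _ hM'
    · have : Pi.single i (1 : E) ∈ T.comap (Matrix.diagonalLinearMap _ E E) := by
        rw [hdiag]
        trivial
      rw [← Matrix.diagonal_single]
      exact this
  rw [eq_top_iff]
  intro f _
  have : Matrix.toLin'.symm f ∈ T := htop ▸ Submodule.mem_top
  rwa [hT, LinearEquiv.apply_symm_apply] at this

end Pool.Agent.MP_4d0c14_nt
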