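import Pool.Agent.MP_4d0c14_nt.Loc

/-! The character `lam`, the vector `f0`. -/

namespace Pool.Agent.MP_4d0c14_nt

theorem SC1_add {F E : Type*} [NormedField F] [Field E] {χ : Fˣ →* Eˣ} {q : ℝ}
    (hχ : ∀ y : F, ‖y‖ ≤ q → ch χ (1 + y) = 1) (x z : F) (h : ‖z‖ ≤ q * ‖x‖) :
    ch χ (x + z) = ch χ x := by
  by_cases hx : x = 0
  · rw [hx, norm_zero, mul_zero, norm_le_zero_iff] at h
    rw [h, add_zero]
  · have h1 : x + z = x * (1 + z / x) := by field_simp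
    rw [h1, ch_mul, hχ, mul_one]
    rwa [norm_div, div_le_iff₀ (norm_pos_iff.2 hx)]

theorem SC1_norm {F : Type*} [NormedField F] [IsUltrametricDist F] {x z : F} (h : ‖z‖ < ‖x‖) :
    ‖x + z‖ = ‖x‖ := by
  rw [IsUltrametricDist.norm_add_eq_max_of_norm_ne_norm h.ne', max_eq_left h.le]

namespace LD

variable {F E : Type*} [NormedField F] [IsUltrametricDist F] [Field E] (D : LD F E)

omit [IsUltrametricDist F] in
theorem exists_norm_eq_zpow (x : F) (hx : x ≠ 0) : ∃ n : ℤ, ‖x‖ = ‖(D.ϖ : F)‖ ^ n := by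
  have hp := D.ϖ_pos
  obtain ⟨n, h1, h2⟩ := exists_mem_Ioc_zpow (norm_pos_iff.2 hx) ((one_lt_inv₀ hp).2 D.ϖ_lt)
  have hz : 0 < ‖(D.ϖ : F)‖ ^ (n + 1) := zpow_pos hp _
  have h3 : ‖x * (D.ϖ : F) ^ (n + 1)‖ = ‖x‖ * ‖(D.ϖ : F)‖ ^ (n + 1) := by
    rw [norm_mul, norm_zpow]
  have h4 : ‖x‖ * ‖(D.ϖ : F)‖ ^ (n + 1) ≤ 1 := by
    rwa [inv_zpow, ← one_div, le_div_iff₀ hz] at h2
  have h5 : ‖(D.ϖ : F)‖ < ‖x‖ * ‖(D.ϖ : F)‖ ^ (n + 1) := by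
    rw [inv_zpow, ← one_div, div_lt_iff₀ (zpow_pos hp _)] at h1
    rw [zpow_add_one₀ hp.ne', ← mul_assoc]
    exact lt_mul_of_one_lt_left hp h1
  have h6 : ‖x‖ * ‖(D.ϖ : F)‖ ^ (n + 1) = 1 := by
    refine h4.antisymm (not_lt.1 fun k => ?_)
    have := D.ϖ_max _ (h3 ▸ k)
    rw [h3] at this
    exact this.not_gt h5
  exact ⟨-(n + 1), by rw [zpow_neg]; exact eq_inv_of_mul_eq_one_left h6⟩

omit [IsUltrametricDist F] in
theorem lam_one : D.lam 1 = 1 := by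
  simp [lam]

omit [IsUltrametricDist F] in
theorem SC1_ea {χ : Fˣ →* Eˣ} (hχ : ∀ y : F, ‖y‖ ≤ ‖(D.ϖ : F)‖ ^ D.c → ch χ (1 + y) = 1)
    {h k : GL (Fin 2) F} (hh : D.InH h) (hk : D.InH k) :
    ch χ (ea (h * k)) = ch χ (ea h) * ch χ (ea k) := by
  rw [ea_mul, SC1_add hχ, ch_mul]
  rw [norm_mul, norm_mul, mul_left_comm]
  exact mul_le_mul hh.1 hk.2.1 (norm_nonneg _) (norm_nonneg _)

theorem SC1_dt {χ : Fˣ →* Eˣ} (hχ : ∀ y : F, ‖y‖ ≤ ‖(D.ϖ : F)‖ ^ D.c → ch χ (1 + y) = 1)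
    {h : GL (Fin 2) F} (hh : D.InH h) : ch χ (dt h) = ch χ (ea h) * ch χ (ed h) := by
  rw [dt, sub_eq_add_neg, SC1_add hχ, ch_mul]
  rw [norm_neg, norm_mul (ea h), hh.norm_ed, ← sq]
  exact hh.bc_le

theorem lam_mul (h : GL (Fin 2) F) (hh : h ∈ D.H) (k : GL (Fin 2) F) (hk : k ∈ D.H) :
    D.lam (h * k) = D.lam h * D.lam k := by
  simp only [lam, ch_div, dt_mul, ch_mul, D.SC1_ea D.ch₁ hh hk, D.SC1_ea D.ch₂ hh hk]
  ring

theorem near_mem : ∃ r : ℝ, 0 < r ∧ ∀ k : GL (Fin 2) F, Near r k → k ∈ D.H ∧ D.lam k = 1 := by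
  refine ⟨_, D.ϖc_pos, fun k hk => ?_⟩
  obtain ⟨h1, h2, h3, h4⟩ := (near_iff _ _).1 hk
  have hq := D.ϖc_lt
  have ea1 : ea k = 1 + (ea k - 1) := by ring
  have ed1 : ed k = 1 + (ed k - 1) := by ring
  have ha : ‖ea k‖ = 1 := by
    rw [ea1, SC1_norm (by rw [norm_one]; exact h1.trans hq), norm_one]
  have hd : ‖ed k‖ = 1 := by
    rw [ed1, SC1_norm (by rw [norm_one]; exact h4.trans hq), norm_one]
  have hH : D.InH k := by
    refine ⟨ha ▸ (h2.trans hq).le, by rw [ha, mul_one]; exact h3.le, ?_⟩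
    rw [dt, sub_eq_add_neg, SC1_norm, norm_mul, ha, hd, mul_one, one_pow]
    rw [norm_neg, norm_mul, norm_mul, ha, hd]
    exact mul_lt_mul'' (h2.trans hq) (h3.trans hq) (norm_nonneg _) (norm_nonneg _)
  refine ⟨hH, ?_⟩
  have a1 : ch D.χ₁ (ea k) = 1 := by rw [ea1]; exact D.ch₁ _ h1.le
  have a2 : ch D.χ₂ (ea k) = 1 := by rw [ea1]; exact D.ch₂ _ h1.le
  have d2 : ch D.χ₂ (ed k) = 1 := by rw [ed1]; exact D.ch₂ _ h4.le
  rw [lam, ch_div, D.SC1_dt D.ch₂ hH, a1, a2, d2]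
  simp

omit [IsUltrametricDist F] in
theorem f0_one : D.f0 1 = 1 := by
  simp [f0, D.ϖc_pos.le]

theorem SC1_cond {x h : GL (Fin 2) F} (hx : ‖ec x‖ ≤ ‖(D.ϖ : F)‖ ^ D.c * ‖ed x‖)
    (hh : D.InH h) : ‖ec (x * h)‖ ≤ ‖(D.ϖ : F)‖ ^ D.c * ‖ed (x * h)‖ ∧
      ∀ χ : Fˣ →* Eˣ, (∀ y : F, ‖y‖ ≤ ‖(D.ϖ : F)‖ ^ D.c → ch χ (1 + y) = 1) →
        ch χ (ed (x * h)) = ch χ (ed x) * ch χ (ed h) := by
  have hd : ed x ≠ 0 := fun h0 => by
    rw [h0, norm_zero, mul_zero, norm_le_zero_iff] at hx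
    exact dt_ne_zero x (by rw [dt, h0, hx, mul_zero, mul_zero, sub_zero])
  have h1 : ‖ec x * eb h‖ ≤ ‖(D.ϖ : F)‖ ^ D.c * ‖ed x * ed h‖ := by
    rw [norm_mul, norm_mul, hh.norm_ed, ← mul_assoc]
    exact mul_le_mul hx hh.1 (norm_nonneg _) ((norm_nonneg _).trans hx)
  have h2 : 0 < ‖ed x * ed h‖ := by
    rw [norm_mul, hh.norm_ed]
    exact mul_pos (norm_pos_iff.2 hd) hh.ea_pos
  have h3 : ‖ed (x * h)‖ = ‖ed x‖ * ‖ea h‖ := by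
    rw [ed_mul, add_comm, SC1_norm (h1.trans_lt (mul_lt_of_lt_one_left h2 D.ϖc_lt)), norm_mul,
      hh.norm_ed]
  refine ⟨?_, fun χ hχ => by rw [ed_mul, add_comm, SC1_add hχ _ _ h1, ch_mul]⟩
  rw [h3, ec_mul]
  refine (IsUltrametricDist.norm_add_le_max _ _).trans (max_le ?_ ?_)
  · rw [norm_mul, ← mul_assoc]
    exact mul_le_mul_of_nonneg_right hx (norm_nonneg _)
  · rw [norm_mul, mul_left_comm]
    exact mul_le_mul_of_nonneg_left hh.2.1 (norm_nonneg _)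

theorem f0_mul_H (x h : GL (Fin 2) F) (hh : h ∈ D.H) : D.f0 (x * h) = D.lam h * D.f0 x := by
  by_cases hx : ‖ec x‖ ≤ ‖(D.ϖ : F)‖ ^ D.c * ‖ed x‖
  · obtain ⟨h1, h2⟩ := D.SC1_cond hx hh
    have hH : D.InH h := hh
    have ha : ea h ≠ 0 := norm_pos_iff.1 hH.ea_pos
    have hd : ed h ≠ 0 := norm_pos_iff.1 (hH.norm_ed ▸ hH.ea_pos)
    have a2 := ch_ne_zero D.χ₂ ha
    have d1 := ch_ne_zero D.χ₁ hd
    rw [f0, f0, if_pos h1, if_pos hx, lam]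
    simp only [ch_div, dt_mul, ch_mul, h2 _ D.ch₁, h2 _ D.ch₂, D.SC1_dt D.ch₁ hH,
      D.SC1_dt D.ch₂ hH]
    field_simp
  · have h1 : ¬‖ec (x * h)‖ ≤ ‖(D.ϖ : F)‖ ^ D.c * ‖ed (x * h)‖ := fun k => by
      have := (D.SC1_cond k (D.H.inv_mem hh)).1
      rw [mul_inv_cancel_right] at this
      exact hx this
    rw [f0, f0, if_neg h1, if_neg hx, mul_zero]

theorem f0_mem : D.f0 ∈ psSpace D.χ₁ D.χ₂ := by
  refine ⟨fun b g a d h1 h2 h3 => ?_, ?_⟩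
  · change ea b = a at h1
    change ed b = d at h2
    change ec b = 0 at h3
    have hd : (0 : ℝ) < ‖(d : F)‖ := norm_pos_iff.2 d.ne_zero
    have e1 : ec (b * g) = d * ec g := by rw [ec_mul, h3, h2, zero_mul, zero_add]
    have e2 : ed (b * g) = d * ed g := by rw [ed_mul, h3, h2, zero_mul, zero_add]
    have e3 : dt (b * g) / (d * ed g) = a * (dt g / ed g) := by
      rw [dt_mul, dt, h1, h2, h3, mul_zero, sub_zero, mul_assoc, mul_div_assoc,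
        mul_div_mul_left _ _ d.ne_zero]
    simp only [f0, e1, e2, e3, norm_mul, mul_left_comm _ ‖(d : F)‖, mul_le_mul_iff_right₀ hd,
      ch_mul, ch_units]
    split_ifs
    · ring
    · rw [mul_zero]
  · obtain ⟨r, hr, h⟩ := D.near_mem
    exact ⟨r, hr, fun k g hk => by rw [D.f0_mul_H g k (h k hk).1, (h k hk).2, one_mul]⟩

theorem f0_sum (x : GL (Fin 2) F) : ∑ r ∈ D.R, D.f0 (x * D.gam r) = D.alpha * D.f0 x := by
  have e1 : ∀ r, ec (x * D.gam r) = (ec x + ed x * ((D.ϖ : F) ^ D.c * r)) / D.ϖ := fun r => by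
    simp [gam, t, dg_inv, div_eq_mul_inv, add_mul, mul_assoc]
  have e2 : ∀ r, ed (x * D.gam r) = ed x := fun r => by simp [gam, t, dg_inv]
  have e3 : ∀ r, dt (x * D.gam r) = dt x / D.ϖ := fun r => by
    simp [gam, t, div_eq_mul_inv]
  by_cases hd : ed x = 0
  · simp [f0, e2, hd]
  have hp := D.ϖ_pos
  have hq := D.ϖc_pos
  have hd' : 0 < ‖ed x‖ := norm_pos_iff.2 hd
  have hϖ : (D.ϖ : F) ^ D.c ≠ 0 := pow_ne_zero _ D.ϖ.ne_zero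
  obtain ⟨y, hy⟩ : ∃ y : F, ec x = -(ed x * (D.ϖ : F) ^ D.c * y) :=
    ⟨-ec x / (ed x * (D.ϖ : F) ^ D.c), by field_simp⟩
  have c1 : ∀ r, ‖(ec x + ed x * ((D.ϖ : F) ^ D.c * r)) / D.ϖ‖ ≤ ‖(D.ϖ : F)‖ ^ D.c * ‖ed x‖ ↔
      ‖y - r‖ ≤ ‖(D.ϖ : F)‖ := fun r => by
    have : ec x + ed x * ((D.ϖ : F) ^ D.c * r) = -((D.ϖ : F) ^ D.c * ed x * (y - r)) := by
      rw [hy]; ring
    rw [this, norm_div, norm_neg, norm_mul, norm_mul, norm_pow, div_le_iff₀ hp,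
      mul_le_mul_iff_right₀ (mul_pos hq hd')]
  have c2 : ‖ec x‖ ≤ ‖(D.ϖ : F)‖ ^ D.c * ‖ed x‖ ↔ ‖y‖ ≤ 1 := by
    rw [hy, norm_neg, norm_mul, norm_mul, norm_pow, mul_comm ‖ed x‖,
      mul_le_iff_le_one_right (mul_pos hq hd')]
  have v : ch D.χ₁ (dt x / D.ϖ / ed x) = D.alpha * ch D.χ₁ (dt x / ed x) := by
    simp only [ch_div, ch_units, alpha]
    ring
  simp only [f0, e1, e2, e3, c1, c2, v]
  split_ifs with h
  · obtain ⟨r, ⟨hr, hr'⟩, hu⟩ := D.R_rep y h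
    rw [Finset.sum_eq_single_of_mem r hr fun s hs hne => if_neg fun k => hne (hu s ⟨hs, k⟩),
      if_pos hr', mul_assoc]
  · rw [mul_zero]
    refine Finset.sum_eq_zero fun r hr => if_neg fun k => h ?_
    rw [← sub_add_cancel y r]
    exact (IsUltrametricDist.norm_add_le_max _ _).trans
      (max_le (k.trans D.ϖ_lt.le) (D.R_le r hr))

end LD

end Pool.Agent.MP_4d0c14_nt
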