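import Pool.Agent.MP_4d0c14_nt.Abs

/-! Surjectivity of the Hecke operator on the completion. -/

set_option linter.unusedSectionVars false

namespace Pool.Agent.MP_4d0c14_nt

open Filter Topology

section Aux

variable {G E J : Type*} [Group G] [Field E] {V : Type*} [AddCommGroup V] [Module E V]

theorem SD1_act_aop (ρ : Representation E G V) (S : Finset J) (γ : J → G) (α : E) (g : G)
    (z : G →₀ V) : act ρ g (aop S γ α V z) = aop S γ α V (act ρ g z) := by
  induction z using Finsupp.induction_linear with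
  | zero => simp
  | add a b ha hb => simp [ha, hb]
  | single x v => simp [map_sum, mul_assoc]

theorem SD1_act_rel (ρ : Representation E G V) (H : Subgroup G) (lam : G → E) (g : G)
    {z : G →₀ V} (hz : z ∈ relH H lam V) : act ρ g z ∈ relH H lam V := by
  induction hz using Submodule.span_induction with
  | mem x hx =>
    obtain ⟨a, h, v, hh, rfl⟩ := hx
    refine Submodule.subset_span ⟨g * a, h, ρ g v, hh, ?_⟩
    rw [map_sub, map_smul, act_single, act_single, mul_assoc]
  | zero => simp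
  | add x y _ _ hx hy => rw [map_add]; exact add_mem hx hy
  | smul a x _ hx => rw [map_smul]; exact Submodule.smul_mem _ a hx

/-- Realisation of formal sums as functions. -/
noncomputable def SD1_phi (H : Subgroup G) (lam : G → E) (V : Type*) [AddCommGroup V]
    [Module E V] (x : G) : (G →₀ V) →ₗ[E] V :=
  Finsupp.lsum E fun g => del H lam (g⁻¹ * x) • LinearMap.id

theorem SD1_phi_single (H : Subgroup G) (lam : G → E) (x g : G) (v : V) :
    SD1_phi H lam V x (Finsupp.single g v) = del H lam (g⁻¹ * x) • v := by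
  simp [SD1_phi]

theorem SD1_phi_apply (H : Subgroup G) (lam : G → E) (x : G) (z : G →₀ V) :
    SD1_phi H lam V x z = ∑ g ∈ z.support, del H lam (g⁻¹ * x) • z g := by
  simp [SD1_phi, Finsupp.sum]

end Aux

section Aux2

variable {G E ι : Type*} [Group G] [NormedField E] [IsUltrametricDist E] [Fintype ι]
  {ρ : Representation E G (ι → E)}

theorem SD1_small_zero {r : ℝ} (hr : 0 ≤ r) : Small ρ r 0 := fun g => by simpa using hr

theorem SD1_small_add {r : ℝ} {a b : G →₀ (ι → E)} (ha : Small ρ r a) (hb : Small ρ r b) :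
    Small ρ r (a + b) := fun g => by
  rw [Finsupp.add_apply, map_add]
  exact (IsUltrametricDist.norm_add_le_max _ _).trans (max_le (ha g) (hb g))

theorem SD1_small_smul {r s : ℝ} {a : G →₀ (ι → E)} (ha : Small ρ r a) {c : E} (hc : ‖c‖ ≤ s) :
    Small ρ (r * s) (c • a) := fun g => by
  rw [Finsupp.smul_apply, map_smul, norm_smul, mul_comm]
  exact mul_le_mul (ha g) hc (norm_nonneg _) ((norm_nonneg _).trans (ha g))

theorem SD1_small_exists (a : G →₀ (ι → E)) : ∃ C, 0 ≤ C ∧ Small ρ C a := by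
  refine ⟨∑ g ∈ a.support, ‖ρ g⁻¹ (a g)‖, Finset.sum_nonneg fun _ _ => norm_nonneg _, fun g => ?_⟩
  by_cases h : g ∈ a.support
  · exact Finset.single_le_sum (f := fun g => ‖ρ g⁻¹ (a g)‖) (fun _ _ => norm_nonneg _) h
  · rw [Finsupp.notMem_support_iff.1 h, map_zero, norm_zero]
    exact Finset.sum_nonneg fun _ _ => norm_nonneg _

end Aux2

namespace CoreData

variable {G E ι J : Type*} [Group G] [NontriviallyNormedField E] [IsUltrametricDist E] [Fintype ι]
  (D : CoreData G E ι J)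

theorem approx (hd : D.Dense) : ∃ C : ℝ, 0 ≤ C ∧ ∀ r : ℝ, 0 ≤ r → ∀ z, Small D.ρ r z →
    ∃ z' y, Small D.ρ (C * r) z' ∧ Small D.ρ (r / 2) y ∧
      z - y - aop D.S D.γ D.α (ι → E) z' ∈ relH D.H D.lam (ι → E) := by
  classical
  choose a a' ha ha' using fun i : ι => hd (Pi.single i 1) (1 / 2) (by norm_num)
  choose c hc0 hc using fun i : ι => SD1_small_exists (ρ := D.ρ) (a' i)
  have hC : ∀ i, Small D.ρ (∑ i, c i) (a' i) := fun i g =>
    (hc i g).trans (Finset.single_le_sum (fun j _ => hc0 j) (Finset.mem_univ i))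
  have hC0 : 0 ≤ ∑ i, c i := Finset.sum_nonneg fun j _ => hc0 j
  refine ⟨∑ i, c i, hC0, fun r hr z hz => ?_⟩
  set C := ∑ i, c i
  let P : (G →₀ (ι → E)) → Prop := fun z => ∃ z' y, Small D.ρ (C * r) z' ∧
    Small D.ρ (r / 2) y ∧ z - y - aop D.S D.γ D.α (ι → E) z' ∈ relH D.H D.lam (ι → E)
  have P0 : P 0 := ⟨0, 0, SD1_small_zero (mul_nonneg hC0 hr), SD1_small_zero (by linarith),
    by simp⟩
  have Padd : ∀ x y, P x → P y → P (x + y) := by
    rintro x y ⟨x1, x2, h1, h2, h3⟩ ⟨y1, y2, k1, k2, k3⟩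
    refine ⟨x1 + y1, x2 + y2, SD1_small_add h1 k1, SD1_small_add h2 k2, ?_⟩
    convert add_mem h3 k3 using 1
    rw [map_add]
    abel
  have Pgen : ∀ (g : G) (i : ι) (t : E), ‖t‖ ≤ r →
      P (t • act D.ρ g (Finsupp.single 1 (Pi.single i 1))) := by
    intro g i t ht
    refine ⟨t • act D.ρ g (a' i), t • act D.ρ g (a i), SD1_small_smul ((hC i).act g) ht, ?_, ?_⟩
    · have := SD1_small_smul ((ha i).act g) ht
      rwa [mul_comm, mul_one_div] at this
    · have := Submodule.smul_mem _ t (SD1_act_rel D.ρ D.H D.lam g (ha' i))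
      rwa [map_sub, map_sub, SD1_act_aop, smul_sub, smul_sub, ← map_smul (aop _ _ _ _)] at this
  have hsum : z = ∑ g ∈ z.support, ∑ i, D.ρ g⁻¹ (z g) i •
      act D.ρ g (Finsupp.single 1 (Pi.single i 1)) := by
    conv_lhs => rw [← Finsupp.sum_single z, Finsupp.sum]
    refine Finset.sum_congr rfl fun g _ => ?_
    have h1 : Finsupp.single g (z g) = act D.ρ g (Finsupp.single 1 (D.ρ g⁻¹ (z g))) := by
      rw [act_single, mul_one, ← Module.End.mul_apply, ← map_mul, mul_inv_cancel, map_one,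
        Module.End.one_apply]
    rw [h1]
    generalize D.ρ g⁻¹ (z g) = u
    conv_lhs => rw [pi_eq_sum_univ' u, Finsupp.single_finsetSum, map_sum]
    refine Finset.sum_congr rfl fun i _ => ?_
    rw [← map_smul, Finsupp.smul_single]
  change P z
  rw [hsum]
  refine Finset.sum_induction _ P Padd P0 fun g _ => Finset.sum_induction _ P Padd P0 fun i _ => ?_
  exact Pgen g i _ ((norm_le_pi_norm _ i).trans (hz g))

theorem SD1_inv {h : G} (hh : h ∈ D.H) : D.lam h * D.lam h⁻¹ = 1 := by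
  rw [← D.lam_mul h hh _ (inv_mem hh), mul_inv_cancel, D.lam_one]

theorem SD1_del_right (x : G) {h : G} (hh : h ∈ D.H) :
    D.lam h * del D.H D.lam (x * h) = del D.H D.lam x := by
  have h0 : D.lam h ≠ 0 := left_ne_zero_of_mul_eq_one (D.SD1_inv hh)
  unfold del
  by_cases hx : x ∈ D.H
  · rw [if_pos hx, if_pos (mul_mem hx hh), D.lam_mul x hx h hh]
    field_simp
  · rw [if_neg hx, if_neg (fun h' => hx ((Subgroup.mul_mem_cancel_right _ hh).1 h')), mul_zero]

theorem SD1_del_left (x : G) {h : G} (hh : h ∈ D.H) :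
    del D.H D.lam (h⁻¹ * x) = D.lam h * del D.H D.lam x := by
  unfold del
  by_cases hx : x ∈ D.H
  · rw [if_pos hx, if_pos (mul_mem (inv_mem hh) hx), D.lam_mul _ (inv_mem hh) x hx, mul_inv,
      ← eq_inv_of_mul_eq_one_left (D.SD1_inv hh)]
  · rw [if_neg hx, if_neg (fun h' => hx ((Subgroup.mul_mem_cancel_left _ (inv_mem hh)).1 h')),
      mul_zero]

theorem SD1_phi_rel (x : G) {z : G →₀ (ι → E)} (hz : z ∈ relH D.H D.lam (ι → E)) :
    SD1_phi D.H D.lam (ι → E) x z = 0 := by
  induction hz using Submodule.span_induction with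
  | mem y hy =>
    obtain ⟨a, h, v, hh, rfl⟩ := hy
    rw [map_sub, map_smul, SD1_phi_single, SD1_phi_single, mul_inv_rev, mul_assoc,
      D.SD1_del_left _ hh, mul_smul, sub_self]
  | zero => simp
  | add a b _ _ ha hb => rw [map_add, ha, hb, add_zero]
  | smul a y _ hy => rw [map_smul, hy, smul_zero]

theorem SD1_phi_eqv (x : G) {h : G} (hh : h ∈ D.H) (z : G →₀ (ι → E)) :
    D.lam h • SD1_phi D.H D.lam (ι → E) (x * h) z = SD1_phi D.H D.lam (ι → E) x z := by
  rw [SD1_phi_apply, SD1_phi_apply, Finset.smul_sum]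
  refine Finset.sum_congr rfl fun g _ => ?_
  rw [← mul_smul, ← mul_assoc, D.SD1_del_right _ hh]

theorem SD1_phi_aop (x : G) (z : G →₀ (ι → E)) :
    SD1_phi D.H D.lam (ι → E) x (aop D.S D.γ D.α (ι → E) z) =
      ∑ j ∈ D.S, SD1_phi D.H D.lam (ι → E) (x * D.δ j) z -
        D.α • SD1_phi D.H D.lam (ι → E) x z := by
  induction z using Finsupp.induction_linear with
  | zero => simp
  | add a b ha hb =>
    simp only [map_add, ha, hb, Finset.sum_add_distrib, smul_add]
    abel
  | single g v =>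
    rw [aop_single, map_sub, map_sum, map_smul]
    simp only [SD1_phi_single]
    rw [← Finset.sum_smul, ← Finset.sum_smul]
    congr 2
    have := D.hU (g⁻¹ * x)
    simp only [mul_inv_rev, mul_assoc] at this ⊢
    exact this.symm

theorem SD1_phi_small {r : ℝ} (hr : 0 ≤ r) (x : G) {z : G →₀ (ι → E)} (hz : Small D.ρ r z) :
    ‖D.ρ x⁻¹ (SD1_phi D.H D.lam (ι → E) x z)‖ ≤ r := by
  rw [SD1_phi_apply, map_sum]
  refine IsUltrametricDist.norm_sum_le_of_forall_le_of_nonneg hr fun g _ => ?_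
  rw [map_smul]
  unfold del
  by_cases hx : g⁻¹ * x ∈ D.H
  · rw [if_pos hx, ← eq_inv_of_mul_eq_one_right (D.SD1_inv hx)]
    have h1 : D.ρ x⁻¹ (z g) = D.ρ (g⁻¹ * x)⁻¹ (D.ρ g⁻¹ (z g)) := by
      rw [← Module.End.mul_apply, ← map_mul]
      simp
    rw [h1, D.iso _ (inv_mem hx)]
    exact hz g
  · rw [if_neg hx, zero_smul, norm_zero]
    exact hr

theorem SD1_phi_zero (x : G) {z : G →₀ (ι → E)} (hz : ∀ s ∈ z.support, s⁻¹ * x ∉ D.H) :
    SD1_phi D.H D.lam (ι → E) x z = 0 := by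
  rw [SD1_phi_apply]
  refine Finset.sum_eq_zero fun g hg => ?_
  unfold del
  rw [if_neg (hz g hg), zero_smul]

theorem exists_sol [CompleteSpace E] (hd : D.Dense) (v : ι → E) :
    ∃ y : G → ι → E, D.Bdd y ∧ D.Eqv y ∧ D.Dec y ∧
      ∀ x, ∑ j ∈ D.S, y (x * D.δ j) - D.α • y x = del D.H D.lam x • v := by
  classical
  obtain ⟨C, hC0, hC⟩ := D.approx hd
  choose! f₁ f₂ h₁ h₂ h₃ using hC
  let R : ℕ → ℝ := fun k => ‖v‖ * (1 / 2) ^ k
  have hR : ∀ k, 0 ≤ R k := fun k => mul_nonneg (norm_nonneg v) (pow_nonneg (by norm_num) k)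
  let Y : ℕ → G →₀ (ι → E) := fun k => Nat.rec (Finsupp.single 1 v) (fun k y => f₂ (R k) y) k
  have hY : ∀ k, Small D.ρ (R k) (Y k) := by
    intro k
    induction k with
    | zero =>
      intro g
      change ‖D.ρ g⁻¹ ((Finsupp.single 1 v : G →₀ (ι → E)) g)‖ ≤ ‖v‖ * (1 / 2) ^ 0
      by_cases hg : g = 1
      · subst hg; simp
      · rw [Finsupp.single_eq_of_ne hg]; simp
    | succ k ih =>
      have := h₂ _ (hR k) _ ih
      have e : R k / 2 = R (k + 1) := by simp only [R]; ring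
      rwa [e] at this
  let Z : ℕ → G →₀ (ι → E) := fun k => f₁ (R k) (Y k)
  have hZ : ∀ k, Small D.ρ (C * R k) (Z k) := fun k => h₁ _ (hR k) _ (hY k)
  let Φ := SD1_phi D.H D.lam (ι → E)
  have hrel : ∀ k x, Φ x (aop D.S D.γ D.α (ι → E) (Z k)) = Φ x (Y k) - Φ x (Y (k + 1)) := by
    intro k x
    have := D.SD1_phi_rel x (h₃ _ (hR k) _ (hY k))
    rw [map_sub, map_sub, sub_eq_zero] at this
    exact this.symm
  have hu : ∀ k x, ‖D.ρ x⁻¹ (Φ x (Z k))‖ ≤ C * R k := fun k x =>
    D.SD1_phi_small (mul_nonneg hC0 (hR k)) x (hZ k)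
  have hgeo : Summable fun k : ℕ => C * R k :=
    (summable_geometric_two.mul_left ‖v‖).mul_left C
  have hs : ∀ x, Summable fun k => D.ρ x⁻¹ (Φ x (Z k)) := fun x =>
    Summable.of_norm_bounded hgeo fun k => hu k x
  have hinv : ∀ x u, D.ρ x (D.ρ x⁻¹ u) = u := fun x u => by
    rw [← Module.End.mul_apply, ← map_mul, mul_inv_cancel, map_one, Module.End.one_apply]
  have hinv' : ∀ x u, D.ρ x⁻¹ (D.ρ x u) = u := fun x u => by
    have := hinv x⁻¹ u
    rwa [inv_inv] at this
  let y : G → ι → E := fun x => D.ρ x (∑' k, D.ρ x⁻¹ (Φ x (Z k)))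
  have hy : ∀ x, HasSum (fun k => Φ x (Z k)) (y x) := fun x => by
    have := (hs x).hasSum.map (D.ρ x) (D.ρ x).continuous_on_pi
    simpa only [Function.comp_def, hinv] using this
  have hRle : ∀ k n, n ≤ k → C * R k ≤ C * R n := fun k n h =>
    mul_le_mul_of_nonneg_left (mul_le_mul_of_nonneg_left
      (pow_le_pow_of_le_one (by norm_num) (by norm_num) h) (norm_nonneg v)) hC0
  refine ⟨y, ⟨C * R 0, fun x => ?_⟩, fun x h hh => ?_, fun ε hε => ?_, fun x => ?_⟩
  · rw [hinv']
    exact IsUltrametricDist.norm_tsum_le_of_forall_le_of_nonneg (mul_nonneg hC0 (hR 0))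
      fun k => (hu k x).trans (hRle k 0 (Nat.zero_le k))
  · have h1 := (hy (x * h)).const_smul (D.lam h)
    simp only [Φ, D.SD1_phi_eqv x hh] at h1
    exact h1.unique (hy x)
  · obtain ⟨n, hn⟩ := (hgeo.tendsto_atTop_zero.eventually (ge_mem_nhds hε)).exists
    refine ⟨(Finset.range n).biUnion fun k => (Z k).support, fun x hx => ?_⟩
    rw [hinv']
    refine IsUltrametricDist.norm_tsum_le_of_forall_le_of_nonneg hε.le fun k => ?_
    by_cases hk : k < n
    · have : Φ x (Z k) = 0 := D.SD1_phi_zero x fun s hs' =>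
        hx s (Finset.mem_biUnion.2 ⟨k, Finset.mem_range.2 hk, hs'⟩)
      rw [this, map_zero, norm_zero]
      exact hε.le
    · exact (hu k x).trans ((hRle k n (not_lt.1 hk)).trans hn)
  · have h1 := (hasSum_sum fun j (_ : j ∈ D.S) => hy (x * D.δ j)).sub ((hy x).const_smul D.α)
    have h2 : ∀ k, ∑ j ∈ D.S, Φ (x * D.δ j) (Z k) - D.α • Φ x (Z k) =
        Φ x (Y k) - Φ x (Y (k + 1)) := fun k => by
      rw [← hrel]
      exact (D.SD1_phi_aop x (Z k)).symm
    simp only [h2] at h1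
    have h3 := h1.tendsto_sum_nat
    simp only [Finset.sum_range_sub' fun k => Φ x (Y k)] at h3
    have h4 : Tendsto (fun k => D.ρ x⁻¹ (Φ x (Y k))) atTop (𝓝 0) :=
      squeeze_zero_norm (fun k => D.SD1_phi_small (hR k) x (hY k))
        (summable_geometric_two.mul_left ‖v‖).tendsto_atTop_zero
    have h5 := ((D.ρ x).continuous_on_pi.tendsto 0).comp h4
    simp only [Function.comp_def, hinv, map_zero] at h5
    have h6 := tendsto_nhds_unique h3 (tendsto_const_nhds.sub h5)
    rw [h6, sub_zero]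
    change SD1_phi D.H D.lam (ι → E) x (Finsupp.single 1 v) = _
    rw [SD1_phi_single, inv_one, one_mul]

end CoreData

end Pool.Agent.MP_4d0c14_nt
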