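import Mathlib

/-!
Statement-level definitions for the Breuil-Schneider conjecture for GL(2, F):
algebraic representations, smooth characters, smooth principal series.
-/

namespace Pool.Agent.MP_4d0c14_nt

open scoped TensorProduct
open MvPolynomial

/-- The linear substitution `X j ↦ ∑ i, g i j * X i` on polynomials in two variables. -/
noncomputable def subst {E : Type*} [Field E] (g : Matrix (Fin 2) (Fin 2) E) :
    MvPolynomial (Fin 2) E →ₐ[E] MvPolynomial (Fin 2) E :=
  aeval fun j => ∑ i, C (g i j) * X i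

theorem subst_mem {E : Type*} [Field E] (g : Matrix (Fin 2) (Fin 2) E) (d : ℕ)
    (P : MvPolynomial (Fin 2) E) (hP : P ∈ homogeneousSubmodule (Fin 2) E d) :
    (subst g).toLinearMap P ∈ homogeneousSubmodule (Fin 2) E d := by
  rw [mem_homogeneousSubmodule] at hP ⊢
  have h : ∀ j, (∑ i, C (g i j) * X i : MvPolynomial (Fin 2) E).IsHomogeneous 1 := fun j =>
    IsHomogeneous.sum _ _ _ fun i _ => (isHomogeneous_X E i).C_mul _
  simpa [subst] using hP.aeval _ h

theorem subst_one {E : Type*} [Field E] :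
    subst (1 : Matrix (Fin 2) (Fin 2) E) = AlgHom.id E _ := by
  apply MvPolynomial.algHom_ext
  intro j
  fin_cases j <;> simp [subst, Fin.sum_univ_two]

theorem subst_mul {E : Type*} [Field E] (g h : Matrix (Fin 2) (Fin 2) E) :
    subst (g * h) = (subst g).comp (subst h) := by
  apply MvPolynomial.algHom_ext
  intro j
  simp only [subst, AlgHom.comp_apply, aeval_X, map_add, map_mul, aeval_C, Fin.sum_univ_two,
    Matrix.mul_apply, algebraMap_eq]
  ring

/-- `GL(2, F)` acts on polynomials in two variables over `E` by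
`g • P = κ(det g)^m * P(substituted by κ(g))`. -/
noncomputable def polyRep {F E : Type} [Field F] [Field E] (κ : F →+* E) (m : ℤ) :
    Representation E (GL (Fin 2) F) (MvPolynomial (Fin 2) E) where
  toFun g := (κ (g : Matrix (Fin 2) (Fin 2) F).det) ^ m •
    (subst ((g : Matrix (Fin 2) (Fin 2) F).map κ)).toLinearMap
  map_one' := by
    refine LinearMap.ext fun P => ?_
    simp [subst_one]
  map_mul' g h := by
    refine LinearMap.ext fun P => ?_
    simp [Matrix.map_mul, subst_mul, mul_zpow, smul_smul, mul_comm]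

theorem polyRep_le {F E : Type} [Field F] [Field E] (κ : F →+* E) (d : ℕ) (m : ℤ)
    (g : GL (Fin 2) F) :
    homogeneousSubmodule (Fin 2) E d ≤ (homogeneousSubmodule (Fin 2) E d).comap (polyRep κ m g) :=
  fun P hP => Submodule.smul_mem _ _ (subst_mem _ d P hP)

/-- `(Sym^d ⊗ det^m) ∘ κ`, realised on binary forms of degree `d`. -/
noncomputable def symDet {F E : Type} [Field F] [Field E] (κ : F →+* E) (d : ℕ) (m : ℤ) :
    Rep E (GL (Fin 2) F) :=
  Rep.of ((polyRep κ m).subrepresentation (homogeneousSubmodule (Fin 2) E d) (polyRep_le κ d m))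

theorem piMap_one {ι G E : Type} [Monoid G] [Field E] (A : ι → Rep E G) :
    (PiTensorProduct.map fun i => (A i).ρ 1) = 1 := by
  simp only [map_one]
  exact PiTensorProduct.map_one

theorem piMap_mul {ι G E : Type} [Monoid G] [Field E] (A : ι → Rep E G) (g h : G) :
    (PiTensorProduct.map fun i => (A i).ρ (g * h)) =
      (PiTensorProduct.map fun i => (A i).ρ g) * PiTensorProduct.map fun i => (A i).ρ h := by
  simp only [map_mul]
  exact PiTensorProduct.map_mul _ _

/-- The tensor product of a family of representations. -/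
noncomputable def piRep {ι G E : Type} [Monoid G] [Field E] (A : ι → Rep E G) : Rep E G :=
  Rep.of (X := ⨂[E] i, (A i).V)
    { toFun := fun g => PiTensorProduct.map fun i => (A i).ρ g
      map_one' := piMap_one A
      map_mul' := piMap_mul A }

/-- The algebraic representation `⊗_κ (Sym^(d κ) ⊗ det^(m κ)) ∘ κ` of `GL(2, F)` over `E`, the
tensor product running over all `K`-embeddings `κ : F → E`. -/
noncomputable def algebraicRep {K F E : Type} [Field K] [Field F] [Field E] [Algebra K F]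
    [Algebra K E] (d : (F →ₐ[K] E) → ℕ) (m : (F →ₐ[K] E) → ℤ) : Rep E (GL (Fin 2) F) :=
  piRep fun κ : F →ₐ[K] E => symDet κ.toRingHom (d κ) (m κ)

/-- A character of `Fˣ` is smooth if it is trivial near `1`. -/
def IsSmoothChar {F E : Type*} [NormedField F] [Field E] (χ : Fˣ →* Eˣ) : Prop :=
  ∃ r : ℝ, 0 < r ∧ ∀ x : Fˣ, ‖(x : F) - 1‖ < r → χ x = 1

/-- All entries of `k - 1` have norm less than `r`. -/
def Near {F : Type*} [NormedField F] (r : ℝ) (k : GL (Fin 2) F) : Prop :=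
  ∀ i j, ‖((k : Matrix (Fin 2) (Fin 2) F) - 1) i j‖ < r

theorem Near.mono {F : Type*} [NormedField F] {r s : ℝ} {k : GL (Fin 2) F} (h : Near r k)
    (hrs : r ≤ s) : Near s k := fun i j => (h i j).trans_le hrs

theorem exists_small_mul {F : Type*} [NormedField F] (A B : Matrix (Fin 2) (Fin 2) F) {r : ℝ}
    (hr : 0 < r) : ∃ s : ℝ, 0 < s ∧ ∀ Y : Matrix (Fin 2) (Fin 2) F, (∀ i j, ‖Y i j‖ < s) →
      ∀ i j, ‖(A * Y * B) i j‖ < r := by
  have hnn : ∀ i a b j, 0 ≤ ‖A i a‖ * ‖B b j‖ := fun _ _ _ _ =>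
    mul_nonneg (norm_nonneg _) (norm_nonneg _)
  obtain ⟨T, hT⟩ := (Set.finite_range
    fun x : Fin 2 × Fin 2 => ∑ a, ∑ b, ‖A x.1 a‖ * ‖B b x.2‖).bddAbove
  have h3 : ∀ i j, ∑ a, ∑ b, ‖A i a‖ * ‖B b j‖ ≤ T := fun i j => hT ⟨(i, j), rfl⟩
  have hT0 : 0 ≤ T := le_trans (Finset.sum_nonneg fun a _ => Finset.sum_nonneg fun b _ =>
    hnn 0 a b 0) (h3 0 0)
  have hs : 0 < r / (T + 1) := div_pos hr (by linarith)
  refine ⟨r / (T + 1), hs, fun Y hY i j => ?_⟩
  have h2 : (A * Y * B) i j = ∑ a, ∑ b, A i a * Y a b * B b j := by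
    simp only [Matrix.mul_apply, Finset.sum_mul]
    exact Finset.sum_comm
  calc ‖(A * Y * B) i j‖ ≤ ∑ a, ∑ b, ‖A i a‖ * ‖B b j‖ * (r / (T + 1)) := by
        rw [h2]
        refine (norm_sum_le _ _).trans (Finset.sum_le_sum fun a _ =>
          (norm_sum_le _ _).trans (Finset.sum_le_sum fun b _ => ?_))
        rw [norm_mul, norm_mul]
        calc ‖A i a‖ * ‖Y a b‖ * ‖B b j‖ = ‖A i a‖ * ‖B b j‖ * ‖Y a b‖ := by ring
          _ ≤ _ := mul_le_mul_of_nonneg_left (hY a b).le (hnn _ _ _ _)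
    _ = (∑ a, ∑ b, ‖A i a‖ * ‖B b j‖) * (r / (T + 1)) := by simp only [Finset.sum_mul]
    _ ≤ T * (r / (T + 1)) := mul_le_mul_of_nonneg_right (h3 i j) hs.le
    _ < (T + 1) * (r / (T + 1)) := mul_lt_mul_of_pos_right (by linarith) hs
    _ = r := by field_simp

theorem exists_near_conj {F : Type*} [NormedField F] (g : GL (Fin 2) F) {r : ℝ} (hr : 0 < r) :
    ∃ s : ℝ, 0 < s ∧ ∀ k : GL (Fin 2) F, Near s k → Near r (g⁻¹ * k * g) := by
  obtain ⟨s, hs, h⟩ := exists_small_mul ((g⁻¹ : GL (Fin 2) F) : Matrix (Fin 2) (Fin 2) F)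
    (g : Matrix (Fin 2) (Fin 2) F) hr
  refine ⟨s, hs, fun k hk i j => ?_⟩
  have h1 := h _ hk i j
  rwa [Matrix.mul_sub, Matrix.sub_mul, Matrix.mul_one, ← Units.val_mul, ← Units.val_mul,
    ← Units.val_mul, inv_mul_cancel, Units.val_one] at h1

/-- The space of the smooth (unnormalised) principal series `Ind_B^G (χ₁ ⊗ χ₂)`: functions
`f : GL(2, F) → E` with `f (b g) = χ₁(a) χ₂(d) f g` for upper triangular `b` with diagonal `(a, d)`,
and right invariant under all `k` close enough to `1`. -/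
def psSpace {F E : Type*} [NormedField F] [Field E] (χ₁ χ₂ : Fˣ →* Eˣ) :
    Submodule E (GL (Fin 2) F → E) where
  carrier := {f | (∀ (b g : GL (Fin 2) F) (a d : Fˣ),
      (b : Matrix (Fin 2) (Fin 2) F) 0 0 = a → (b : Matrix (Fin 2) (Fin 2) F) 1 1 = d →
      (b : Matrix (Fin 2) (Fin 2) F) 1 0 = 0 → f (b * g) = (χ₁ a : E) * (χ₂ d : E) * f g) ∧
    ∃ r : ℝ, 0 < r ∧ ∀ k g : GL (Fin 2) F, Near r k → f (g * k) = f g}
  zero_mem' := ⟨by simp, 1, one_pos, by simp⟩
  add_mem' := by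
    rintro f f' ⟨hf, r, hr, hfr⟩ ⟨hf', r', hr', hfr'⟩
    refine ⟨fun b g a d h1 h2 h3 => ?_, min r r', lt_min hr hr', fun k g hk => ?_⟩
    · simp only [Pi.add_apply, hf b g a d h1 h2 h3, hf' b g a d h1 h2 h3, mul_add]
    · simp only [Pi.add_apply, hfr k g (hk.mono (min_le_left _ _)),
        hfr' k g (hk.mono (min_le_right _ _))]
  smul_mem' := by
    rintro c f ⟨hf, r, hr, hfr⟩
    refine ⟨fun b g a d h1 h2 h3 => ?_, r, hr, fun k g hk => ?_⟩
    · simp only [Pi.smul_apply, smul_eq_mul, hf b g a d h1 h2 h3]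
      ring
    · simp only [Pi.smul_apply, hfr k g hk]

theorem translate_mem {F E : Type*} [NormedField F] [Field E] {χ₁ χ₂ : Fˣ →* Eˣ}
    (γ : GL (Fin 2) F) {f : GL (Fin 2) F → E} (hf : f ∈ psSpace χ₁ χ₂) :
    (fun x => f (x * γ)) ∈ psSpace χ₁ χ₂ := by
  obtain ⟨hf, r, hr, hfr⟩ := hf
  obtain ⟨s, hs, hsr⟩ := exists_near_conj γ hr
  refine ⟨fun b g a d h1 h2 h3 => ?_, s, hs, fun k g hk => ?_⟩
  · simp only [mul_assoc b, hf b _ a d h1 h2 h3]
  · have := hfr _ (g * γ) (hsr k hk)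
    simpa [mul_assoc] using this

/-- Right translation on all functions `G → E`. -/
def rightReg (G E : Type) [Monoid G] [Field E] : Representation E G (G → E) where
  toFun γ := LinearMap.funLeft E E fun x => x * γ
  map_one' := by
    ext f x
    simp [LinearMap.funLeft_apply]
  map_mul' g h := by
    ext f x
    simp [LinearMap.funLeft_apply, mul_assoc]

/-- Right translation on an invariant space of functions. -/
noncomputable def subRight {G E : Type} [Monoid G] [Field E] (W : Submodule E (G → E))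
    (hW : ∀ γ, W ≤ W.comap (rightReg G E γ)) : Rep E G :=
  Rep.of ((rightReg G E).subrepresentation W hW)

theorem psSpace_le {F E : Type} [NormedField F] [Field E] (χ₁ χ₂ : Fˣ →* Eˣ) (γ : GL (Fin 2) F) :
    psSpace χ₁ χ₂ ≤ (psSpace χ₁ χ₂).comap (rightReg (GL (Fin 2) F) E γ) :=
  fun _ hf => translate_mem γ hf

/-- The smooth principal series `Ind_B^G (χ₁ ⊗ χ₂)`, with `GL(2, F)` acting by right
translation. -/
noncomputable def principalSeries {F E : Type} [NormedField F] [Field E] (χ₁ χ₂ : Fˣ →* Eˣ) :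
    Rep E (GL (Fin 2) F) :=
  subRight (psSpace χ₁ χ₂) (psSpace_le χ₁ χ₂)

/-- The tensor product `A ⊗ B` carries a `G`-invariant non-archimedean norm. -/
def HasInvariantNorm {G E : Type} [Monoid G] [NormedField E] (A B : Rep E G) : Prop :=
  ∃ N : A.V ⊗[E] B.V → ℝ, (∀ x, 0 ≤ N x) ∧ (∀ x, N x = 0 → x = 0) ∧
    (∀ (c : E) x, N (c • x) = ‖c‖ * N x) ∧ (∀ x y, N (x + y) ≤ max (N x) (N y)) ∧
    ∀ g x, N (A.ρ.tprod B.ρ g x) = N x

end Pool.Agent.MP_4d0c14_nt
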